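import Mathlib

/-!
Random sign vectors and sums of linear maps: definitions.
-/

set_option autoImplicit false

namespace Pool.Agent.Lib.MP_938ce2_ag_h82

/-- the sign of a Boolean -/
def sg (b : Bool) : ℝ := if b then 1 else -1

/-- the mean of a function on a finite type -/
noncomputable def mean {Ω : Type*} [Fintype Ω] (F : Ω → ℝ) : ℝ := (∑ ω, F ω) / Fintype.card Ω

/-- the sign vector restricted to a set of coordinates -/
def rs {ι : Type*} [DecidableEq ι] (Z : Finset ι) (b : ι → Bool) : ι → ℝ :=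
  fun i => if i ∈ Z then sg (b i) else 0

/-- the sum of the linear maps attached to the atoms of a word; `none` is the empty atom -/
def opW {ι X H : Type*} [AddCommGroup H] [Module ℝ H] (B : X → (ι → ℝ) →ₗ[ℝ] H) {n : ℕ}
    (w : Fin n → Option X) : (ι → ℝ) →ₗ[ℝ] H :=
  ∑ k, (w k).elim 0 B

/-- the sum of the linear maps attached to the entries of a tuple -/
def opT {ι X H : Type*} [AddCommGroup H] [Module ℝ H] (B : X → (ι → ℝ) →ₗ[ℝ] H) {n : ℕ}
    (τ : Fin n → X) : (ι → ℝ) →ₗ[ℝ] H :=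
  ∑ k, B (τ k)

/-- the squared operator norm of a linear map is at most `K` -/
def OpLe {ι H : Type*} [Fintype ι] [NormedAddCommGroup H] [InnerProductSpace ℝ H]
    (D : (ι → ℝ) →ₗ[ℝ] H) (K : ℝ) : Prop :=
  ∀ v : ι → ℝ, ‖D v‖ ^ 2 ≤ K * ∑ i, v i ^ 2

/-- the sum of the squared norms of the images of the unit vectors -/
def frob {ι H : Type*} [Fintype ι] [DecidableEq ι] [NormedAddCommGroup H] [InnerProductSpace ℝ H]
    (D : (ι → ℝ) →ₗ[ℝ] H) : ℝ :=
  ∑ i, ‖D (Pi.single i 1)‖ ^ 2

end Pool.Agent.Lib.MP_938ce2_ag_h82
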