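import Mathlib
import Pool.Agent.Lib.MP_938ce2_ag_h82.Defs

/-!
Elementary facts on means and signs.
-/

set_option autoImplicit false

namespace Pool.Agent.Lib.MP_938ce2_ag_h82

lemma sg_sq (b : Bool) : sg b ^ 2 = 1 := by cases b <;> simp [sg]

lemma sg_mul_self (b : Bool) : sg b * sg b = 1 := by cases b <;> simp [sg]

lemma abs_sg (b : Bool) : |sg b| = 1 := by cases b <;> simp [sg]

lemma sg_not (b : Bool) : sg (!b) = - sg b := by cases b <;> simp [sg]

section mean

variable {Ω Ω' : Type*} [Fintype Ω] [Fintype Ω']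

lemma mean_mono {F G : Ω → ℝ} (h : ∀ ω, F ω ≤ G ω) : mean F ≤ mean G := by
  unfold mean
  exact div_le_div_of_nonneg_right (Finset.sum_le_sum fun ω _ => h ω) (Nat.cast_nonneg _)

lemma mean_nonneg {F : Ω → ℝ} (h : ∀ ω, 0 ≤ F ω) : 0 ≤ mean F := by
  unfold mean
  exact div_nonneg (Finset.sum_nonneg fun ω _ => h ω) (Nat.cast_nonneg _)

lemma mean_add (F G : Ω → ℝ) : mean (fun ω => F ω + G ω) = mean F + mean G := by
  unfold mean
  rw [Finset.sum_add_distrib, add_div]

lemma mean_mul_left (c : ℝ) (F : Ω → ℝ) : mean (fun ω => c * F ω) = c * mean F := by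
  unfold mean
  rw [← Finset.mul_sum, mul_div_assoc]

lemma mean_sum {κ : Type*} (s : Finset κ) (F : κ → Ω → ℝ) :
    mean (fun ω => ∑ k ∈ s, F k ω) = ∑ k ∈ s, mean (F k) := by
  unfold mean
  rw [Finset.sum_comm, Finset.sum_div]

lemma mean_const [Nonempty Ω] (c : ℝ) : mean (fun _ : Ω => c) = c := by
  unfold mean
  rw [Finset.sum_const, Finset.card_univ, nsmul_eq_mul]
  have : (Fintype.card Ω : ℝ) ≠ 0 := by exact_mod_cast Fintype.card_ne_zero
  field_simp

lemma mean_prod (F : Ω × Ω' → ℝ) :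
    mean F = mean (fun ω => mean (fun ω' => F (ω, ω'))) := by
  unfold mean
  rw [Fintype.sum_prod_type, Fintype.card_prod, ← Finset.sum_div, div_div]
  push_cast
  rw [mul_comm]

lemma mean_comm (F : Ω → Ω' → ℝ) :
    mean (fun ω => mean (fun ω' => F ω ω')) = mean (fun ω' => mean (fun ω => F ω ω')) := by
  unfold mean
  rw [← Finset.sum_div, ← Finset.sum_div, div_div, div_div, Finset.sum_comm, mul_comm]

/-- some value is at most the mean -/
lemma exists_le_mean [Nonempty Ω] (F : Ω → ℝ) : ∃ ω, F ω ≤ mean F := by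
  by_contra h
  push Not at h
  have h1 : ∑ _ω : Ω, mean F < ∑ ω, F ω :=
    Finset.sum_lt_sum_of_nonempty Finset.univ_nonempty fun ω _ => h ω
  rw [Finset.sum_const, Finset.card_univ, nsmul_eq_mul] at h1
  have hc : (0 : ℝ) < Fintype.card Ω := by exact_mod_cast Fintype.card_pos
  have h2 : (Fintype.card Ω : ℝ) * mean F = ∑ ω, F ω := by
    unfold mean
    field_simp
  linarith

/-- the share of a set on which a nonnegative function is at least one -/
lemma card_le_mean [Nonempty Ω] (s : Finset Ω) (F : Ω → ℝ) (h0 : ∀ ω, 0 ≤ F ω)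
    (h1 : ∀ ω ∈ s, 1 ≤ F ω) : (s.card : ℝ) ≤ mean F * Fintype.card Ω := by
  have hc : (0 : ℝ) < Fintype.card Ω := by exact_mod_cast Fintype.card_pos
  have h2 : mean F * Fintype.card Ω = ∑ ω, F ω := by
    unfold mean
    field_simp
  rw [h2]
  calc (s.card : ℝ) = ∑ _ω ∈ s, (1 : ℝ) := by simp
    _ ≤ ∑ ω ∈ s, F ω := Finset.sum_le_sum h1
    _ ≤ ∑ ω, F ω := Finset.sum_le_sum_of_subset_of_nonneg (Finset.subset_univ _)
        fun ω _ _ => h0 ω

end mean

lemma mean_equiv {Ω Ω' : Type*} [Fintype Ω] [Fintype Ω'] (e : Ω ≃ Ω') (F : Ω' → ℝ) :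
    mean (fun ω => F (e ω)) = mean F := by
  unfold mean
  rw [Fintype.card_congr e, Equiv.sum_comp e F]

end Pool.Agent.Lib.MP_938ce2_ag_h82
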