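import Mathlib
import Pool.Agent.Lib.MP_938ce2_ag_h82.Basic
import Pool.Agent.Lib.MP_938ce2_ag_h65.Main

/-!
The linear maps attached to the points of a set with a group action.
-/

set_option autoImplicit false
set_option linter.unusedSectionVars false

namespace Pool.Agent.Lib.MP_938ce2_ag_h82

open Pool.Agent.Lib.MP_938ce2_ag_h65 (elem vec)

variable {Γ : Type} [Group Γ] [Fintype Γ] {X : Type} [MulAction Γ X] [DecidableEq X]

/-- the value at `y` of the odd extension of the function `v` on `Φ₀` -/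
def extV (c : Γ) (Φ₀ : Finset X) (v : Φ₀ → ℝ) (y : X) : ℝ :=
  ∑ i : Φ₀, v i * (elem c y (i : X) : ℝ)

/-- the function `γ ↦ v (γ x)` of the odd extension of `v`, normalised -/
noncomputable def opB (c : Γ) (Φ₀ : Finset X) (x : X) : (Φ₀ → ℝ) →ₗ[ℝ] EuclideanSpace ℝ Γ where
  toFun v := WithLp.toLp 2 fun γ => (√(Fintype.card Γ : ℝ))⁻¹ * extV c Φ₀ v (γ • x)
  map_add' v w := by
    ext γ
    simp only [extV, Pi.add_apply, add_mul, Finset.sum_add_distrib, mul_add, PiLp.add_apply]
  map_smul' r v := by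
    ext γ
    simp only [extV, Pi.smul_apply, smul_eq_mul, RingHom.id_apply, PiLp.smul_apply, Finset.mul_sum]
    refine Finset.sum_congr rfl fun i _ => ?_
    ring

lemma opB_apply (c : Γ) (Φ₀ : Finset X) (x : X) (v : Φ₀ → ℝ) (γ : Γ) :
    opB c Φ₀ x v γ = (√(Fintype.card Γ : ℝ))⁻¹ * extV c Φ₀ v (γ • x) := rfl

/-- the sum of the squares of the values of the odd function of a tuple over a CM type -/
def mT (c : Γ) (Φ₀ : Finset X) {n : ℕ} (τ : Fin n → X) : ℕ := ∑ i ∈ Φ₀, (vec c τ i).natAbs ^ 2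

end Pool.Agent.Lib.MP_938ce2_ag_h82
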