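import Mathlib
import Pool.Agent.Lib.MP_938ce2_ag_h82.Defs3

/-!
The bad CM types.
-/

set_option autoImplicit false
set_option linter.unusedSectionVars false

namespace Pool.Agent.Lib.MP_938ce2_ag_h82

open Pool.Agent.Lib.MP_938ce2_ag_h60 (CMType)
open Pool.Agent.Lib.MP_938ce2_ag_h65 (elem vec)

variable {Γ : Type} [Group Γ] [Fintype Γ] {X : Type} [MulAction Γ X] [Fintype X] [DecidableEq X]

/-- the set of the CM types for which the mean of the squares of the sums over the translates of some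
nonzero odd function of a tuple of length `n` is small -/
def Bad (c : Γ) (n : ℕ) : Set (Finset X) :=
  {Φ | CMType c Φ ∧ ∃ τ : Fin n → X, (∃ x, vec c τ x ≠ 0) ∧
    4 * ∑ γ : Γ, (∑ φ ∈ Φ, vec c τ (γ • φ)) ^ 2
      ≤ (Fintype.card Γ : ℤ) * ∑ x, |vec c τ x|}

end Pool.Agent.Lib.MP_938ce2_ag_h82
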