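import Mathlib
import Pool.Agent.Lib.MP_938ce2_ag_h82.Basic

set_option autoImplicit false

namespace Pool.Agent.Lib.MP_938ce2_ag_h82

open Finset

variable {ι : Type} [Fintype ι] [DecidableEq ι] {H : Type} [NormedAddCommGroup H]
  [InnerProductSpace ℝ H]

/-- the matrix of `C* D` -/
noncomputable def gramM (C D : (ι → ℝ) →ₗ[ℝ] H) : Matrix ι ι ℝ :=
  fun i j => inner ℝ (C (Pi.single i 1)) (D (Pi.single j 1))

private theorem map_eq_sum (D : (ι → ℝ) →ₗ[ℝ] H) (w : ι → ℝ) :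
    D w = ∑ j, w j • D (Pi.single j 1) := by
  conv_lhs => rw [pi_eq_sum_univ' w]
  rw [map_sum]
  refine Finset.sum_congr rfl fun j _ => ?_
  rw [map_smul]

private theorem gramM_mulVec (C D : (ι → ℝ) →ₗ[ℝ] H) (w : ι → ℝ) (i : ι) :
    ((gramM C D).mulVec w) i = inner ℝ (C (Pi.single i 1)) (D w) := by
  rw [map_eq_sum D w, inner_sum, Matrix.mulVec, dotProduct]
  refine Finset.sum_congr rfl fun j _ => ?_
  rw [inner_smul_right, gramM, mul_comm]

/-- the quadratic form of `gramM D D` is the squared norm -/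
theorem gramM_form (C D : (ι → ℝ) →ₗ[ℝ] H) (v w : ι → ℝ) :
    ∑ i, v i * ((gramM C D).mulVec w) i = inner ℝ (C v) (D w) := by
  rw [map_eq_sum C v, sum_inner]
  refine Finset.sum_congr rfl fun i _ => ?_
  rw [gramM_mulVec, real_inner_smul_left]

/-- `C* D` has norm at most `β` if `C` and `D` have norm at most `√β` -/
theorem gramM_le (C D : (ι → ℝ) →ₗ[ℝ] H) {β : ℝ} (hβ : 0 ≤ β) (hC : OpLe C β) (hD : OpLe D β)
    (v : ι → ℝ) : ∑ i, ((gramM C D).mulVec v) i ^ 2 ≤ β ^ 2 * ∑ i, v i ^ 2 := by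
  set u : ι → ℝ := (gramM C D).mulVec v with hu
  set S : ℝ := ∑ i, u i ^ 2 with hS
  set V : ℝ := ∑ i, v i ^ 2 with hV
  have hS0 : 0 ≤ S := Finset.sum_nonneg fun i _ => sq_nonneg _
  have hV0 : 0 ≤ V := Finset.sum_nonneg fun i _ => sq_nonneg _
  have h1 : S = inner ℝ (C u) (D v) := by
    rw [← gramM_form, hS]
    refine Finset.sum_congr rfl fun i _ => ?_
    rw [sq]
  have h2 : S ≤ ‖C u‖ * ‖D v‖ := by
    rw [h1]
    exact real_inner_le_norm _ _
  have h3 : S ^ 2 ≤ (β * S) * (β * V) := by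
    calc S ^ 2 ≤ (‖C u‖ * ‖D v‖) ^ 2 := pow_le_pow_left₀ hS0 h2 2
      _ = ‖C u‖ ^ 2 * ‖D v‖ ^ 2 := mul_pow _ _ _
      _ ≤ (β * S) * (β * V) :=
          mul_le_mul (hC u) (hD v) (sq_nonneg _) (mul_nonneg hβ hS0)
  rcases hS0.eq_or_lt with h4 | h4
  · rw [← h4]
    positivity
  · have h5 : S * S ≤ S * (β ^ 2 * V) := by nlinarith
    exact le_of_mul_le_mul_left h5 h4

end Pool.Agent.Lib.MP_938ce2_ag_h82
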