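import Mathlib
import Pool.Agent.Lib.MP_938ce2_ag_h82.Basic

set_option autoImplicit false

namespace Pool.Agent.Lib.MP_938ce2_ag_h82

open Finset

variable {ι : Type} [Fintype ι] [DecidableEq ι]

omit [DecidableEq ι] in
private lemma symm_sq (N : Matrix ι ι ℝ) (hN : N.IsSymm) (v : ι → ℝ) :
    ∑ i, v i * ((N * N).mulVec v) i = ∑ i, (N.mulVec v) i ^ 2 := by
  have h : v ⬝ᵥ (N * N).mulVec v = (N.mulVec v) ⬝ᵥ (N.mulVec v) := by
    rw [← Matrix.mulVec_mulVec, Matrix.dotProduct_mulVec, ← Matrix.mulVec_transpose, hN.eq]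
  calc ∑ i, v i * ((N * N).mulVec v) i = v ⬝ᵥ (N * N).mulVec v := rfl
    _ = (N.mulVec v) ⬝ᵥ (N.mulVec v) := h
    _ = _ := by
      unfold dotProduct
      exact Finset.sum_congr rfl fun i _ => by rw [sq]

omit [DecidableEq ι] in
private lemma norm_le_trace (N : Matrix ι ι ℝ) (hN : N.IsSymm) (v : ι → ℝ) :
    ∑ i, (N.mulVec v) i ^ 2 ≤ (∑ i, v i ^ 2) * (N * N).trace := by
  have h1 : ∀ i, (N.mulVec v) i ^ 2 ≤ (∑ j, N i j ^ 2) * ∑ j, v j ^ 2 := fun i =>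
    Finset.sum_mul_sq_le_sq_mul_sq univ (fun j => N i j) v
  have h2 : (N * N).trace = ∑ i, ∑ j, N i j ^ 2 := by
    unfold Matrix.trace
    refine Finset.sum_congr rfl fun i _ => ?_
    rw [Matrix.diag_apply, Matrix.mul_apply]
    refine Finset.sum_congr rfl fun j _ => ?_
    have h3 : N j i = N i j := by
      have := congrFun (congrFun hN.eq i) j
      rwa [Matrix.transpose_apply] at this
    rw [h3, sq]
  calc ∑ i, (N.mulVec v) i ^ 2 ≤ ∑ i, (∑ j, N i j ^ 2) * ∑ j, v j ^ 2 :=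
        Finset.sum_le_sum fun i _ => h1 i
    _ = (∑ i, v i ^ 2) * (N * N).trace := by rw [← Finset.sum_mul, h2, mul_comm]

/-- from the trace of a high power to the norm: for `q = 2 ^ t`, `t ≥ 1`, by the Cauchy-Schwarz
inequality `⟨v, M v⟩ ^ q ≤ |v| ^ (2 q) * tr (M ^ q)` -/
theorem form_pow_le_trace (M : Matrix ι ι ℝ) (hM : M.IsSymm) (t : ℕ) (v : ι → ℝ)
    (hpos : 0 ≤ ∑ i, v i * (M.mulVec v) i) :
    (∑ i, v i * (M.mulVec v) i) ^ (2 ^ (t + 1))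
      ≤ (∑ i, v i ^ 2) ^ (2 ^ (t + 1)) * (M ^ (2 ^ (t + 1))).trace := by
  have hV : 0 ≤ ∑ i, v i ^ 2 := Finset.sum_nonneg fun i _ => sq_nonneg _
  have hsym : ∀ n, (M ^ n).IsSymm := fun n => hM.pow n
  have hsq : ∀ s, M ^ (2 ^ (s + 1)) = M ^ (2 ^ s) * M ^ (2 ^ s) := fun s => by
    rw [← pow_add, pow_succ 2 s, mul_two]
  have key : ∀ s, (∑ i, v i * (M.mulVec v) i) ^ (2 ^ s)
      ≤ (∑ i, v i ^ 2) ^ (2 ^ s - 1) * ∑ i, v i * ((M ^ (2 ^ s)).mulVec v) i := by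
    intro s
    induction s with
    | zero => simp
    | succ s ih =>
      have h0 : 0 ≤ (∑ i, v i * (M.mulVec v) i) ^ (2 ^ s) := pow_nonneg hpos _
      have h1 : (∑ i, v i * ((M ^ (2 ^ s)).mulVec v) i) ^ 2
          ≤ (∑ i, v i ^ 2) * ∑ i, v i * ((M ^ (2 ^ (s + 1))).mulVec v) i := by
        rw [hsq s, symm_sq _ (hsym _)]
        exact Finset.sum_mul_sq_le_sq_mul_sq univ v _
      have he : 2 ^ (s + 1) - 1 = (2 ^ s - 1) * 2 + 1 := by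
        have : 0 < 2 ^ s := Nat.two_pow_pos s
        rw [pow_succ]
        omega
      calc (∑ i, v i * (M.mulVec v) i) ^ (2 ^ (s + 1))
          = ((∑ i, v i * (M.mulVec v) i) ^ (2 ^ s)) ^ 2 := by rw [← pow_mul, ← pow_succ]
        _ ≤ ((∑ i, v i ^ 2) ^ (2 ^ s - 1) * ∑ i, v i * ((M ^ (2 ^ s)).mulVec v) i) ^ 2 :=
            pow_le_pow_left₀ h0 ih 2
        _ = (∑ i, v i ^ 2) ^ ((2 ^ s - 1) * 2) *
            (∑ i, v i * ((M ^ (2 ^ s)).mulVec v) i) ^ 2 := by rw [mul_pow, pow_mul]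
        _ ≤ (∑ i, v i ^ 2) ^ ((2 ^ s - 1) * 2) *
            ((∑ i, v i ^ 2) * ∑ i, v i * ((M ^ (2 ^ (s + 1))).mulVec v) i) :=
            mul_le_mul_of_nonneg_left h1 (pow_nonneg hV _)
        _ = _ := by rw [he, pow_succ (∑ i, v i ^ 2) ((2 ^ s - 1) * 2), mul_assoc]
  have h1 : ∑ i, v i * ((M ^ (2 ^ (t + 1))).mulVec v) i
      ≤ (∑ i, v i ^ 2) * (M ^ (2 ^ (t + 1))).trace := by
    rw [hsq t, symm_sq _ (hsym _)]
    exact norm_le_trace _ (hsym _) v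
  calc (∑ i, v i * (M.mulVec v) i) ^ (2 ^ (t + 1))
      ≤ (∑ i, v i ^ 2) ^ (2 ^ (t + 1) - 1) * ∑ i, v i * ((M ^ (2 ^ (t + 1))).mulVec v) i :=
        key (t + 1)
    _ ≤ (∑ i, v i ^ 2) ^ (2 ^ (t + 1) - 1) *
        ((∑ i, v i ^ 2) * (M ^ (2 ^ (t + 1))).trace) :=
        mul_le_mul_of_nonneg_left h1 (pow_nonneg hV _)
    _ = _ := by
      rw [← mul_assoc, ← pow_succ, Nat.sub_add_cancel (Nat.one_le_two_pow)]

end Pool.Agent.Lib.MP_938ce2_ag_h82
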