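import Mathlib
import Pool.Agent.Lib.MP_938ce2_ag_h82.Basic

set_option autoImplicit false

namespace Pool.Agent.Lib.MP_938ce2_ag_h82

open Finset

variable {ι : Type} [Fintype ι] [DecidableEq ι]

/-- the exponential moment of a signed sum -/
theorem mean_exp (a : ι → ℝ) :
    mean (fun b : ι → Bool => Real.exp (∑ i, a i * sg (b i))) = ∏ i, Real.cosh (a i) := by
  have h1 : ∀ b : ι → Bool, Real.exp (∑ i, a i * sg (b i)) = ∏ i, Real.exp (a i * sg (b i)) :=
    fun b => Real.exp_sum _ _
  unfold mean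
  rw [Finset.sum_congr rfl fun b _ => h1 b,
    ← Fintype.prod_sum (fun (i : ι) (c : Bool) => Real.exp (a i * sg c))]
  have h2 : ∀ i : ι, ∑ c : Bool, Real.exp (a i * sg c) = 2 * Real.cosh (a i) := by
    intro i
    rw [Fintype.sum_bool, Real.cosh_eq]
    simp only [sg, if_true, Bool.false_eq_true, if_false, mul_one, mul_neg]
    ring
  rw [Finset.prod_congr rfl fun i _ => h2 i, Finset.prod_mul_distrib, Finset.prod_const,
    Finset.card_univ, Fintype.card_fun, Fintype.card_bool]
  push_cast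
  rw [mul_div_cancel_left₀ _ (by positivity)]

private lemma mean_mono' {Ω : Type*} [Fintype Ω] {F G : Ω → ℝ} (h : ∀ ω, F ω ≤ G ω) :
    mean F ≤ mean G := by
  unfold mean
  gcongr
  exact h _

private lemma mean_add' {Ω : Type*} [Fintype Ω] (F G : Ω → ℝ) :
    mean (fun ω => F ω + G ω) = mean F + mean G := by
  unfold mean
  rw [Finset.sum_add_distrib, add_div]

private lemma mean_mul' {Ω : Type*} [Fintype Ω] (c : ℝ) (F : Ω → ℝ) :
    mean (fun ω => c * F ω) = c * mean F := by
  unfold mean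
  rw [← Finset.mul_sum, mul_div_assoc]

private lemma pow_le_exp' {r : ℕ} (hr : 0 < r) (y : ℝ) :
    y ^ (2 * r) ≤ (2 * (r : ℝ)) ^ (2 * r) * Real.exp (-(2 * (r : ℝ)))
      * (Real.exp y + Real.exp (-y)) := by
  have hr' : (0 : ℝ) < 2 * r := by positivity
  have h1 : y ^ (2 * r) = |y| ^ (2 * r) := by
    rw [pow_mul, pow_mul, sq_abs]
  have h2 : |y| ≤ (2 * r) * Real.exp (|y| / (2 * r) - 1) := by
    have := Real.add_one_le_exp (|y| / (2 * r) - 1)
    rw [sub_add_cancel, div_le_iff₀ hr'] at this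
    linarith [mul_comm (Real.exp (|y| / (2 * r) - 1)) (2 * (r : ℝ))]
  have h3 : |y| ^ (2 * r) ≤ (2 * (r : ℝ)) ^ (2 * r) * Real.exp (-(2 * (r : ℝ)))
      * Real.exp |y| := by
    calc |y| ^ (2 * r) ≤ ((2 * r) * Real.exp (|y| / (2 * r) - 1)) ^ (2 * r) :=
          pow_le_pow_left₀ (abs_nonneg _) h2 _
      _ = (2 * (r : ℝ)) ^ (2 * r) * Real.exp ((2 * r : ℕ) * (|y| / (2 * r) - 1)) := by
          rw [mul_pow, ← Real.exp_nat_mul]
      _ = (2 * (r : ℝ)) ^ (2 * r) * (Real.exp (-(2 * (r : ℝ))) * Real.exp |y|) := by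
          rw [← Real.exp_add]
          congr 2
          push_cast
          field_simp
          ring
      _ = _ := by ring
  have h4 : Real.exp |y| ≤ Real.exp y + Real.exp (-y) := by
    rcases abs_cases y with h | h
    · rw [h.1]; linarith [Real.exp_pos (-y)]
    · rw [h.1]; linarith [Real.exp_pos y]
  rw [h1]
  exact h3.trans (by gcongr)

/-- Khintchine's inequality for even moments. Proof: for `S = ∑ a i ^ 2 > 0` and `t ^ 2 * S = 2 * r`
use `y ^ (2 * r) ≤ (2 * r) ^ (2 * r) * exp (-(2 * r)) * (exp y + exp (-y))`, `mean_exp`,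
`Real.cosh_le_exp_half_sq` and `2 ≤ exp r`. -/
theorem khintchine (r : ℕ) (a : ι → ℝ) :
    mean (fun b : ι → Bool => (∑ i, a i * sg (b i)) ^ (2 * r))
      ≤ (2 * (r : ℝ)) ^ r * (∑ i, a i ^ 2) ^ r := by
  rcases Nat.eq_zero_or_pos r with hr | hr
  · subst hr
    simp [mean]
  set S := ∑ i, a i ^ 2 with hS
  have hS0 : 0 ≤ S := Finset.sum_nonneg fun i _ => sq_nonneg _
  rcases hS0.eq_or_lt with h0 | h0
  · have h1 : ∀ i, a i = 0 := by
      intro i
      have := (Finset.sum_eq_zero_iff_of_nonneg (fun i _ => sq_nonneg (a i))).1 h0.symm i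
        (Finset.mem_univ i)
      exact pow_eq_zero_iff (two_ne_zero) |>.1 this
    have h2 : (fun b : ι → Bool => (∑ i, a i * sg (b i)) ^ (2 * r)) = fun _ => 0 := by
      funext b
      rw [Finset.sum_eq_zero (fun i _ => by rw [h1 i, zero_mul]), zero_pow (by omega)]
    rw [h2]
    have : mean (fun _ : ι → Bool => (0 : ℝ)) = 0 := by simp [mean]
    rw [this]
    positivity
  have hr' : (0 : ℝ) < 2 * r := by positivity
  set t := Real.sqrt (2 * r / S) with ht
  have ht2 : t ^ 2 = 2 * r / S := Real.sq_sqrt (by positivity)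
  have h1 : mean (fun b : ι → Bool => (∑ i, (t * a i) * sg (b i)) ^ (2 * r))
      ≤ (2 * (r : ℝ)) ^ (2 * r) * Real.exp (-(2 * (r : ℝ))) * (2 * Real.exp r) := by
    have h2 : mean (fun b : ι → Bool => (∑ i, (t * a i) * sg (b i)) ^ (2 * r)) ≤
        mean (fun b : ι → Bool => (2 * (r : ℝ)) ^ (2 * r) * Real.exp (-(2 * (r : ℝ))) *
          (Real.exp (∑ i, (t * a i) * sg (b i)) + Real.exp (∑ i, (-(t * a i)) * sg (b i)))) := by
      apply mean_mono'
      intro b
      have := pow_le_exp' hr (∑ i, (t * a i) * sg (b i))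
      have e : -(∑ i, (t * a i) * sg (b i)) = ∑ i, (-(t * a i)) * sg (b i) := by
        rw [← Finset.sum_neg_distrib]
        exact Finset.sum_congr rfl fun i _ => by ring
      rwa [e] at this
    refine h2.trans ?_
    rw [mean_mul', mean_add', mean_exp, mean_exp]
    have h3 : ∏ i, Real.cosh (-(t * a i)) = ∏ i, Real.cosh (t * a i) :=
      Finset.prod_congr rfl fun i _ => Real.cosh_neg _
    have h4 : ∏ i, Real.cosh (t * a i) ≤ Real.exp r := by
      calc ∏ i, Real.cosh (t * a i) ≤ ∏ i, Real.exp ((t * a i) ^ 2 / 2) := by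
            apply Finset.prod_le_prod
            · intro i _
              exact (Real.cosh_pos _).le
            · intro i _
              exact Real.cosh_le_exp_half_sq _
        _ = Real.exp (∑ i, (t * a i) ^ 2 / 2) := (Real.exp_sum _ _).symm
        _ = Real.exp r := by
            congr 1
            have : ∑ i, (t * a i) ^ 2 / 2 = t ^ 2 / 2 * S := by
              rw [hS, Finset.mul_sum]
              exact Finset.sum_congr rfl fun i _ => by ring
            rw [this, ht2]
            field_simp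
    rw [h3]
    gcongr
    linarith
  have h5 : mean (fun b : ι → Bool => (∑ i, (t * a i) * sg (b i)) ^ (2 * r)) =
      (2 * r / S) ^ r * mean (fun b : ι → Bool => (∑ i, a i * sg (b i)) ^ (2 * r)) := by
    rw [← mean_mul']
    congr 1
    funext b
    have : ∑ i, (t * a i) * sg (b i) = t * ∑ i, a i * sg (b i) := by
      rw [Finset.mul_sum]
      exact Finset.sum_congr rfl fun i _ => by ring
    rw [this, mul_pow, pow_mul t, ht2]
  have h6 : 2 ≤ Real.exp r := by
    have h7 : (1 : ℝ) ≤ r := by exact_mod_cast hr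
    have := Real.add_one_le_exp (r : ℝ)
    linarith
  have h8 : (2 * (r : ℝ)) ^ (2 * r) * Real.exp (-(2 * (r : ℝ))) * (2 * Real.exp r) ≤
      (2 * (r : ℝ)) ^ (2 * r) := by
    have h9 : Real.exp (-(2 * (r : ℝ))) * (2 * Real.exp r) ≤ 1 := by
      calc Real.exp (-(2 * (r : ℝ))) * (2 * Real.exp r)
          ≤ Real.exp (-(2 * (r : ℝ))) * (Real.exp r * Real.exp r) := by gcongr
        _ = 1 := by
            rw [← Real.exp_add, ← Real.exp_add]
            have : -(2 * (r : ℝ)) + (r + r) = 0 := by ring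
            rw [this, Real.exp_zero]
    calc (2 * (r : ℝ)) ^ (2 * r) * Real.exp (-(2 * (r : ℝ))) * (2 * Real.exp r)
        = (2 * (r : ℝ)) ^ (2 * r) * (Real.exp (-(2 * (r : ℝ))) * (2 * Real.exp r)) := by ring
      _ ≤ (2 * (r : ℝ)) ^ (2 * r) * 1 := by gcongr
      _ = _ := mul_one _
  have h10 := h1.trans h8
  rw [h5] at h10
  have h11 : (0 : ℝ) < (2 * r / S) ^ r := by positivity
  have h12 : (2 * (r : ℝ)) ^ (2 * r) = (2 * r / S) ^ r * ((2 * (r : ℝ)) ^ r * S ^ r) := by
    rw [two_mul r, pow_add, div_pow]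
    field_simp
  rw [h12] at h10
  exact le_of_mul_le_mul_left h10 h11

end Pool.Agent.Lib.MP_938ce2_ag_h82
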