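import Mathlib
import Pool.Agent.Lib.MP_938ce2_ag_h82.Basic

set_option autoImplicit false

namespace Pool.Agent.Lib.MP_938ce2_ag_h82

open Finset

/-- the power of a sum in a not necessarily commutative algebra -/
theorem sum_pow_expand {R α : Type} [Ring R] [Algebra ℝ R] [Fintype α] (θ : α → ℝ) (G : α → R)
    (q : ℕ) :
    (∑ p, θ p • G p) ^ q
      = ∑ s : Fin q → α, (∏ j, θ (s j)) • (List.ofFn fun j => G (s j)).prod := by
  induction q with
  | zero => simp
  | succ q ih =>
    rw [pow_succ', ih, Finset.sum_mul_sum]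
    rw [← Fintype.sum_prod_type' (f := fun (p : α) (s : Fin q → α) =>
      θ p • G p * ((∏ j, θ (s j)) • (List.ofFn fun j => G (s j)).prod))]
    refine Fintype.sum_equiv (Fin.consEquiv fun _ => α) _ _ fun x => ?_
    obtain ⟨p, s⟩ := x
    rw [smul_mul_smul_comm, Fin.prod_univ_succ, List.ofFn_succ, List.prod_cons]
    simp [Fin.consEquiv]

end Pool.Agent.Lib.MP_938ce2_ag_h82
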