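import Mathlib
import Pool.Agent.Lib.MP_938ce2_ag_h82.Basic

set_option autoImplicit false

namespace Pool.Agent.Lib.MP_938ce2_ag_h82

open Finset

variable {ι : Type} [Fintype ι] [DecidableEq ι]

/-- `A` has operator norm at most `β` on `ι → ℝ` with the Euclidean norm -/
def MatLe (A : Matrix ι ι ℝ) (β : ℝ) : Prop :=
  ∀ v : ι → ℝ, ∑ i, (A.mulVec v) i ^ 2 ≤ β ^ 2 * ∑ i, v i ^ 2

theorem matLe_prod {β : ℝ} (l : List (Matrix ι ι ℝ)) (hl : ∀ A ∈ l, MatLe A β) :
    MatLe l.prod (β ^ l.length) := by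
  induction l with
  | nil =>
    intro v
    simp
  | cons A l ih =>
    intro v
    have h1 : MatLe A β := hl A (List.mem_cons_self ..)
    have h2 : MatLe l.prod (β ^ l.length) := ih fun B hB => hl B (List.mem_cons_of_mem _ hB)
    rw [List.prod_cons, ← Matrix.mulVec_mulVec, List.length_cons, pow_succ' β l.length]
    calc ∑ i, (A.mulVec (l.prod.mulVec v)) i ^ 2
        ≤ β ^ 2 * ∑ i, (l.prod.mulVec v) i ^ 2 := h1 _
      _ ≤ β ^ 2 * ((β ^ l.length) ^ 2 * ∑ i, v i ^ 2) :=
          mul_le_mul_of_nonneg_left (h2 v) (sq_nonneg β)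
      _ = (β * β ^ l.length) ^ 2 * ∑ i, v i ^ 2 := by ring

/-- the trace is at most the dimension times the operator norm -/
theorem trace_le_of_matLe {A : Matrix ι ι ℝ} {β : ℝ} (hβ : 0 ≤ β) (h : MatLe A β) :
    |A.trace| ≤ Fintype.card ι * β := by
  have h1 : ∀ i, |A i i| ≤ β := by
    intro i
    refine abs_le_of_sq_le_sq' ?_ hβ |> abs_le.2
    have h2 := h (Pi.single i 1)
    have h3 : ∑ j, (Pi.single i (1 : ℝ) : ι → ℝ) j ^ 2 = 1 := by
      rw [Finset.sum_eq_single i]
      · simp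
      · intro j _ hj
        simp [Pi.single_eq_of_ne hj]
      · intro hi
        exact absurd (Finset.mem_univ i) hi
    rw [h3, mul_one] at h2
    refine le_trans ?_ h2
    have h4 : A i i = (A.mulVec (Pi.single i 1)) i := by
      simp [Matrix.mulVec_single]
    rw [h4]
    exact Finset.single_le_sum (f := fun j => (A.mulVec (Pi.single i 1)) j ^ 2)
      (fun j _ => sq_nonneg _) (Finset.mem_univ i)
  calc |A.trace| ≤ ∑ i, |A i i| := by
        rw [Matrix.trace]
        exact Finset.abs_sum_le_sum_abs _ _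
    _ ≤ ∑ _i : ι, β := Finset.sum_le_sum fun i _ => h1 i
    _ = Fintype.card ι * β := by
        rw [Finset.sum_const, Finset.card_univ, nsmul_eq_mul]

end Pool.Agent.Lib.MP_938ce2_ag_h82
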