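import Mathlib
import Pool.Agent.Lib.MP_938ce2_ag_h82.Basic
import Pool.Agent.Lib.MP_938ce2_ag_h82.R01
import Pool.Agent.Lib.MP_938ce2_ag_h82.R05a
import Pool.Agent.Lib.MP_938ce2_ag_h82.R05b
import Pool.Agent.Lib.MP_938ce2_ag_h82.R06a
import Pool.Agent.Lib.MP_938ce2_ag_h82.R06b

set_option autoImplicit false

namespace Pool.Agent.Lib.MP_938ce2_ag_h82

open Finset

variable {ι : Type} [Fintype ι] [DecidableEq ι] {H : Type} [NormedAddCommGroup H]
  [InnerProductSpace ℝ H]

private lemma sg_beq (a b : Bool) : sg (a == b) = sg a * sg b := by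
  cases a <;> cases b <;> simp [sg]

private lemma mean_char_nonneg {n : ℕ} (χ : (Fin n → Bool) → ℝ) (h1 : ∀ η, χ η = 1 ∨ χ η = -1)
    (hm : ∀ η η0, χ (fun k => η k == η0 k) = χ η * χ η0) : 0 ≤ mean χ := by
  by_cases h : ∃ η0, χ η0 = -1
  · obtain ⟨η0, h0⟩ := h
    have hinv : Function.Involutive (fun (η : Fin n → Bool) => fun k => (η k == η0 k)) := by
      intro η
      funext k
      change ((η k == η0 k) == η0 k) = η k
      cases η k <;> cases η0 k <;> rfl
    have hs : ∑ η, χ η = 0 := by
      have h2 : ∑ η, χ (hinv.toPerm _ η) = ∑ η, χ η := Equiv.sum_comp (hinv.toPerm _) χ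
      have h3 : ∑ η, χ (hinv.toPerm _ η) = ∑ η, χ η * (-1) := by
        refine Finset.sum_congr rfl fun η _ => ?_
        rw [← h0]
        exact hm η η0
      rw [← Finset.sum_mul] at h3
      linarith
    unfold mean
    rw [hs, zero_div]
  · push Not at h
    refine mean_nonneg fun η => ?_
    rcases h1 η with h2 | h2
    · rw [h2]; norm_num
    · exact absurd h2 (h η)

omit [Fintype ι] in
private lemma gramM_sum {n : ℕ} (C : Fin n → (ι → ℝ) →ₗ[ℝ] H) (a : Fin n → ℝ) :
    gramM (∑ k, a k • C k) (∑ k, a k • C k)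
      = ∑ p : Fin n × Fin n, (a p.1 * a p.2) • gramM (C p.1) (C p.2) := by
  ext i j
  rw [Matrix.sum_apply, Fintype.sum_prod_type]
  simp only [gramM, Matrix.smul_apply, LinearMap.sum_apply, LinearMap.smul_apply, smul_eq_mul]
  rw [sum_inner]
  refine Finset.sum_congr rfl fun x _ => ?_
  rw [inner_sum]
  refine Finset.sum_congr rfl fun y _ => ?_
  rw [real_inner_smul_left, real_inner_smul_right]
  ring

/-- the mean of the trace of a power of a random Gram matrix. Proof: expand the power by
`sum_pow_expand` over pairs; every trace is at most `card ι * β ^ q` in absolute value, the mean of a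
product of signs is nonnegative, and the sum of these means is the mean of
`(∑ k, sg (η k)) ^ (2 * q)`, at most `(2 * q) ^ q * n ^ q` by `khintchine`. -/
theorem mean_trace_le {n : ℕ} (C : Fin n → (ι → ℝ) →ₗ[ℝ] H) {β : ℝ} (hβ : 0 ≤ β)
    (hC : ∀ k, OpLe (C k) β) (q : ℕ) :
    mean (fun η : Fin n → Bool =>
        ((gramM (∑ k, sg (η k) • C k) (∑ k, sg (η k) • C k)) ^ q).trace)
      ≤ Fintype.card ι * β ^ q * ((2 * (q : ℝ)) ^ q * (n : ℝ) ^ q) := by
  classical
  set χ : (Fin q → Fin n × Fin n) → (Fin n → Bool) → ℝ :=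
    fun s η => ∏ j, (sg (η (s j).1) * sg (η (s j).2)) with hχ
  set W : (Fin q → Fin n × Fin n) → ℝ :=
    fun s => ((List.ofFn fun j => gramM (C (s j).1) (C (s j).2)).prod).trace with hW
  have hexp : ∀ η : Fin n → Bool,
      ((gramM (∑ k, sg (η k) • C k) (∑ k, sg (η k) • C k)) ^ q).trace
        = ∑ s, W s * χ s η := by
    intro η
    rw [gramM_sum C fun k => sg (η k),
      sum_pow_expand (fun p : Fin n × Fin n => sg (η p.1) * sg (η p.2))
        (fun p => gramM (C p.1) (C p.2)) q, Matrix.trace_sum]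
    refine Finset.sum_congr rfl fun s _ => ?_
    rw [Matrix.trace_smul, smul_eq_mul, mul_comm]
  have hWle : ∀ s, |W s| ≤ Fintype.card ι * β ^ q := by
    intro s
    have h1 : MatLe (List.ofFn fun j => gramM (C (s j).1) (C (s j).2)).prod
        (β ^ (List.ofFn fun j => gramM (C (s j).1) (C (s j).2)).length) := by
      refine matLe_prod _ fun A hA => ?_
      rw [List.mem_ofFn] at hA
      obtain ⟨j, rfl⟩ := hA
      exact fun v => gramM_le _ _ hβ (hC _) (hC _) v
    rw [List.length_ofFn] at h1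
    exact trace_le_of_matLe (pow_nonneg hβ q) h1
  have hχ0 : ∀ s, 0 ≤ mean (χ s) := by
    intro s
    refine mean_char_nonneg _ (fun η => ?_) fun η η0 => ?_
    · have h2 : |χ s η| = 1 := by
        simp only [hχ, Finset.abs_prod, abs_mul, abs_sg, mul_one, Finset.prod_const_one]
      exact abs_eq (zero_le_one) |>.1 h2
    · simp only [hχ]
      rw [← Finset.prod_mul_distrib]
      refine Finset.prod_congr rfl fun j _ => ?_
      rw [sg_beq, sg_beq]
      ring
  have hsum : ∑ s, mean (χ s) = mean (fun η : Fin n → Bool => (∑ i, (1 : ℝ) * sg (η i)) ^ (2 * q)) := by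
    rw [← mean_sum Finset.univ χ]
    congr 1
    funext η
    have h3 := sum_pow_expand (fun p : Fin n × Fin n => sg (η p.1) * sg (η p.2))
        (fun _ => (1 : ℝ)) q
    have h4 : ∑ p : Fin n × Fin n, (sg (η p.1) * sg (η p.2)) • (1 : ℝ)
        = (∑ i, (1 : ℝ) * sg (η i)) ^ 2 := by
      rw [Fintype.sum_prod_type, sq, Finset.sum_mul_sum]
      simp
    rw [h4, ← pow_mul] at h3
    rw [h3]
    refine Finset.sum_congr rfl fun s _ => ?_
    simp [hχ]
  have hk := khintchine q (fun _ : Fin n => (1 : ℝ))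
  calc mean (fun η : Fin n → Bool =>
        ((gramM (∑ k, sg (η k) • C k) (∑ k, sg (η k) • C k)) ^ q).trace)
      = mean (fun η : Fin n → Bool => ∑ s, W s * χ s η) := by
        congr 1
        funext η
        exact hexp η
    _ = ∑ s, W s * mean (χ s) := by
        rw [mean_sum Finset.univ fun s η => W s * χ s η]
        exact Finset.sum_congr rfl fun s _ => mean_mul_left _ _
    _ ≤ ∑ s, (Fintype.card ι * β ^ q) * mean (χ s) := by
        refine Finset.sum_le_sum fun s _ => mul_le_mul_of_nonneg_right ?_ (hχ0 s)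
        exact (le_abs_self _).trans (hWle s)
    _ = (Fintype.card ι * β ^ q)
          * mean (fun η : Fin n → Bool => (∑ i, (1 : ℝ) * sg (η i)) ^ (2 * q)) := by
        rw [← Finset.mul_sum, hsum]
    _ ≤ Fintype.card ι * β ^ q * ((2 * (q : ℝ)) ^ q * (n : ℝ) ^ q) := by
        refine mul_le_mul_of_nonneg_left ?_ (by positivity)
        simpa using hk

end Pool.Agent.Lib.MP_938ce2_ag_h82
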