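import Mathlib
import Pool.Agent.Lib.MP_938ce2_ag_h82.Basic

set_option autoImplicit false
set_option linter.unusedSectionVars false

namespace Pool.Agent.Lib.MP_938ce2_ag_h82

open Finset

variable {ι : Type} [Fintype ι] [DecidableEq ι] {H : Type} [NormedAddCommGroup H]
  [InnerProductSpace ℝ H]

/-- the triangle inequality for `OpLe` -/
theorem OpLe.add {D E : (ι → ℝ) →ₗ[ℝ] H} {a b : ℝ} (ha : 0 ≤ a) (hb : 0 ≤ b)
    (hD : OpLe D (a ^ 2)) (hE : OpLe E (b ^ 2)) : OpLe (D + E) ((a + b) ^ 2) := by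
  intro v
  have hs : 0 ≤ ∑ i, v i ^ 2 := Finset.sum_nonneg fun i _ => sq_nonneg _
  set s := Real.sqrt (∑ i, v i ^ 2) with hsdef
  have hs0 : 0 ≤ s := Real.sqrt_nonneg _
  have hss : s ^ 2 = ∑ i, v i ^ 2 := Real.sq_sqrt hs
  have h1 : ‖D v‖ ≤ a * s := by
    refine abs_le_of_sq_le_sq' ?_ (mul_nonneg ha hs0) |>.2
    rw [mul_pow, hss]
    exact hD v
  have h2 : ‖E v‖ ≤ b * s := by
    refine abs_le_of_sq_le_sq' ?_ (mul_nonneg hb hs0) |>.2
    rw [mul_pow, hss]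
    exact hE v
  have h3 : ‖(D + E) v‖ ≤ (a + b) * s := by
    rw [LinearMap.add_apply]
    refine (norm_add_le _ _).trans ?_
    linarith
  calc ‖(D + E) v‖ ^ 2 ≤ ((a + b) * s) ^ 2 := by
        have := norm_nonneg ((D + E) v)
        gcongr
    _ = (a + b) ^ 2 * ∑ i, v i ^ 2 := by rw [mul_pow, hss]

theorem OpLe.mono {D : (ι → ℝ) →ₗ[ℝ] H} {a b : ℝ} (h : a ≤ b) (hD : OpLe D a) : OpLe D b := by
  intro v
  have hs : 0 ≤ ∑ i, v i ^ 2 := Finset.sum_nonneg fun i _ => sq_nonneg _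
  exact (hD v).trans (mul_le_mul_of_nonneg_right h hs)

theorem OpLe.smul {D : (ι → ℝ) →ₗ[ℝ] H} {a : ℝ} (c : ℝ) (hD : OpLe D a) :
    OpLe (c • D) (c ^ 2 * a) := by
  intro v
  have h := hD v
  rw [LinearMap.smul_apply, norm_smul, mul_pow, Real.norm_eq_abs, sq_abs, mul_assoc]
  exact mul_le_mul_of_nonneg_left h (sq_nonneg c)

end Pool.Agent.Lib.MP_938ce2_ag_h82
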