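import Mathlib
import Pool.Agent.Lib.MP_938ce2_ag_h82.Basic
import Pool.Agent.Lib.MP_938ce2_ag_h82.R06a
import Pool.Agent.Lib.MP_938ce2_ag_h82.R06b
import Pool.Agent.Lib.MP_938ce2_ag_h82.R07
import Pool.Agent.Lib.MP_938ce2_ag_h82.R09a

set_option autoImplicit false

namespace Pool.Agent.Lib.MP_938ce2_ag_h82

open Finset

variable {ι : Type} [Fintype ι] [DecidableEq ι] {H : Type} [NormedAddCommGroup H]
  [InnerProductSpace ℝ H]

omit [Fintype ι] in
private lemma gramM_isSymm (D : (ι → ℝ) →ₗ[ℝ] H) : (gramM D D).IsSymm := by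
  ext i j
  rw [Matrix.transpose_apply, gramM, gramM, real_inner_comm]

/-- signs for which the signed sum of linear maps is small; `mean_trace_le` with `q = 2 ^ (t + 1)`,
`exists_le_mean` and `form_pow_le_trace` -/
theorem exists_signs {n : ℕ} (C : Fin n → (ι → ℝ) →ₗ[ℝ] H) {β : ℝ} (hβ : 0 ≤ β)
    (hC : ∀ k, OpLe (C k) β) (t : ℕ) (ht : (Fintype.card ι : ℝ) ≤ Real.exp (2 ^ (t + 1))) :
    ∃ η : Fin n → Bool, OpLe (∑ k, sg (η k) • C k) (2 * Real.exp 1 * 2 ^ (t + 1) * β * n) := by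
  obtain ⟨η, hη⟩ := exists_le_mean (fun η : Fin n → Bool =>
    ((gramM (∑ k, sg (η k) • C k) (∑ k, sg (η k) • C k)) ^ (2 ^ (t + 1))).trace)
  refine ⟨η, fun v => ?_⟩
  set D : (ι → ℝ) →ₗ[ℝ] H := ∑ k, sg (η k) • C k with hD
  have hq : ((2 ^ (t + 1) : ℕ) : ℝ) = 2 ^ (t + 1) := by push_cast; rfl
  have h1 := hη.trans (mean_trace_le C hβ hC (2 ^ (t + 1)))
  have h2 : Fintype.card ι * β ^ (2 ^ (t + 1)) *
      ((2 * (((2 ^ (t + 1) : ℕ) : ℝ))) ^ (2 ^ (t + 1)) * (n : ℝ) ^ (2 ^ (t + 1)))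
      ≤ (2 * Real.exp 1 * 2 ^ (t + 1) * β * n) ^ (2 ^ (t + 1)) := by
    have h3 : Real.exp (2 ^ (t + 1)) = Real.exp 1 ^ (2 ^ (t + 1)) := by
      rw [← Real.exp_nat_mul, mul_one, hq]
    rw [h3] at ht
    calc Fintype.card ι * β ^ (2 ^ (t + 1)) *
        ((2 * (((2 ^ (t + 1) : ℕ) : ℝ))) ^ (2 ^ (t + 1)) * (n : ℝ) ^ (2 ^ (t + 1)))
        ≤ Real.exp 1 ^ (2 ^ (t + 1)) * β ^ (2 ^ (t + 1)) *
        ((2 * (((2 ^ (t + 1) : ℕ) : ℝ))) ^ (2 ^ (t + 1)) * (n : ℝ) ^ (2 ^ (t + 1))) := by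
          gcongr
      _ = _ := by
          rw [hq, ← mul_pow, ← mul_pow, ← mul_pow]
          congr 1
          ring
  have h3 : ‖D v‖ ^ 2 = ∑ i, v i * ((gramM D D).mulVec v) i := by
    rw [gramM_form, real_inner_self_eq_norm_sq]
  have h4 := form_pow_le_trace (gramM D D) (gramM_isSymm D) t v (by rw [← h3]; positivity)
  rw [← h3] at h4
  have hV : 0 ≤ ∑ i, v i ^ 2 := Finset.sum_nonneg fun i _ => sq_nonneg _
  have h5 : (‖D v‖ ^ 2) ^ (2 ^ (t + 1)) ≤
      (2 * Real.exp 1 * 2 ^ (t + 1) * β * n * ∑ i, v i ^ 2) ^ (2 ^ (t + 1)) := by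
    calc (‖D v‖ ^ 2) ^ (2 ^ (t + 1)) ≤ _ := h4
      _ ≤ (∑ i, v i ^ 2) ^ (2 ^ (t + 1)) *
          (2 * Real.exp 1 * 2 ^ (t + 1) * β * n) ^ (2 ^ (t + 1)) :=
          mul_le_mul_of_nonneg_left (h1.trans h2) (pow_nonneg hV _)
      _ = _ := by rw [← mul_pow, mul_comm]
  exact le_of_pow_le_pow_left₀ (by positivity) (by positivity) h5

private lemma sum_sub_two {M ι' : Type*} [Fintype ι'] [DecidableEq ι'] [AddCommGroup M] [Module ℝ M]
    (C : ι' → M) (η : ι' → Bool) :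
    (∑ k, C k - (2 : ℝ) • ∑ k with η k = false, C k = ∑ k, sg (η k) • C k) ∧
    (∑ k, C k - (2 : ℝ) • ∑ k with η k = true, C k = (-1 : ℝ) • ∑ k, sg (η k) • C k) := by
  rw [Finset.sum_filter, Finset.sum_filter, Finset.smul_sum, Finset.smul_sum, Finset.smul_sum,
    ← Finset.sum_sub_distrib, ← Finset.sum_sub_distrib]
  constructor
  · refine Finset.sum_congr rfl fun k _ => ?_
    cases η k
    · simp [sg, two_smul]
    · simp [sg]
  · refine Finset.sum_congr rfl fun k _ => ?_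
    cases η k
    · simp [sg]
    · simp [sg, two_smul]

omit [Fintype ι] [DecidableEq ι] in
/-- a set of at most `m` positions of a word is a word of length `m` -/
private lemma exists_word {X : Type} (B : X → (ι → ℝ) →ₗ[ℝ] H) {n m : ℕ} (w : Fin n → Option X)
    (S : Finset (Fin n)) (hS : S.card ≤ m) :
    ∃ w' : Fin m → Option X, opW B w' = ∑ k ∈ S, (w k).elim 0 B := by
  classical
  have hc : Fintype.card S ≤ Fintype.card (Fin m) := by
    rw [Fintype.card_coe, Fintype.card_fin]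
    exact hS
  obtain ⟨f⟩ := Function.Embedding.nonempty_of_card_le hc
  refine ⟨fun j => if h : ∃ k : S, f k = j then w h.choose.1 else none, ?_⟩
  rw [← Finset.sum_coe_sort S, opW]
  symm
  refine Fintype.sum_of_injective f f.injective _ _ (fun j hj => ?_) (fun k => ?_)
  · rw [dif_neg]
    · rfl
    · rintro ⟨k, hk⟩
      exact hj ⟨k, hk⟩
  · have h : ∃ k' : S, f k' = f k := ⟨k, rfl⟩
    have h1 : h.choose = k := f.injective h.choose_spec
    rw [dif_pos h, h1]

/-- halving of a word: keep the smaller one of the two sign classes -/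
theorem halving {X : Type} (B : X → (ι → ℝ) →ₗ[ℝ] H) {β : ℝ} (hβ : 0 ≤ β)
    (hB : ∀ x, OpLe (B x) β) (t : ℕ) (ht : (Fintype.card ι : ℝ) ≤ Real.exp (2 ^ (t + 1)))
    {n : ℕ} (w : Fin n → Option X) :
    ∃ w' : Fin (n / 2) → Option X,
      OpLe (opW B w - (2 : ℝ) • opW B w') (2 * Real.exp 1 * 2 ^ (t + 1) * β * n) := by
  obtain ⟨η, hη⟩ := exists_signs (fun k => (w k).elim 0 B) hβ (fun k => by
    cases w k with
    | none =>
      intro v
      have : 0 ≤ ∑ i, v i ^ 2 := Finset.sum_nonneg fun i _ => sq_nonneg _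
      change ‖(0 : (ι → ℝ) →ₗ[ℝ] H) v‖ ^ 2 ≤ _
      rw [LinearMap.zero_apply, norm_zero, zero_pow two_ne_zero]
      positivity
    | some x => exact hB x) t ht
  obtain ⟨h1, h2⟩ := sum_sub_two (fun k => (w k).elim 0 B) η
  have hcard : (univ.filter fun k => η k = false).card
      + (univ.filter fun k => η k = true).card = n := by
    have h3 := Finset.card_filter_add_card_filter_not (s := (univ : Finset (Fin n)))
      (fun k => η k = false)
    rw [Finset.card_univ, Fintype.card_fin] at h3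
    have h4 : (univ.filter fun k => ¬ η k = false) = univ.filter fun k => η k = true := by
      ext k
      simp
    rw [h4] at h3
    exact h3
  rcases Nat.lt_or_ge (n / 2) (univ.filter fun k => η k = false).card with h | h
  · obtain ⟨w', hw'⟩ := exists_word B w (univ.filter fun k => η k = true) (m := n / 2) (by omega)
    refine ⟨w', ?_⟩
    rw [hw', opW, h2]
    have h3 := hη.smul (-1 : ℝ)
    refine h3.mono (le_of_eq ?_)
    ring
  · obtain ⟨w', hw'⟩ := exists_word B w (univ.filter fun k => η k = false) (m := n / 2) h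
    refine ⟨w', ?_⟩
    rw [hw', opW, h1]
    exact hη

end Pool.Agent.Lib.MP_938ce2_ag_h82
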