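import Mathlib
import Pool.Agent.Lib.MP_938ce2_ag_h82.Basic
import Pool.Agent.Lib.MP_938ce2_ag_h82.R09a

set_option autoImplicit false

namespace Pool.Agent.Lib.MP_938ce2_ag_h82

open Finset

variable {ι : Type} [Fintype ι] [DecidableEq ι] {H : Type} [NormedAddCommGroup H]
  [InnerProductSpace ℝ H]

omit [Fintype ι] [DecidableEq ι] in
private lemma opW_cast {X : Type} (B : X → (ι → ℝ) →ₗ[ℝ] H) {n n' : ℕ} (h : n' = n)
    (w : Fin n → Option X) : opW B (fun k => w (Fin.cast h k)) = opW B w := by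
  subst h
  rfl

/-- iterated halving: words of length `N / 2 ^ K` which describe a tuple of length `N` up to an error
`(5 / 2) * √(A * N * 2 ^ K)` in norm. The hypothesis `hhalf` is the theorem `halving`. The error of
level `K + 1` is at most `(5 / 2) √(A N 2 ^ K) + 2 ^ K √(A (N / 2 ^ K)) ≤ (7 / 2) √(A N 2 ^ K)`. -/
theorem patterns {X : Type} (B : X → (ι → ℝ) →ₗ[ℝ] H) {A : ℝ} (hA : 0 ≤ A)
    (hhalf : ∀ (n : ℕ) (w : Fin n → Option X), ∃ w' : Fin (n / 2) → Option X,
      OpLe (opW B w - (2 : ℝ) • opW B w') (A * n)) (N : ℕ) :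
    ∃ pat : (K : ℕ) → (Fin N → X) → (Fin (N / 2 ^ K) → Option X), ∀ K τ,
      OpLe (opT B τ - (2 ^ K : ℝ) • opW B (pat K τ)) (25 / 4 * A * N * 2 ^ K) := by
  have key : ∀ K : ℕ, ∀ τ : Fin N → X, ∃ w : Fin (N / 2 ^ K) → Option X,
      OpLe (opT B τ - (2 ^ K : ℝ) • opW B w) (25 / 4 * A * N * 2 ^ K) := by
    intro K τ
    induction K with
    | zero =>
      have h : N / 2 ^ 0 = N := by rw [pow_zero, Nat.div_one]
      refine ⟨fun k => some (τ (Fin.cast h k)), ?_⟩
      have h1 : opW B (fun k => some (τ (Fin.cast h k))) = opT B τ := by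
        rw [opW_cast B h (fun k => some (τ k))]
        rfl
      rw [h1, pow_zero, one_smul, sub_self]
      intro v
      rw [LinearMap.zero_apply, norm_zero, zero_pow two_ne_zero]
      have : 0 ≤ ∑ i, v i ^ 2 := Finset.sum_nonneg fun i _ => sq_nonneg _
      positivity
    | succ K ih =>
      obtain ⟨w, hw⟩ := ih
      obtain ⟨w', hw'⟩ := hhalf _ w
      have h : N / 2 ^ (K + 1) = N / 2 ^ K / 2 := by rw [pow_succ, Nat.div_div_eq_div_mul]
      refine ⟨fun k => w' (Fin.cast h k), ?_⟩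
      rw [opW_cast B h w']
      have hc : 0 ≤ A * N * 2 ^ K := by positivity
      have h1 : OpLe (opT B τ - (2 ^ K : ℝ) • opW B w) ((5 / 2 * √(A * N * 2 ^ K)) ^ 2) := by
        refine hw.mono (le_of_eq ?_)
        rw [mul_pow, Real.sq_sqrt hc]
        ring
      have h2 : OpLe ((2 ^ K : ℝ) • (opW B w - (2 : ℝ) • opW B w')) ((√(A * N * 2 ^ K)) ^ 2) := by
        refine (hw'.smul (2 ^ K : ℝ)).mono ?_
        rw [Real.sq_sqrt hc]
        have h3 : (((N / 2 ^ K : ℕ) : ℝ)) * 2 ^ K ≤ N := by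
          have h4 := Nat.div_mul_le_self N (2 ^ K)
          have h5 : (((N / 2 ^ K * 2 ^ K : ℕ)) : ℝ) ≤ N := by exact_mod_cast h4
          push_cast at h5
          exact h5
        calc (2 ^ K : ℝ) ^ 2 * (A * ((N / 2 ^ K : ℕ) : ℝ))
            = A * 2 ^ K * (((N / 2 ^ K : ℕ) : ℝ) * 2 ^ K) := by ring
          _ ≤ A * 2 ^ K * N := mul_le_mul_of_nonneg_left h3 (by positivity)
          _ = A * N * 2 ^ K := by ring
      have h3 := OpLe.add (by positivity) (Real.sqrt_nonneg _) h1 h2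
      have h4 : opT B τ - (2 ^ K : ℝ) • opW B w + (2 ^ K : ℝ) • (opW B w - (2 : ℝ) • opW B w')
          = opT B τ - (2 ^ (K + 1) : ℝ) • opW B w' := by
        rw [smul_sub, smul_smul, pow_succ]
        abel
      rw [h4] at h3
      refine h3.mono ?_
      have h5 : (5 / 2 * √(A * N * 2 ^ K) + √(A * N * 2 ^ K)) ^ 2 = 49 / 4 * (A * N * 2 ^ K) := by
        calc _ = 49 / 4 * (√(A * N * 2 ^ K)) ^ 2 := by ring
          _ = _ := by rw [Real.sq_sqrt hc]
      rw [h5, pow_succ]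
      linarith
  choose pat hpat using key
  exact ⟨pat, hpat⟩

end Pool.Agent.Lib.MP_938ce2_ag_h82
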