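import Mathlib
import Pool.Agent.Lib.MP_938ce2_ag_h82.Basic
import Pool.Agent.Lib.MP_938ce2_ag_h82.R09a

set_option autoImplicit false

namespace Pool.Agent.Lib.MP_938ce2_ag_h82

open Finset

variable {ι : Type} [Fintype ι] [DecidableEq ι] {H : Type} [NormedAddCommGroup H]
  [InnerProductSpace ℝ H]

private lemma sub_le_of_pattern {D E W : (ι → ℝ) →ₗ[ℝ] H} {a : ℝ} (ha : 0 ≤ a)
    (hD : OpLe (D - W) (a ^ 2)) (hE : OpLe (E - W) (a ^ 2)) : OpLe (D - E) ((a + a) ^ 2) := by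
  have h1 : OpLe ((-1 : ℝ) • (E - W)) (a ^ 2) := by
    have h2 := hE.smul (-1 : ℝ)
    refine h2.mono (le_of_eq ?_)
    ring
  have h3 := OpLe.add ha ha hD h1
  have h4 : D - W + (-1 : ℝ) • (E - W) = D - E := by
    rw [neg_one_smul]
    abel
  rwa [h4] at h3

/-- representatives of the tuples of a set with the same pattern -/
theorem reps {X : Type} [Fintype X] [DecidableEq X] (B : X → (ι → ℝ) →ₗ[ℝ] H) {A : ℝ} (hA : 0 ≤ A) {N : ℕ}
    (pat : (K : ℕ) → (Fin N → X) → (Fin (N / 2 ^ K) → Option X))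
    (hpat : ∀ K τ, OpLe (opT B τ - (2 ^ K : ℝ) • opW B (pat K τ)) (25 / 4 * A * N * 2 ^ K))
    (T : Finset (Fin N → X)) (L : ℕ) (hL : N < 2 ^ L) (hL0 : L ≠ 0) :
    ∃ π : ℕ → (Fin N → X) → (Fin N → X),
      (∀ τ ∈ T, π 0 τ = τ) ∧ (∀ k, ∀ τ ∈ T, π k τ ∈ T) ∧
      (∀ τ ∈ T, ∀ τ' ∈ T, π L τ = π L τ') ∧
      (∀ k, (T.image fun τ => (π k τ, π (k + 1) τ)).card
        ≤ (Fintype.card X + 1) ^ (N / 2 ^ k + N / 2 ^ (k + 1))) ∧
      ∀ k, ∀ τ ∈ T, OpLe (opT B (π k τ) - opT B (π (k + 1) τ)) (81 * A * N * 2 ^ (k + 1)) := by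
  classical
  rcases T.eq_empty_or_nonempty with rfl | ⟨τ₀, hτ₀⟩
  · exact ⟨fun _ τ => τ, by simp, by simp, by simp, by simp, by simp⟩
  -- representatives of the patterns
  have hr : ∀ k : ℕ, ∃ r : (Fin (N / 2 ^ k) → Option X) → (Fin N → X), ∀ τ ∈ T,
      r (pat k τ) ∈ T ∧ pat k (r (pat k τ)) = pat k τ := by
    intro k
    refine ⟨fun p => if h : ∃ τ' ∈ T, pat k τ' = p then h.choose else τ₀, fun τ hτ => ?_⟩
    have h : ∃ τ' ∈ T, pat k τ' = pat k τ := ⟨τ, hτ, rfl⟩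
    simp only [dif_pos h]
    exact h.choose_spec
  choose r hr using hr
  set π : ℕ → (Fin N → X) → (Fin N → X) := fun k τ => if k = 0 then τ else r k (pat k τ) with hπ
  have hπ0 : ∀ τ, π 0 τ = τ := fun τ => by rw [hπ]; simp
  have hπs : ∀ k, k ≠ 0 → ∀ τ, π k τ = r k (pat k τ) := fun k hk τ => by rw [hπ]; simp [hk]
  have hT : ∀ k, ∀ τ ∈ T, π k τ ∈ T := by
    intro k τ hτ
    by_cases hk : k = 0
    · subst hk
      rw [hπ0]
      exact hτ
    · rw [hπs k hk]
      exact (hr k τ hτ).1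
  have hp : ∀ k, ∀ τ ∈ T, pat k (π k τ) = pat k τ := by
    intro k τ hτ
    by_cases hk : k = 0
    · subst hk
      rw [hπ0]
    · rw [hπs k hk]
      exact (hr k τ hτ).2
  refine ⟨π, fun τ _ => hπ0 τ, hT, ?_, ?_, ?_⟩
  · intro τ _ τ' _
    rw [hπs L hL0, hπs L hL0]
    have h0 : N / 2 ^ L = 0 := Nat.div_eq_of_lt hL
    congr 1
    ext k
    exact absurd k.2 (by omega)
  · intro k
    by_cases hk : k = 0
    · subst hk
      calc (T.image fun τ => (π 0 τ, π (0 + 1) τ)).card ≤ T.card := Finset.card_image_le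
        _ ≤ Fintype.card (Fin N → X) := Finset.card_le_univ T
        _ = Fintype.card X ^ N := by rw [Fintype.card_fun, Fintype.card_fin]
        _ ≤ (Fintype.card X + 1) ^ N := Nat.pow_le_pow_left (Nat.le_succ _) _
        _ ≤ _ := by
          refine Nat.pow_le_pow_right (Nat.succ_pos _) ?_
          rw [pow_zero, Nat.div_one]
          exact Nat.le_add_right _ _
    · have hsub : (T.image fun τ => (π k τ, π (k + 1) τ)) ⊆
          (Finset.univ : Finset ((Fin (N / 2 ^ k) → Option X) ×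
            (Fin (N / 2 ^ (k + 1)) → Option X))).image fun p => (r k p.1, r (k + 1) p.2) := by
        intro x hx
        obtain ⟨τ, _, rfl⟩ := Finset.mem_image.1 hx
        refine Finset.mem_image.2 ⟨(pat k τ, pat (k + 1) τ), Finset.mem_univ _, ?_⟩
        simp only [hπs k hk, hπs (k + 1) (Nat.succ_ne_zero k)]
      calc (T.image fun τ => (π k τ, π (k + 1) τ)).card ≤ _ := Finset.card_le_card hsub
        _ ≤ (Finset.univ : Finset ((Fin (N / 2 ^ k) → Option X) ×
            (Fin (N / 2 ^ (k + 1)) → Option X))).card := Finset.card_image_le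
        _ = _ := by
          rw [Finset.card_univ, Fintype.card_prod, Fintype.card_fun, Fintype.card_fun,
            Fintype.card_option, Fintype.card_fin, Fintype.card_fin,
            pow_add (Fintype.card X + 1)]
  · intro k τ hτ
    have hc : ∀ K : ℕ, 0 ≤ A * N * 2 ^ K := fun K => by positivity
    have hlev : ∀ K : ℕ, OpLe (opT B (π K τ) - opT B τ)
        ((5 / 2 * √(A * N * 2 ^ K) + 5 / 2 * √(A * N * 2 ^ K)) ^ 2) := by
      intro K
      have e : (5 / 2 * √(A * N * 2 ^ K)) ^ 2 = 25 / 4 * A * N * 2 ^ K := by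
        rw [mul_pow, Real.sq_sqrt (hc K)]
        ring
      have h1 := hpat K (π K τ)
      rw [hp K τ hτ, ← e] at h1
      have h2 := hpat K τ
      rw [← e] at h2
      exact sub_le_of_pattern (by positivity) h1 h2
    have h1 := hlev k
    have h2 : OpLe ((-1 : ℝ) • (opT B (π (k + 1) τ) - opT B τ))
        ((5 / 2 * √(A * N * 2 ^ (k + 1)) + 5 / 2 * √(A * N * 2 ^ (k + 1))) ^ 2) := by
      refine ((hlev (k + 1)).smul (-1 : ℝ)).mono (le_of_eq ?_)
      ring
    have h3 := OpLe.add (by positivity) (by positivity) h1 h2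
    have h4 : opT B (π k τ) - opT B τ + (-1 : ℝ) • (opT B (π (k + 1) τ) - opT B τ)
        = opT B (π k τ) - opT B (π (k + 1) τ) := by
      rw [neg_one_smul]
      abel
    rw [h4] at h3
    refine h3.mono ?_
    have h5 : √(A * N * 2 ^ (k + 1)) = √2 * √(A * N * 2 ^ k) := by
      rw [← Real.sqrt_mul (by norm_num)]
      congr 1
      rw [pow_succ]
      ring
    rw [h5]
    have h6 : (5 / 2 * √(A * N * 2 ^ k) + 5 / 2 * √(A * N * 2 ^ k)
        + (5 / 2 * (√2 * √(A * N * 2 ^ k)) + 5 / 2 * (√2 * √(A * N * 2 ^ k)))) ^ 2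
        = 25 * (1 + √2) ^ 2 * (√(A * N * 2 ^ k)) ^ 2 := by ring
    rw [h6, Real.sq_sqrt (hc k)]
    have h7 : (1 + √2) ^ 2 ≤ 162 / 25 := by
      have h8 : √2 ≤ 3 / 2 := by
        rw [Real.sqrt_le_left (by norm_num)]
        norm_num
      have h9 : √2 ^ 2 = 2 := Real.sq_sqrt (by norm_num)
      nlinarith
    calc 25 * (1 + √2) ^ 2 * (A * N * 2 ^ k) ≤ 25 * (162 / 25) * (A * N * 2 ^ k) := by
          gcongr
      _ = _ := by rw [pow_succ]; ring

end Pool.Agent.Lib.MP_938ce2_ag_h82
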