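import Mathlib
import Pool.Agent.Lib.MP_938ce2_ag_h82.Basic

/-!
The normalised suprema over a finite set of tuples.
-/

set_option autoImplicit false
set_option linter.unusedSectionVars false

namespace Pool.Agent.Lib.MP_938ce2_ag_h82

variable {ι : Type} [Fintype ι] [DecidableEq ι] {X : Type} {H : Type} [NormedAddCommGroup H]
  [InnerProductSpace ℝ H] {N : ℕ}

/-- the supremum of the bilinear forms -/
noncomputable def RR (B : X → (ι → ℝ) →ₗ[ℝ] H) (T : Finset (Fin N → X)) (hT : T.Nonempty) (m : ℝ)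
    (v v' : ι → ℝ) : ℝ :=
  T.sup' hT (fun τ => |inner ℝ (opT B τ v) (opT B τ v')|) / m

/-- the supremum of the quadratic forms -/
noncomputable def SS (B : X → (ι → ℝ) →ₗ[ℝ] H) (T : Finset (Fin N → X)) (hT : T.Nonempty) (m : ℝ)
    (v : ι → ℝ) : ℝ :=
  T.sup' hT (fun τ => ‖opT B τ v‖ ^ 2) / m

variable {B : X → (ι → ℝ) →ₗ[ℝ] H} {T : Finset (Fin N → X)} {hT : T.Nonempty} {m : ℝ}

lemma RR_nonneg (hm : 0 < m) (v v' : ι → ℝ) : 0 ≤ RR B T hT m v v' := by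
  unfold RR
  obtain ⟨τ, hτ⟩ := hT
  refine div_nonneg ?_ hm.le
  exact (abs_nonneg _).trans
    (Finset.le_sup' (fun τ => |inner ℝ (opT B τ v) (opT B τ v')|) hτ)

lemma SS_nonneg (hm : 0 < m) (v : ι → ℝ) : 0 ≤ SS B T hT m v := by
  unfold SS
  obtain ⟨τ, hτ⟩ := hT
  refine div_nonneg ?_ hm.le
  exact (sq_nonneg _).trans (Finset.le_sup' (fun τ => ‖opT B τ v‖ ^ 2) hτ)

lemma le_RR (hm : 0 < m) {τ : Fin N → X} (hτ : τ ∈ T) (v v' : ι → ℝ) :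
    |inner ℝ (opT B τ v) (opT B τ v')| ≤ m * RR B T hT m v v' := by
  unfold RR
  rw [mul_div_cancel₀ _ hm.ne']
  exact Finset.le_sup' (fun τ => |inner ℝ (opT B τ v) (opT B τ v')|) hτ

lemma le_SS (hm : 0 < m) {τ : Fin N → X} (hτ : τ ∈ T) (v : ι → ℝ) :
    ‖opT B τ v‖ ^ 2 ≤ m * SS B T hT m v := by
  unfold SS
  rw [mul_div_cancel₀ _ hm.ne']
  exact Finset.le_sup' (fun τ => ‖opT B τ v‖ ^ 2) hτ

lemma exists_RR (hm : 0 < m) (v v' : ι → ℝ) :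
    ∃ τ ∈ T, m * RR B T hT m v v' = |inner ℝ (opT B τ v) (opT B τ v')| := by
  obtain ⟨τ, hτ, h⟩ := Finset.exists_mem_eq_sup' hT
    (fun τ => |inner ℝ (opT B τ v) (opT B τ v')|)
  refine ⟨τ, hτ, ?_⟩
  unfold RR
  rw [mul_div_cancel₀ _ hm.ne', h]

lemma exists_SS (hm : 0 < m) (v : ι → ℝ) :
    ∃ τ ∈ T, m * SS B T hT m v = ‖opT B τ v‖ ^ 2 := by
  obtain ⟨τ, hτ, h⟩ := Finset.exists_mem_eq_sup' hT (fun τ => ‖opT B τ v‖ ^ 2)
  refine ⟨τ, hτ, ?_⟩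
  unfold SS
  rw [mul_div_cancel₀ _ hm.ne', h]

end Pool.Agent.Lib.MP_938ce2_ag_h82
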