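import Mathlib
import Pool.Agent.Lib.MP_938ce2_ag_h82.Basic

set_option autoImplicit false

namespace Pool.Agent.Lib.MP_938ce2_ag_h82

open Finset

variable {ι : Type} [Fintype ι] [DecidableEq ι]

private lemma sg_not' (b : Bool) : sg (!b) = -sg b := by
  cases b <;> simp [sg]

private lemma sg_sq' (b : Bool) : sg b * sg b = 1 := by
  cases b <;> simp [sg]

private def flip (i : ι) (b : ι → Bool) : ι → Bool := fun k => if k = i then !b k else b k

omit [Fintype ι] in
private lemma flip_flip (i : ι) (b : ι → Bool) : flip i (flip i b) = b := by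
  funext k
  unfold flip
  by_cases h : k = i <;> simp [h]

private lemma mean_flip (i : ι) (F : (ι → Bool) → ℝ) (h : ∀ b, F (flip i b) = -F b) :
    mean F = 0 := by
  unfold mean
  have h1 : ∑ b, F b = ∑ b, F (flip i b) :=
    (Equiv.sum_comp (⟨flip i, flip i, flip_flip i, flip_flip i⟩ : (ι → Bool) ≃ (ι → Bool)) F).symm
  have h2 : ∑ b, F (flip i b) = -∑ b, F b := by
    rw [← Finset.sum_neg_distrib]
    exact Finset.sum_congr rfl fun b _ => h b
  have h3 : ∑ b, F b = 0 := by linarith
  rw [h3, zero_div]

/-- the signs are orthonormal -/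
theorem mean_sg_mul_sg (i j : ι) :
    mean (fun b : ι → Bool => sg (b i) * sg (b j)) = if i = j then 1 else 0 := by
  by_cases h : i = j
  · subst h
    rw [if_pos rfl]
    unfold mean
    rw [Finset.sum_congr rfl fun b _ => sg_sq' (b i), Finset.sum_const, Finset.card_univ,
      nsmul_eq_mul, mul_one, div_self]
    exact_mod_cast Fintype.card_ne_zero
  · rw [if_neg h]
    apply mean_flip i
    intro b
    have h1 : flip i b i = !b i := by simp [flip]
    have h2 : flip i b j = b j := by simp [flip, Ne.symm h]
    rw [h1, h2, sg_not', neg_mul]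

theorem mean_sg (i : ι) : mean (fun b : ι → Bool => sg (b i)) = 0 := by
  apply mean_flip i
  intro b
  have h1 : flip i b i = !b i := by simp [flip]
  rw [h1, sg_not']

variable {H : Type} [NormedAddCommGroup H] [InnerProductSpace ℝ H]

private lemma map_expand (D : (ι → ℝ) →ₗ[ℝ] H) (v : ι → ℝ) :
    D v = ∑ i, v i • D (Pi.single i 1) := by
  have h : v = ∑ i, v i • (Pi.single i (1 : ℝ) : ι → ℝ) := by
    funext k
    simp [Finset.sum_apply, Pi.single_apply]
  conv_lhs => rw [h]
  rw [map_sum]
  exact Finset.sum_congr rfl fun i _ => map_smul _ _ _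

private lemma inner_expand (D : (ι → ℝ) →ₗ[ℝ] H) (v w : ι → ℝ) :
    inner ℝ (D v) (D w) = ∑ i, ∑ j, v i * w j * inner ℝ (D (Pi.single i 1)) (D (Pi.single j 1)) := by
  rw [map_expand D v, map_expand D w, sum_inner]
  refine Finset.sum_congr rfl fun i _ => ?_
  rw [inner_sum]
  refine Finset.sum_congr rfl fun j _ => ?_
  rw [inner_smul_left, inner_smul_right]
  simp only [conj_trivial]
  ring

private lemma mean_sum' {Ω κ : Type*} [Fintype Ω] (s : Finset κ) (F : κ → Ω → ℝ) :
    mean (fun ω => ∑ k ∈ s, F k ω) = ∑ k ∈ s, mean (F k) := by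
  unfold mean
  rw [Finset.sum_comm, Finset.sum_div]

private lemma mean_mul'' {Ω : Type*} [Fintype Ω] (c : ℝ) (F : Ω → ℝ) :
    mean (fun ω => c * F ω) = c * mean F := by
  unfold mean
  rw [← Finset.mul_sum, mul_div_assoc]

private lemma mean_split (i j : ι) :
    mean (fun b : ι → Bool => (if b i then (1 : ℝ) else 0) * (if b j then 0 else 1)) =
      (if i = j then 0 else 1) / 4 := by
  have h : (fun b : ι → Bool => (if b i then (1 : ℝ) else 0) * (if b j then 0 else 1)) =
      fun b => 1 / 4 * ((1 + sg (b i)) - (sg (b j) + sg (b i) * sg (b j))) := by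
    funext b
    cases b i <;> cases b j <;> (simp [sg]; try norm_num)
  rw [h, mean_mul'']
  have h2 : mean (fun b : ι → Bool => (1 + sg (b i)) - (sg (b j) + sg (b i) * sg (b j))) =
      1 + mean (fun b : ι → Bool => sg (b i)) - (mean (fun b : ι → Bool => sg (b j)) +
        mean (fun b : ι → Bool => sg (b i) * sg (b j))) := by
    unfold mean
    rw [Finset.sum_sub_distrib, Finset.sum_add_distrib, Finset.sum_add_distrib]
    have : (∑ _b : ι → Bool, (1 : ℝ)) = Fintype.card (ι → Bool) := by simp
    rw [this, sub_div, add_div, add_div, div_self]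
    exact_mod_cast Fintype.card_ne_zero
  rw [h2, mean_sg, mean_sg, mean_sg_mul_sg]
  split_ifs <;> ring

/-- the decoupling identity: diagonal part plus four times the mean over random splittings -/
theorem decouple (D : (ι → ℝ) →ₗ[ℝ] H) (v : ι → ℝ) :
    ‖D v‖ ^ 2 = ∑ i, v i ^ 2 * ‖D (Pi.single i 1)‖ ^ 2
      + 4 * mean (fun b : ι → Bool => inner ℝ (D (fun i => if b i then v i else 0))
          (D (fun i => if b i then 0 else v i))) := by
  have h1 : mean (fun b : ι → Bool => inner ℝ (D (fun i => if b i then v i else 0))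
          (D (fun i => if b i then 0 else v i))) = ∑ i, ∑ j, v i * v j *
        inner ℝ (D (Pi.single i 1)) (D (Pi.single j 1)) * ((if i = j then 0 else 1) / 4) := by
    have h2 : (fun b : ι → Bool => inner ℝ (D (fun i => if b i then v i else 0))
          (D (fun i => if b i then 0 else v i))) = fun b => ∑ i, ∑ j, v i * v j *
        inner ℝ (D (Pi.single i 1)) (D (Pi.single j 1)) *
          ((if b i then (1 : ℝ) else 0) * (if b j then 0 else 1)) := by
      funext b
      rw [inner_expand]
      refine Finset.sum_congr rfl fun i _ => Finset.sum_congr rfl fun j _ => ?_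
      cases b i <;> cases b j <;> simp
    rw [h2, mean_sum']
    refine Finset.sum_congr rfl fun i _ => ?_
    rw [mean_sum']
    refine Finset.sum_congr rfl fun j _ => ?_
    rw [mean_mul'', mean_split]
  rw [h1, ← real_inner_self_eq_norm_sq, inner_expand, Finset.mul_sum, ← Finset.sum_add_distrib]
  refine Finset.sum_congr rfl fun i _ => ?_
  rw [Finset.mul_sum]
  have h3 : v i ^ 2 * ‖D (Pi.single i 1)‖ ^ 2 = ∑ j, (if i = j then v i * v j *
      inner ℝ (D (Pi.single i 1)) (D (Pi.single j 1)) else 0) := by
    rw [Finset.sum_ite_eq, if_pos (Finset.mem_univ _), real_inner_self_eq_norm_sq]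
    ring
  rw [h3, ← Finset.sum_add_distrib]
  refine Finset.sum_congr rfl fun j _ => ?_
  split_ifs <;> ring

end Pool.Agent.Lib.MP_938ce2_ag_h82
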