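import Mathlib
import Pool.Agent.Lib.MP_938ce2_ag_h82.Basic

set_option autoImplicit false

namespace Pool.Agent.Lib.MP_938ce2_ag_h82

open Finset

variable {ι : Type} [Fintype ι] [DecidableEq ι]

/-- disjoint sets of coordinates are independent. Proof: `(b, b')` and the pair in which the
coordinates outside `Z` of `b` are exchanged with those of `b'` are in bijection. -/
theorem mean_swap (Z Z' : Finset ι) (hZ : Disjoint Z Z') (F : (ι → ℝ) → (ι → ℝ) → ℝ) :
    mean (fun b : ι → Bool => F (rs Z b) (rs Z' b))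
      = mean (fun b : ι → Bool => mean (fun b' : ι → Bool => F (rs Z b) (rs Z' b'))) := by
  classical
  let sw : (ι → Bool) × (ι → Bool) → (ι → Bool) × (ι → Bool) := fun p =>
    (fun i => if i ∈ Z then p.1 i else p.2 i, fun i => if i ∈ Z then p.2 i else p.1 i)
  have hsw : Function.Involutive sw := by
    intro p
    refine Prod.ext ?_ ?_
    · funext i
      by_cases hi : i ∈ Z <;> simp [sw, hi]
    · funext i
      by_cases hi : i ∈ Z <;> simp [sw, hi]
  let e : (ι → Bool) × (ι → Bool) ≃ (ι → Bool) × (ι → Bool) := hsw.toPerm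
  have h1 : ∀ p : (ι → Bool) × (ι → Bool), rs Z (e p).1 = rs Z p.1 := by
    intro p
    funext i
    by_cases hi : i ∈ Z
    · simp [rs, e, sw, hi]
    · simp [rs, hi]
  have h2 : ∀ p : (ι → Bool) × (ι → Bool), rs Z' (e p).1 = rs Z' p.2 := by
    intro p
    funext i
    by_cases hi : i ∈ Z'
    · have hiZ : i ∉ Z := fun h => (Finset.disjoint_left.1 hZ) h hi
      simp [rs, e, sw, hi, hiZ]
    · simp [rs, hi]
  have h3 := mean_prod (fun p : (ι → Bool) × (ι → Bool) => F (rs Z p.1) (rs Z' p.2))
  have h4 := mean_prod (fun p : (ι → Bool) × (ι → Bool) => F (rs Z p.1) (rs Z' p.1))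
  have h5 := mean_equiv e (fun p : (ι → Bool) × (ι → Bool) => F (rs Z p.1) (rs Z' p.1))
  have h6 : mean (fun p : (ι → Bool) × (ι → Bool) => F (rs Z (e p).1) (rs Z' (e p).1))
      = mean (fun p : (ι → Bool) × (ι → Bool) => F (rs Z p.1) (rs Z' p.2)) := by
    congr 1
    funext p
    rw [h1, h2]
  rw [← h3, ← h6, h5, h4]
  simp only [mean_const]

end Pool.Agent.Lib.MP_938ce2_ag_h82
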