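import Mathlib
import Pool.Agent.Lib.MP_938ce2_ag_h82.Basic

set_option autoImplicit false

namespace Pool.Agent.Lib.MP_938ce2_ag_h82

open Finset

variable {Ω : Type*} [Fintype Ω] [Nonempty Ω]

/-- comparison of moments -/
theorem power_mean {P r : ℕ} (hP : 1 ≤ P) (hr : P ≤ r) (Y : Ω → ℝ) (hY : ∀ ω, 0 ≤ Y ω) (C : ℝ)
    (hC : 0 ≤ C) (h : mean (fun ω => Y ω ^ r) ≤ C ^ r) : mean (fun ω => Y ω ^ P) ≤ C ^ P := by
  have hcard : (0 : ℝ) < Fintype.card Ω := by exact_mod_cast Fintype.card_pos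
  have hPr : (0 : ℝ) < P := by exact_mod_cast hP
  have hrr : (0 : ℝ) < r := by exact_mod_cast (lt_of_lt_of_le hP hr)
  have hw : ∑ _ω : Ω, ((Fintype.card Ω : ℝ)⁻¹) = 1 := by
    rw [Finset.sum_const, Finset.card_univ, nsmul_eq_mul]
    field_simp
  have hp : (1 : ℝ) ≤ (r : ℝ) / P := by
    rw [le_div_iff₀ hPr, one_mul]
    exact_mod_cast hr
  have h1 := Real.rpow_arith_mean_le_arith_mean_rpow Finset.univ
    (fun _ : Ω => ((Fintype.card Ω : ℝ)⁻¹)) (fun ω => Y ω ^ P)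
    (fun _ _ => by positivity) hw (fun ω _ => pow_nonneg (hY ω) P) hp
  have h2 : ∑ ω : Ω, ((Fintype.card Ω : ℝ)⁻¹) * Y ω ^ P = mean (fun ω => Y ω ^ P) := by
    unfold mean
    rw [← Finset.mul_sum, div_eq_inv_mul]
  have h3' : ∀ ω : Ω, (Y ω ^ P) ^ ((r : ℝ) / P) = Y ω ^ r := by
    intro ω
    rw [← Real.rpow_natCast, ← Real.rpow_natCast, ← Real.rpow_mul (hY ω)]
    congr 1
    field_simp
  have h3 : ∑ ω : Ω, ((Fintype.card Ω : ℝ)⁻¹) * (Y ω ^ P) ^ ((r : ℝ) / P)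
      = mean (fun ω => Y ω ^ r) := by
    simp only [h3']
    unfold mean
    rw [← Finset.mul_sum]
    exact (div_eq_inv_mul _ _).symm
  rw [h2, h3] at h1
  have h4 : 0 ≤ mean (fun ω => Y ω ^ P) := mean_nonneg fun ω => pow_nonneg (hY ω) P
  have h5 : (mean (fun ω => Y ω ^ P)) ^ ((r : ℝ) / P) ≤ (C ^ P) ^ ((r : ℝ) / P) := by
    have h6 : ((C ^ P : ℝ)) ^ ((r : ℝ) / P) = C ^ r := by
      rw [← Real.rpow_natCast, ← Real.rpow_natCast, ← Real.rpow_mul hC]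
      congr 1
      field_simp
    rw [h6]
    exact h1.trans h
  exact (Real.rpow_le_rpow_iff h4 (pow_nonneg hC P) (by positivity)).1 h5

/-- Jensen's inequality for powers -/
theorem jensen_pow (P : ℕ) (Y : Ω → ℝ) (hY : ∀ ω, 0 ≤ Y ω) :
    (mean Y) ^ P ≤ mean (fun ω => Y ω ^ P) := by
  have hcard : (0 : ℝ) < Fintype.card Ω := by exact_mod_cast Fintype.card_pos
  have hw : ∑ _ω : Ω, ((Fintype.card Ω : ℝ)⁻¹) = 1 := by
    rw [Finset.sum_const, Finset.card_univ, nsmul_eq_mul]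
    field_simp
  have h1 := Real.pow_arith_mean_le_arith_mean_pow Finset.univ
    (fun _ : Ω => ((Fintype.card Ω : ℝ)⁻¹)) Y (fun _ _ => by positivity) hw (fun ω _ => hY ω) P
  have h2 : ∑ ω : Ω, ((Fintype.card Ω : ℝ)⁻¹) * Y ω = mean Y := by
    unfold mean
    rw [← Finset.mul_sum, div_eq_inv_mul]
  have h3 : ∑ ω : Ω, ((Fintype.card Ω : ℝ)⁻¹) * Y ω ^ P = mean (fun ω => Y ω ^ P) := by
    unfold mean
    rw [← Finset.mul_sum, div_eq_inv_mul]
  rw [h2, h3] at h1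
  exact h1

end Pool.Agent.Lib.MP_938ce2_ag_h82
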