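import Mathlib
import Pool.Agent.Lib.MP_938ce2_ag_h82.Basic

set_option autoImplicit false

namespace Pool.Agent.Lib.MP_938ce2_ag_h82

open Finset

variable {Ω : Type*} [Fintype Ω] [Nonempty Ω]

private lemma mink2 {P : ℕ} (hP : 1 ≤ P) (X Y : Ω → ℝ) (hX : ∀ ω, 0 ≤ X ω) (hY : ∀ ω, 0 ≤ Y ω)
    {a b : ℝ} (ha : 0 ≤ a) (hb : 0 ≤ b) (h1 : mean (fun ω => X ω ^ P) ≤ a ^ P)
    (h2 : mean (fun ω => Y ω ^ P) ≤ b ^ P) :
    mean (fun ω => (X ω + Y ω) ^ P) ≤ (a + b) ^ P := by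
  have hN : (0 : ℝ) < Fintype.card Ω := by exact_mod_cast Fintype.card_pos
  have hPR : (1 : ℝ) ≤ P := by exact_mod_cast hP
  have hP0 : (0 : ℝ) < P := by linarith
  have hpow : ∀ t : ℝ, 0 ≤ t → (t ^ P) ^ (1 / (P : ℝ)) = t := by
    intro t ht
    rw [← Real.rpow_natCast, ← Real.rpow_mul ht, mul_one_div_cancel hP0.ne', Real.rpow_one]
  have hpow' : ∀ t : ℝ, 0 ≤ t → (t ^ (1 / (P : ℝ))) ^ P = t := by
    intro t ht
    rw [← Real.rpow_natCast, ← Real.rpow_mul ht, one_div_mul_cancel hP0.ne', Real.rpow_one]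
  have key := Real.Lp_add_le_of_nonneg (Finset.univ : Finset Ω) (f := X) (g := Y) hPR
    (fun i _ => hX i) (fun i _ => hY i)
  simp only [Real.rpow_natCast] at key
  have r1 : ∀ (Z : Ω → ℝ) (c : ℝ), 0 ≤ c → (∀ ω, 0 ≤ Z ω) → mean (fun ω => Z ω ^ P) ≤ c ^ P →
      (∑ ω, Z ω ^ P) ^ (1 / (P : ℝ)) ≤ (Fintype.card Ω : ℝ) ^ (1 / (P : ℝ)) * c := by
    intro Z c hc hZ h
    unfold mean at h
    rw [div_le_iff₀ hN] at h
    calc (∑ ω, Z ω ^ P) ^ (1 / (P : ℝ)) ≤ (c ^ P * Fintype.card Ω) ^ (1 / (P : ℝ)) :=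
          Real.rpow_le_rpow (Finset.sum_nonneg fun ω _ => pow_nonneg (hZ ω) P) h (by positivity)
      _ = c * (Fintype.card Ω : ℝ) ^ (1 / (P : ℝ)) := by
          rw [Real.mul_rpow (pow_nonneg hc P) hN.le, hpow c hc]
      _ = _ := mul_comm _ _
  have k2 : (∑ ω, (X ω + Y ω) ^ P) ^ (1 / (P : ℝ))
      ≤ (Fintype.card Ω : ℝ) ^ (1 / (P : ℝ)) * (a + b) := by
    rw [mul_add]
    exact key.trans (add_le_add (r1 X a ha hX h1) (r1 Y b hb hY h2))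
  have h0 : 0 ≤ ∑ ω, (X ω + Y ω) ^ P :=
    Finset.sum_nonneg fun ω _ => pow_nonneg (add_nonneg (hX ω) (hY ω)) P
  have k3 := pow_le_pow_left₀ (Real.rpow_nonneg h0 (1 / (P : ℝ))) k2 P
  rw [hpow' _ h0, mul_pow, hpow' _ hN.le] at k3
  unfold mean
  rw [div_le_iff₀ hN, mul_comm]
  exact k3

/-- Minkowski's inequality for finite sums. Proof: by induction on `s` it is enough to treat two
functions `X`, `Y` with `mean X ^ P ≤ a ^ P`, `mean Y ^ P ≤ b ^ P`; if `a, b > 0` use the convexity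
`(X + Y) ^ P ≤ (a + b) ^ P * (a / (a + b) * (X / a) ^ P + b / (a + b) * (Y / b) ^ P)`; if `a = 0`
then `X = 0` everywhere. -/
theorem minkowski {κ : Type*} (s : Finset κ) {P : ℕ} (hP : 1 ≤ P) (Y : κ → Ω → ℝ)
    (hY : ∀ k ω, 0 ≤ Y k ω) (c : κ → ℝ) (hc : ∀ k, 0 ≤ c k)
    (h : ∀ k ∈ s, mean (fun ω => Y k ω ^ P) ≤ c k ^ P) :
    mean (fun ω => (∑ k ∈ s, Y k ω) ^ P) ≤ (∑ k ∈ s, c k) ^ P := by
  classical
  induction s using Finset.induction_on with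
  | empty =>
    simp only [Finset.sum_empty]
    rw [mean_const]
  | insert j s hj ih =>
    have e : (fun ω => (∑ k ∈ insert j s, Y k ω) ^ P)
        = fun ω => (Y j ω + ∑ k ∈ s, Y k ω) ^ P := by
      funext ω
      rw [Finset.sum_insert hj]
    rw [e, Finset.sum_insert hj]
    exact mink2 hP (Y j) (fun ω => ∑ k ∈ s, Y k ω) (hY j)
      (fun ω => Finset.sum_nonneg fun k _ => hY k ω) (hc j)
      (Finset.sum_nonneg fun k _ => hc k) (h j (Finset.mem_insert_self j s))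
      (ih fun k hk => h k (Finset.mem_insert_of_mem hk))

end Pool.Agent.Lib.MP_938ce2_ag_h82
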