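import Mathlib
import Pool.Agent.Lib.MP_938ce2_ag_h82.Defs2
import Pool.Agent.Lib.MP_938ce2_ag_h82.R02
import Pool.Agent.Lib.MP_938ce2_ag_h82.R03
import Pool.Agent.Lib.MP_938ce2_ag_h82.R04a
import Pool.Agent.Lib.MP_938ce2_ag_h82.R04b

set_option autoImplicit false

namespace Pool.Agent.Lib.MP_938ce2_ag_h82

open Finset

variable {ι : Type} [Fintype ι] [DecidableEq ι] {X : Type} {H : Type} [NormedAddCommGroup H]
  [InnerProductSpace ℝ H] {N : ℕ}

omit [Fintype ι] in
private lemma rs_filter_true (Z : Finset ι) (b η : ι → Bool) :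
    (fun i => if η i then rs Z b i else 0) = rs (Z.filter fun i => η i = true) b := by
  ext i
  simp only [rs, Finset.mem_filter]
  by_cases h1 : i ∈ Z <;> by_cases h2 : η i = true <;> simp [h1, h2]

omit [Fintype ι] in
private lemma rs_filter_false (Z : Finset ι) (b η : ι → Bool) :
    (fun i => if η i then 0 else rs Z b i) = rs (Z.filter fun i => η i = false) b := by
  ext i
  simp only [rs, Finset.mem_filter]
  by_cases h1 : i ∈ Z <;> by_cases h2 : η i = true <;> simp [h1, h2]

omit [Fintype ι] in
private lemma rs_sq_le (Z : Finset ι) (b : ι → Bool) (i : ι) : rs Z b i ^ 2 ≤ 1 := by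
  unfold rs
  split_ifs
  · rw [sg_sq]
  · norm_num

/-- pointwise decoupling of the quadratic supremum: `rs Z b` split by a random set `η` is
`rs (Z ∩ η) b` and `rs (Z \ η) b` -/
theorem SS_le_mean (B : X → (ι → ℝ) →ₗ[ℝ] H) (T : Finset (Fin N → X)) (hT : T.Nonempty) {m : ℝ}
    (hm : 0 < m) (hfrob : ∀ τ ∈ T, frob (opT B τ) ≤ m) (Z : Finset ι) (b : ι → Bool) :
    SS B T hT m (rs Z b) ≤ 1 + 4 * mean (fun η : ι → Bool =>
      RR B T hT m (rs (Z.filter fun i => η i = true) b) (rs (Z.filter fun i => η i = false) b)) := by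
  obtain ⟨τ, hτ, h⟩ := exists_SS (B := B) (hT := hT) hm (rs Z b)
  have h1 := decouple (opT B τ) (rs Z b)
  have h2 : ∑ i, rs Z b i ^ 2 * ‖opT B τ (Pi.single i 1)‖ ^ 2 ≤ m := by
    refine le_trans (Finset.sum_le_sum fun i _ => ?_) (hfrob τ hτ)
    calc rs Z b i ^ 2 * ‖opT B τ (Pi.single i 1)‖ ^ 2
        ≤ 1 * ‖opT B τ (Pi.single i 1)‖ ^ 2 :=
          mul_le_mul_of_nonneg_right (rs_sq_le Z b i) (sq_nonneg _)
      _ = _ := one_mul _
  have h3 : mean (fun η : ι → Bool => inner ℝ (opT B τ (fun i => if η i then rs Z b i else 0))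
      (opT B τ (fun i => if η i then 0 else rs Z b i)))
      ≤ m * mean (fun η : ι → Bool => RR B T hT m (rs (Z.filter fun i => η i = true) b)
        (rs (Z.filter fun i => η i = false) b)) := by
    rw [← mean_mul_left]
    refine mean_mono fun η => ?_
    rw [rs_filter_true, rs_filter_false]
    exact (le_abs_self _).trans (le_RR hm hτ _ _)
  have h4 : m * SS B T hT m (rs Z b) ≤ m * (1 + 4 * mean (fun η : ι → Bool =>
      RR B T hT m (rs (Z.filter fun i => η i = true) b)
        (rs (Z.filter fun i => η i = false) b))) := by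
    rw [h, h1]
    linarith
  exact le_of_mul_le_mul_left h4 hm

/-- the moments of the quadratic supremum -/
theorem SS_moment (B : X → (ι → ℝ) →ₗ[ℝ] H) (T : Finset (Fin N → X)) (hT : T.Nonempty) {m : ℝ}
    (hm : 0 < m) (hfrob : ∀ τ ∈ T, frob (opT B τ) ≤ m) {P : ℕ} (hP : 1 ≤ P) {θ : ℝ} (hθ : 0 ≤ θ)
    (hR : ∀ Z Z' : Finset ι, Disjoint Z Z' →
      mean (fun b : ι → Bool => mean (fun b' : ι → Bool =>
        RR B T hT m (rs Z b) (rs Z' b') ^ (2 * P))) ≤ θ ^ (2 * P)) (Z : Finset ι) :
    mean (fun b : ι → Bool => SS B T hT m (rs Z b) ^ (2 * P)) ≤ (1 + 4 * θ) ^ (2 * P) := by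
  set G : (ι → Bool) → ℝ := fun b => mean (fun η : ι → Bool =>
    RR B T hT m (rs (Z.filter fun i => η i = true) b)
      (rs (Z.filter fun i => η i = false) b)) with hG
  have hG0 : ∀ b, 0 ≤ G b := fun b => mean_nonneg fun η => RR_nonneg hm _ _
  have h1 : mean (fun b : ι → Bool => G b ^ (2 * P)) ≤ θ ^ (2 * P) := by
    calc mean (fun b : ι → Bool => G b ^ (2 * P))
        ≤ mean (fun b : ι → Bool => mean (fun η : ι → Bool =>
          RR B T hT m (rs (Z.filter fun i => η i = true) b)
            (rs (Z.filter fun i => η i = false) b) ^ (2 * P))) := by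
          refine mean_mono fun b => ?_
          exact jensen_pow (2 * P) _ fun η => RR_nonneg hm _ _
      _ = mean (fun η : ι → Bool => mean (fun b : ι → Bool =>
          RR B T hT m (rs (Z.filter fun i => η i = true) b)
            (rs (Z.filter fun i => η i = false) b) ^ (2 * P))) := by rw [mean_comm]
      _ ≤ mean (fun _ : ι → Bool => θ ^ (2 * P)) := by
          refine mean_mono fun η => ?_
          have hd : Disjoint (Z.filter fun i => η i = true) (Z.filter fun i => η i = false) := by
            rw [Finset.disjoint_left]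
            intro i hi hi'
            rw [Finset.mem_filter] at hi hi'
            rw [hi.2] at hi'
            exact absurd hi'.2 (by simp)
          rw [mean_swap _ _ hd (fun v v' => RR B T hT m v v' ^ (2 * P))]
          exact hR _ _ hd
      _ = θ ^ (2 * P) := mean_const _
  have h2 : ∀ b, SS B T hT m (rs Z b) ≤ ∑ k : Bool, (if k then 4 * G b else 1) := fun b => by
    rw [Fintype.sum_bool, if_pos rfl]
    have := SS_le_mean B T hT hm hfrob Z b
    simp only [Bool.false_eq_true, if_false]
    linarith
  have h3 := minkowski (Ω := ι → Bool) (Finset.univ : Finset Bool) (P := 2 * P) (by omega)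
    (fun k b => if k then 4 * G b else 1)
    (fun k b => by
      cases k
      · simp
      · simpa using hG0 b)
    (fun k => if k then 4 * θ else 1)
    (fun k => by
      cases k
      · simp
      · simpa using hθ)
    (fun k _ => by
      cases k
      · simp only [Bool.false_eq_true, if_false]
        rw [mean_const]
      · simp only [if_true, mul_pow]
        rw [mean_mul_left]
        exact mul_le_mul_of_nonneg_left h1 (by positivity))
  have h4 : (∑ k : Bool, (if k then 4 * θ else 1)) = 1 + 4 * θ := by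
    rw [Fintype.sum_bool]
    simp only [Bool.false_eq_true, if_true, if_false]
    ring
  rw [h4] at h3
  refine le_trans (mean_mono fun b => ?_) h3
  exact pow_le_pow_left₀ (SS_nonneg hm _) (h2 b) _

end Pool.Agent.Lib.MP_938ce2_ag_h82
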