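import Mathlib
import Pool.Agent.Lib.MP_938ce2_ag_h82.Basic
import Pool.Agent.Lib.MP_938ce2_ag_h82.R01
import Pool.Agent.Lib.MP_938ce2_ag_h82.R04a
import Pool.Agent.Lib.MP_938ce2_ag_h82.R04b

set_option autoImplicit false

namespace Pool.Agent.Lib.MP_938ce2_ag_h82

open Finset

variable {ι : Type} [Fintype ι] [DecidableEq ι] {H : Type} [NormedAddCommGroup H]
  [InnerProductSpace ℝ H]

/-- the moments of a maximum of finitely many signed sums: `M ^ (2 r)` is at most the sum of the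
`2 r`-th powers (`khintchine`), then `power_mean` for `M ^ 2` -/
theorem level_moment {κ : Type*} (s : Finset κ) (a : κ → ι → ℝ) {V : ℝ} (hV0 : 0 ≤ V)
    (hV : ∀ k ∈ s, ∑ i, a k i ^ 2 ≤ V) {P r : ℕ} (hP : 1 ≤ P) (hr : P ≤ r)
    (hs : (s.card : ℝ) ≤ Real.exp (2 * r)) (M : (ι → Bool) → ℝ) (hM0 : ∀ b, 0 ≤ M b)
    (hM : ∀ b, ∃ k ∈ s, M b ≤ |∑ i, a k i * sg (b i)|) :
    mean (fun b : ι → Bool => M b ^ (2 * P)) ≤ (Real.exp 2 * (2 * r) * V) ^ P := by
  have hC : 0 ≤ Real.exp 2 * (2 * (r : ℝ)) * V := by positivity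
  have h1 : mean (fun b : ι → Bool => M b ^ (2 * r)) ≤ (Real.exp 2 * (2 * r) * V) ^ r := by
    calc mean (fun b : ι → Bool => M b ^ (2 * r))
        ≤ mean (fun b : ι → Bool => ∑ k ∈ s, (∑ i, a k i * sg (b i)) ^ (2 * r)) := by
          refine mean_mono fun b => ?_
          obtain ⟨k, hk, hb⟩ := hM b
          calc M b ^ (2 * r) ≤ |∑ i, a k i * sg (b i)| ^ (2 * r) :=
                pow_le_pow_left₀ (hM0 b) hb _
            _ = (∑ i, a k i * sg (b i)) ^ (2 * r) := by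
                rw [pow_mul, sq_abs, ← pow_mul]
            _ ≤ ∑ k ∈ s, (∑ i, a k i * sg (b i)) ^ (2 * r) :=
                Finset.single_le_sum (f := fun k => (∑ i, a k i * sg (b i)) ^ (2 * r))
                  (fun k _ => by rw [pow_mul]; positivity) hk
      _ = ∑ k ∈ s, mean (fun b : ι → Bool => (∑ i, a k i * sg (b i)) ^ (2 * r)) := by rw [mean_sum]
      _ ≤ ∑ k ∈ s, (2 * (r : ℝ)) ^ r * V ^ r := by
          refine Finset.sum_le_sum fun k hk => (khintchine r (a k)).trans ?_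
          have h2 : 0 ≤ ∑ i, a k i ^ 2 := Finset.sum_nonneg fun i _ => sq_nonneg _
          exact mul_le_mul_of_nonneg_left (pow_le_pow_left₀ h2 (hV k hk) r) (by positivity)
      _ = s.card * ((2 * (r : ℝ)) ^ r * V ^ r) := by rw [Finset.sum_const, nsmul_eq_mul]
      _ ≤ Real.exp (2 * r) * ((2 * (r : ℝ)) ^ r * V ^ r) :=
          mul_le_mul_of_nonneg_right hs (by positivity)
      _ = (Real.exp 2 * (2 * r) * V) ^ r := by
          rw [mul_comm 2 (r : ℝ), Real.exp_nat_mul]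
          rw [mul_pow, mul_pow]
          ring
  have h2 := power_mean hP hr (fun b => M b ^ 2) (fun b => sq_nonneg _)
    (Real.exp 2 * (2 * r) * V) hC (by simpa only [← pow_mul] using h1)
  simpa only [← pow_mul] using h2

private lemma sum_rs (D : (ι → ℝ) →ₗ[ℝ] H) (c : ι → ℝ) :
    D c = ∑ i, c i • D (Pi.single i 1) := by
  have h : c = ∑ i, c i • (Pi.single i 1 : ι → ℝ) := by
    ext j
    rw [Finset.sum_apply, Finset.sum_eq_single j]
    · simp
    · intro i _ hij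
      simp [Pi.single_eq_of_ne hij.symm]
    · intro hj
      exact absurd (Finset.mem_univ j) hj
  conv_lhs => rw [h]
  rw [map_sum]
  exact Finset.sum_congr rfl fun i _ => map_smul D _ _

/-- the coefficients of `b ↦ ⟨D (rs Z b), y⟩` -/
theorem inner_rs (D : (ι → ℝ) →ₗ[ℝ] H) (Z : Finset ι) (b : ι → Bool) (y : H) :
    inner ℝ (D (rs Z b)) y
      = ∑ i, (if i ∈ Z then inner ℝ (D (Pi.single i 1)) y else 0) * sg (b i) := by
  rw [sum_rs D (rs Z b), sum_inner]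
  refine Finset.sum_congr rfl fun i _ => ?_
  rw [real_inner_smul_left, rs]
  split_ifs <;> ring

theorem coeff_le {D : (ι → ℝ) →ₗ[ℝ] H} {K : ℝ} (hK : 0 ≤ K) (hD : OpLe D K) (Z : Finset ι) (y : H) :
    ∑ i, (if i ∈ Z then inner ℝ (D (Pi.single i 1)) y else 0) ^ 2 ≤ K * ‖y‖ ^ 2 := by
  set c : ι → ℝ := fun i => if i ∈ Z then inner ℝ (D (Pi.single i 1)) y else 0 with hc
  have hS0 : 0 ≤ ∑ i, c i ^ 2 := Finset.sum_nonneg fun i _ => sq_nonneg _
  have h1 : ∑ i, c i ^ 2 = inner ℝ (D c) y := by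
    rw [sum_rs D c, sum_inner]
    refine Finset.sum_congr rfl fun i _ => ?_
    rw [real_inner_smul_left, hc]
    dsimp only
    split_ifs <;> ring
  have h2 : (∑ i, c i ^ 2) ^ 2 ≤ (K * ‖y‖ ^ 2) * ∑ i, c i ^ 2 := by
    calc (∑ i, c i ^ 2) ^ 2 = (inner ℝ (D c) y) ^ 2 := by rw [h1]
      _ ≤ (‖D c‖ * ‖y‖) ^ 2 := by
          rw [← sq_abs]
          exact pow_le_pow_left₀ (abs_nonneg _) (abs_real_inner_le_norm _ _) 2
      _ = ‖D c‖ ^ 2 * ‖y‖ ^ 2 := by rw [mul_pow]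
      _ ≤ (K * ∑ i, c i ^ 2) * ‖y‖ ^ 2 := mul_le_mul_of_nonneg_right (hD c) (sq_nonneg _)
      _ = _ := by ring
  rcases hS0.eq_or_lt with h3 | h3
  · change ∑ i, c i ^ 2 ≤ _
    rw [← h3]
    positivity
  · change ∑ i, c i ^ 2 ≤ _
    rw [sq] at h2
    exact le_of_mul_le_mul_right h2 h3

end Pool.Agent.Lib.MP_938ce2_ag_h82
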