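import Mathlib
import Pool.Agent.Lib.MP_938ce2_ag_h82.Defs2
import Pool.Agent.Lib.MP_938ce2_ag_h82.R04a
import Pool.Agent.Lib.MP_938ce2_ag_h82.R04b
import Pool.Agent.Lib.MP_938ce2_ag_h82.R10

set_option autoImplicit false

namespace Pool.Agent.Lib.MP_938ce2_ag_h82

open Finset

variable {ι : Type} [Fintype ι] [DecidableEq ι] {X : Type} {H : Type} [NormedAddCommGroup H]
  [InnerProductSpace ℝ H] {N : ℕ}

/-- the telescoping sum of the chain -/
theorem telescoping (D : ℕ → (ι → ℝ) →ₗ[ℝ] H) (L : ℕ) (v v' : ι → ℝ) :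
    |inner ℝ (D 0 v) (D 0 v')| ≤ |inner ℝ (D L v) (D L v')|
      + ∑ k ∈ range L, (|inner ℝ ((D k - D (k + 1)) v) (D k v')|
        + |inner ℝ (D (k + 1) v) ((D k - D (k + 1)) v')|) := by
  induction L with
  | zero => simp
  | succ L ih =>
    rw [Finset.sum_range_succ]
    have h1 : (inner ℝ (D L v) (D L v') : ℝ)
        = inner ℝ (D (L + 1) v) (D (L + 1) v') + (inner ℝ ((D L - D (L + 1)) v) (D L v')
          + inner ℝ (D (L + 1) v) ((D L - D (L + 1)) v')) := by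
      rw [LinearMap.sub_apply, LinearMap.sub_apply, inner_sub_left, inner_sub_right]
      ring
    have h2 : |(inner ℝ (D L v) (D L v') : ℝ)|
        ≤ |(inner ℝ (D (L + 1) v) (D (L + 1) v') : ℝ)|
          + (|(inner ℝ ((D L - D (L + 1)) v) (D L v') : ℝ)|
            + |(inner ℝ (D (L + 1) v) ((D L - D (L + 1)) v') : ℝ)|) := by
      rw [h1]
      refine (abs_add_le _ _).trans ?_
      gcongr
      exact abs_add_le _ _
    linarith

/-- one link of the chain: `S` is a finite set of pairs `(D, E)`; the maximum of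
`|⟨(D) (rs Z b), E (v')⟩|` for independent signs `b` and fixed `v'` -/
theorem link_moment {κ : Type*} (s : Finset κ) (D E : κ → (ι → ℝ) →ₗ[ℝ] H) {K : ℝ} (hK : 0 ≤ K)
    (hD : ∀ k ∈ s, OpLe (D k) K) {P r : ℕ} (hP : 1 ≤ P) (hr : P ≤ r)
    (hs : (s.card : ℝ) ≤ Real.exp (2 * r)) (Z : Finset ι) (v' : ι → ℝ) {Y : ℝ} (hY : 0 ≤ Y)
    (hE : ∀ k ∈ s, ‖E k v'‖ ^ 2 ≤ Y) (M : (ι → Bool) → ℝ) (hM0 : ∀ b, 0 ≤ M b)
    (hM : ∀ b, ∃ k ∈ s, M b ≤ |inner ℝ (D k (rs Z b)) (E k v')|) :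
    mean (fun b => M b ^ (2 * P)) ≤ (Real.exp 2 * (2 * r) * (K * Y)) ^ P := by
  refine level_moment s
    (fun k i => if i ∈ Z then (inner ℝ (D k (Pi.single i 1)) (E k v') : ℝ) else 0)
    (mul_nonneg hK hY) (fun k hk => ?_) hP hr hs M hM0 fun b => ?_
  · exact (coeff_le hK (hD k hk) Z (E k v')).trans (mul_le_mul_of_nonneg_left (hE k hk) hK)
  · obtain ⟨k, hk, h⟩ := hM b
    refine ⟨k, hk, ?_⟩
    rw [inner_rs] at h
    exact h

end Pool.Agent.Lib.MP_938ce2_ag_h82
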