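import Mathlib
import Pool.Agent.Lib.MP_938ce2_ag_h82.Defs2
import Pool.Agent.Lib.MP_938ce2_ag_h82.R04a
import Pool.Agent.Lib.MP_938ce2_ag_h82.R04b
import Pool.Agent.Lib.MP_938ce2_ag_h82.R12

set_option autoImplicit false

namespace Pool.Agent.Lib.MP_938ce2_ag_h82

open Finset

variable {ι : Type} [Fintype ι] [DecidableEq ι] {X : Type} [DecidableEq X] {H : Type}
  [NormedAddCommGroup H] [InnerProductSpace ℝ H] {N : ℕ}

omit [DecidableEq X] in
/-- one link, one side: the second vector is fixed first and then averaged -/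
private lemma side_moment (B : X → (ι → ℝ) →ₗ[ℝ] H) (T : Finset (Fin N → X)) (hT : T.Nonempty)
    {m : ℝ} (hm : 0 < m) {P : ℕ} (hP : 1 ≤ P) {θ : ℝ} (hθ : 0 ≤ θ) (Z Z' : Finset ι)
    (hS : mean (fun b : ι → Bool => SS B T hT m (rs Z' b) ^ (2 * P)) ≤ (1 + 4 * θ) ^ (2 * P))
    {κ : Type} (s : Finset κ) (D : κ → (ι → ℝ) →ₗ[ℝ] H) (t : κ → Fin N → X)
    (ht : ∀ k ∈ s, t k ∈ T) {K : ℝ} (hK : 0 ≤ K) (hD : ∀ k ∈ s, OpLe (D k) K) {r : ℕ}
    (hr : P ≤ r) (hs : (s.card : ℝ) ≤ Real.exp (2 * r)) (M : (ι → ℝ) → (ι → ℝ) → ℝ)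
    (hM0 : ∀ v v', 0 ≤ M v v')
    (hM : ∀ v v', ∃ k ∈ s, m * M v v' ≤ |inner ℝ (D k v) (opT B (t k) v')|) :
    mean (fun b' : ι → Bool => mean (fun b : ι → Bool => M (rs Z b) (rs Z' b') ^ (2 * P)))
      ≤ (√(Real.exp 2 * (2 * r) * K / m) * √(1 + 4 * θ)) ^ (2 * P) := by
  set a : ℝ := Real.exp 2 * (2 * r) * K / m with ha
  have ha0 : 0 ≤ a := by positivity
  have h1 : ∀ b' : ι → Bool, mean (fun b : ι → Bool => M (rs Z b) (rs Z' b') ^ (2 * P))
      ≤ a ^ P * SS B T hT m (rs Z' b') ^ P := by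
    intro b'
    have hl := link_moment s D (fun k => opT B (t k)) hK hD hP hr hs Z (rs Z' b')
      (Y := m * SS B T hT m (rs Z' b')) (mul_nonneg hm.le (SS_nonneg hm _))
      (fun k hk => le_SS hm (ht k hk) _) (fun b => m * M (rs Z b) (rs Z' b'))
      (fun b => mul_nonneg hm.le (hM0 _ _)) (fun b => hM _ _)
    have h2 : mean (fun b : ι → Bool => (m * M (rs Z b) (rs Z' b')) ^ (2 * P))
        = m ^ (2 * P) * mean (fun b : ι → Bool => M (rs Z b) (rs Z' b') ^ (2 * P)) := by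
      rw [← mean_mul_left]
      congr 1
      ext b
      rw [mul_pow]
    have h3 : (Real.exp 2 * (2 * (r : ℝ)) * (K * (m * SS B T hT m (rs Z' b')))) ^ P
        = m ^ (2 * P) * (a ^ P * SS B T hT m (rs Z' b') ^ P) := by
      rw [pow_mul, ← mul_pow, ← mul_pow]
      congr 1
      rw [ha]
      field_simp
    rw [h2, h3] at hl
    exact le_of_mul_le_mul_left hl (by positivity)
  have h4 : mean (fun b' : ι → Bool => SS B T hT m (rs Z' b') ^ P) ≤ (1 + 4 * θ) ^ P :=
    power_mean hP (by omega) _ (fun b' => SS_nonneg hm _) (1 + 4 * θ) (by positivity) hS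
  calc mean (fun b' : ι → Bool => mean (fun b : ι → Bool => M (rs Z b) (rs Z' b') ^ (2 * P)))
      ≤ mean (fun b' : ι → Bool => a ^ P * SS B T hT m (rs Z' b') ^ P) := mean_mono h1
    _ = a ^ P * mean (fun b' : ι → Bool => SS B T hT m (rs Z' b') ^ P) := mean_mul_left _ _
    _ ≤ a ^ P * (1 + 4 * θ) ^ P := mul_le_mul_of_nonneg_left h4 (by positivity)
    _ = (√a * √(1 + 4 * θ)) ^ (2 * P) := by
        rw [pow_mul, mul_pow, Real.sq_sqrt ha0, Real.sq_sqrt (by positivity), mul_pow]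

/-- **The chaining inequality.** `RR (rs Z b) (rs Z' b')` is at most the sum over the base term and
the `2 L` links of nonnegative functions of `(b, b')`; for each of them use `link_moment` with the
other sign vector fixed (`‖E v'‖ ^ 2 ≤ m * SS v'`), `power_mean` for `SS` (exponent `P` from `2 P`) and
then `minkowski` on `(ι → Bool) × (ι → Bool)` with `mean_prod`, `mean_comm`. -/
theorem RR_moment (B : X → (ι → ℝ) →ₗ[ℝ] H) (T : Finset (Fin N → X)) (hT : T.Nonempty) {m : ℝ}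
    (hm : 0 < m) {P : ℕ} (hP : 1 ≤ P) {θ : ℝ} (hθ : 0 ≤ θ)
    (hS : ∀ Z : Finset ι,
      mean (fun b : ι → Bool => SS B T hT m (rs Z b) ^ (2 * P)) ≤ (1 + 4 * θ) ^ (2 * P))
    (L : ℕ) (π : ℕ → (Fin N → X) → (Fin N → X)) (h0 : ∀ τ ∈ T, π 0 τ = τ)
    (hπ : ∀ k, ∀ τ ∈ T, π k τ ∈ T) (hL : ∀ τ ∈ T, ∀ τ' ∈ T, π L τ = π L τ')
    (r : ℕ → ℕ) (hr : ∀ k, P ≤ r k)
    (hcard : ∀ k < L, ((T.image fun τ => (π k τ, π (k + 1) τ)).card : ℝ) ≤ Real.exp (2 * r k))
    (K : ℕ → ℝ) (hK : ∀ k, 0 ≤ K k)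
    (hop : ∀ k < L, ∀ τ ∈ T, OpLe (opT B (π k τ) - opT B (π (k + 1) τ)) (K k))
    {Kb : ℝ} (hKb0 : 0 ≤ Kb) (hKb : ∀ τ ∈ T, OpLe (opT B τ) Kb) (Z Z' : Finset ι) :
    mean (fun b : ι → Bool => mean (fun b' : ι → Bool =>
        RR B T hT m (rs Z b) (rs Z' b') ^ (2 * P)))
      ≤ ((√(Real.exp 2 * (2 * P) * Kb / m)
          + 2 * ∑ k ∈ range L, √(Real.exp 2 * (2 * r k) * K k / m)) * √(1 + 4 * θ)) ^ (2 * P) := by
  classical
  -- the three kinds of forms
  set G0 : (Fin N → X) → (ι → ℝ) → (ι → ℝ) → ℝ := fun τ v v' =>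
    |inner ℝ (opT B (π L τ) v) (opT B (π L τ) v')| with hG0
  set G1 : ℕ → (Fin N → X) → (ι → ℝ) → (ι → ℝ) → ℝ := fun k τ v v' =>
    |inner ℝ ((opT B (π k τ) - opT B (π (k + 1) τ)) v) (opT B (π k τ) v')| with hG1
  set G2 : ℕ → (Fin N → X) → (ι → ℝ) → (ι → ℝ) → ℝ := fun k τ v v' =>
    |inner ℝ (opT B (π (k + 1) τ) v) ((opT B (π k τ) - opT B (π (k + 1) τ)) v')| with hG2
  set Y : Option (ℕ × Bool) → (ι → ℝ) → (ι → ℝ) → ℝ := fun o v v' =>
    match o with
    | none => T.sup' hT (fun τ => G0 τ v v') / m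
    | some (k, true) => T.sup' hT (fun τ => G1 k τ v v') / m
    | some (k, false) => T.sup' hT (fun τ => G2 k τ v v') / m with hY
  have hsup0 : ∀ F : (Fin N → X) → ℝ, (∀ τ, 0 ≤ F τ) → 0 ≤ T.sup' hT F / m := by
    intro F hF
    obtain ⟨τ, hτ⟩ := id hT
    exact div_nonneg ((hF τ).trans (Finset.le_sup' F hτ)) hm.le
  have hY0 : ∀ o v v', 0 ≤ Y o v v' := by
    intro o v v'
    rcases o with _ | ⟨k, _ | _⟩
    · exact hsup0 _ fun τ => abs_nonneg _
    · exact hsup0 _ fun τ => abs_nonneg _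
    · exact hsup0 _ fun τ => abs_nonneg _
  have hle : ∀ F : (Fin N → X) → ℝ, ∀ τ ∈ T, F τ ≤ m * (T.sup' hT F / m) := by
    intro F τ hτ
    rw [mul_div_cancel₀ _ hm.ne']
    exact Finset.le_sup' F hτ
  have hex : ∀ F : (Fin N → X) → ℝ, ∃ τ ∈ T, m * (T.sup' hT F / m) ≤ F τ := by
    intro F
    obtain ⟨τ, hτ, h⟩ := Finset.exists_mem_eq_sup' hT F
    refine ⟨τ, hτ, ?_⟩
    rw [mul_div_cancel₀ _ hm.ne', h]
  -- the constants
  set c : Option (ℕ × Bool) → ℝ := fun o =>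
    match o with
    | none => √(Real.exp 2 * (2 * P) * Kb / m) * √(1 + 4 * θ)
    | some (k, _) => √(Real.exp 2 * (2 * r k) * K k / m) * √(1 + 4 * θ) with hc
  have hc0 : ∀ o, 0 ≤ c o := by
    intro o
    rcases o with _ | ⟨k, b⟩
    · exact mul_nonneg (Real.sqrt_nonneg _) (Real.sqrt_nonneg _)
    · exact mul_nonneg (Real.sqrt_nonneg _) (Real.sqrt_nonneg _)
  set s : Finset (Option (ℕ × Bool)) := insertNone (range L ×ˢ (univ : Finset Bool)) with hs
  have hsum : ∀ f : Option (ℕ × Bool) → ℝ, ∑ o ∈ s, f o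
      = f none + ∑ k ∈ range L, (f (some (k, true)) + f (some (k, false))) := by
    intro f
    rw [hs, Finset.sum_insertNone, Finset.sum_product]
    congr 1
    refine Finset.sum_congr rfl fun k _ => ?_
    rw [Fintype.sum_bool]
  have hcs : ∑ o ∈ s, c o = (√(Real.exp 2 * (2 * P) * Kb / m)
      + 2 * ∑ k ∈ range L, √(Real.exp 2 * (2 * r k) * K k / m)) * √(1 + 4 * θ) := by
    rw [hsum, add_mul, Finset.mul_sum, Finset.sum_mul]
    congr 1
    refine Finset.sum_congr rfl fun k _ => ?_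
    simp only [hc]
    ring
  -- the pointwise bound
  have hpt : ∀ v v' : ι → ℝ, RR B T hT m v v' ≤ ∑ o ∈ s, Y o v v' := by
    intro v v'
    obtain ⟨τ, hτ, hR⟩ := exists_RR (B := B) (T := T) (hT := hT) hm v v'
    have ht := telescoping (fun k => opT B (π k τ)) L v v'
    simp only [h0 τ hτ] at ht
    rw [← hR] at ht
    refine le_of_mul_le_mul_left (ht.trans ?_) hm
    rw [hsum, mul_add, Finset.mul_sum]
    refine add_le_add (hle (fun τ => G0 τ v v') τ hτ) (Finset.sum_le_sum fun k _ => ?_)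
    rw [mul_add]
    exact add_le_add (hle (fun τ => G1 k τ v v') τ hτ) (hle (fun τ => G2 k τ v v') τ hτ)
  -- the moments of the terms
  have hmom : ∀ o ∈ s, mean (fun ω : (ι → Bool) × (ι → Bool) =>
      Y o (rs Z ω.1) (rs Z' ω.2) ^ (2 * P)) ≤ c o ^ (2 * P) := by
    intro o ho
    rw [mean_prod]
    rcases o with _ | ⟨k, _ | _⟩
    · -- base term
      rw [mean_comm]
      refine side_moment B T hT hm hP hθ Z Z' (hS Z') (T.image (π L)) (fun p => opT B p)
        (fun p => p) ?_ hKb0 ?_ le_rfl ?_ (Y none) (hY0 none) ?_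
      · intro p hp
        obtain ⟨τ, hτ, rfl⟩ := Finset.mem_image.1 hp
        exact hπ L τ hτ
      · intro p hp
        obtain ⟨τ, hτ, rfl⟩ := Finset.mem_image.1 hp
        exact hKb _ (hπ L τ hτ)
      · have h1 : (T.image (π L)).card ≤ 1 := by
          rw [Finset.card_le_one]
          intro p hp q hq
          obtain ⟨τ, hτ, rfl⟩ := Finset.mem_image.1 hp
          obtain ⟨τ', hτ', rfl⟩ := Finset.mem_image.1 hq
          exact hL τ hτ τ' hτ'
        calc ((T.image (π L)).card : ℝ) ≤ 1 := by exact_mod_cast h1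
          _ ≤ Real.exp (2 * P) := Real.one_le_exp (by positivity)
      · intro v v'
        obtain ⟨τ, hτ, h⟩ := hex (fun τ => G0 τ v v')
        exact ⟨π L τ, Finset.mem_image_of_mem _ hτ, h⟩
    · -- second side
      have hk : k < L := by
        rw [hs, Finset.some_mem_insertNone, Finset.mem_product] at ho
        exact Finset.mem_range.1 ho.1
      refine side_moment B T hT hm hP hθ Z' Z (hS Z)
        (T.image fun τ => (π k τ, π (k + 1) τ)) (fun p => opT B p.1 - opT B p.2)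
        (fun p => p.2) ?_ (hK k) ?_ (hr k) (hcard k hk) (fun v' v => Y (some (k, false)) v v')
        (fun v' v => hY0 (some (k, false)) v v') ?_
      · intro p hp
        obtain ⟨τ, hτ, rfl⟩ := Finset.mem_image.1 hp
        exact hπ (k + 1) τ hτ
      · intro p hp
        obtain ⟨τ, hτ, rfl⟩ := Finset.mem_image.1 hp
        exact hop k hk τ hτ
      · intro v' v
        obtain ⟨τ, hτ, h⟩ := hex (fun τ => G2 k τ v v')
        refine ⟨(π k τ, π (k + 1) τ), Finset.mem_image_of_mem _ hτ, h.trans (le_of_eq ?_)⟩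
        simp only [hG2]
        rw [real_inner_comm]
    · -- first side
      have hk : k < L := by
        rw [hs, Finset.some_mem_insertNone, Finset.mem_product] at ho
        exact Finset.mem_range.1 ho.1
      rw [mean_comm]
      refine side_moment B T hT hm hP hθ Z Z' (hS Z')
        (T.image fun τ => (π k τ, π (k + 1) τ)) (fun p => opT B p.1 - opT B p.2)
        (fun p => p.1) ?_ (hK k) ?_ (hr k) (hcard k hk) (Y (some (k, true)))
        (hY0 (some (k, true))) ?_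
      · intro p hp
        obtain ⟨τ, hτ, rfl⟩ := Finset.mem_image.1 hp
        exact hπ k τ hτ
      · intro p hp
        obtain ⟨τ, hτ, rfl⟩ := Finset.mem_image.1 hp
        exact hop k hk τ hτ
      · intro v v'
        obtain ⟨τ, hτ, h⟩ := hex (fun τ => G1 k τ v v')
        exact ⟨(π k τ, π (k + 1) τ), Finset.mem_image_of_mem _ hτ, h⟩
  -- conclusion
  have hmink := minkowski s (P := 2 * P) (by omega)
    (fun o (ω : (ι → Bool) × (ι → Bool)) => Y o (rs Z ω.1) (rs Z' ω.2))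
    (fun o ω => hY0 _ _ _) c hc0 hmom
  rw [hcs] at hmink
  refine le_trans ?_ hmink
  rw [mean_prod]
  refine mean_mono fun b => mean_mono fun b' => ?_
  exact pow_le_pow_left₀ (RR_nonneg hm _ _) (hpt _ _) _

end Pool.Agent.Lib.MP_938ce2_ag_h82
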