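import Mathlib
import Pool.Agent.Lib.MP_938ce2_ag_h82.Defs2
import Pool.Agent.Lib.MP_938ce2_ag_h82.R02
import Pool.Agent.Lib.MP_938ce2_ag_h82.R03
import Pool.Agent.Lib.MP_938ce2_ag_h82.R04a
import Pool.Agent.Lib.MP_938ce2_ag_h82.R04b
import Pool.Agent.Lib.MP_938ce2_ag_h82.R11

set_option autoImplicit false

namespace Pool.Agent.Lib.MP_938ce2_ag_h82

open Finset

variable {ι : Type} [Fintype ι] [DecidableEq ι] {X : Type} [DecidableEq X] {H : Type}
  [NormedAddCommGroup H] [InnerProductSpace ℝ H] {N : ℕ}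

/-- the fixed point: a nonnegative solution of `θ ≤ κ √(1 + 4 θ)`, `κ ≤ 1 / 32`, is small -/
theorem fixed_point {θ κ : ℝ} (hθ : 0 ≤ θ) (hκ0 : 0 ≤ κ) (hκ : κ ≤ 1 / 32)
    (h : θ ≤ κ * √(1 + 4 * θ)) : 8 * θ ≤ Real.exp (-1) := by
  have h1 : (0 : ℝ) ≤ 1 + 4 * θ := by linarith
  have hs : 0 ≤ √(1 + 4 * θ) := Real.sqrt_nonneg _
  have hsq : √(1 + 4 * θ) ^ 2 = 1 + 4 * θ := Real.sq_sqrt h1
  have h2 : θ ≤ 1 / 32 * √(1 + 4 * θ) := h.trans (mul_le_mul_of_nonneg_right hκ hs)
  have h3 : θ ^ 2 ≤ (1 / 32 * √(1 + 4 * θ)) ^ 2 := pow_le_pow_left₀ hθ h2 2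
  rw [mul_pow, hsq] at h3
  have h4 : θ ≤ 0.045 := by
    by_contra hc
    push Not at hc
    nlinarith
  have h5 : Real.exp 1 < 2.7182818286 := Real.exp_one_lt_d9
  have h6 : (0 : ℝ) < Real.exp 1 := Real.exp_pos 1
  have h7 : (0.36 : ℝ) ≤ Real.exp (-1) := by
    rw [Real.exp_neg, le_inv_comm₀ (by norm_num) h6]
    refine h5.le.trans ?_
    norm_num
  linarith

/-- the share of the sign vectors for which some quadratic form is at most half of its mean.
`hmom` is the conclusion of `RR_moment`. Choose `θ` with `θ ^ (2 P)` equal to the maximum over the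
disjoint pairs `Z, Z'` of the moment of `RR`; then `SS_moment`, `hmom`, `fixed_point`, and
`decouple` for `v = rs univ b` (the diagonal part is `frob = m`), `card_le_mean`. -/
theorem share_le (B : X → (ι → ℝ) →ₗ[ℝ] H) (T : Finset (Fin N → X)) (hT : T.Nonempty) {m : ℝ}
    (hm : 0 < m) (hfrob : ∀ τ ∈ T, frob (opT B τ) = m) {P : ℕ} (hP : 1 ≤ P) {κ : ℝ} (hκ0 : 0 ≤ κ)
    (hκ : κ ≤ 1 / 32)
    (hmom : ∀ θ : ℝ, 0 ≤ θ →
      (∀ Z : Finset ι,
        mean (fun b : ι → Bool => SS B T hT m (rs Z b) ^ (2 * P)) ≤ (1 + 4 * θ) ^ (2 * P)) →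
      ∀ Z Z' : Finset ι, mean (fun b : ι → Bool => mean (fun b' : ι → Bool =>
        RR B T hT m (rs Z b) (rs Z' b') ^ (2 * P))) ≤ (κ * √(1 + 4 * θ)) ^ (2 * P)) :
    (((univ : Finset (ι → Bool)).filter fun b =>
        ∃ τ ∈ T, 2 * ‖opT B τ (fun i => sg (b i))‖ ^ 2 ≤ m).card : ℝ)
      ≤ Real.exp (-(2 * P)) * 2 ^ Fintype.card ι := by
  classical
  -- the maximum of the moments over the disjoint pairs
  set G : Finset ι × Finset ι → ℝ := fun z => mean (fun b : ι → Bool => mean (fun b' : ι → Bool =>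
        RR B T hT m (rs z.1 b) (rs z.2 b') ^ (2 * P))) with hG
  have hG0 : ∀ z, 0 ≤ G z := fun z => mean_nonneg fun b => mean_nonneg fun b' =>
    pow_nonneg (RR_nonneg hm _ _) _
  obtain ⟨z0, hz0⟩ := Finite.exists_max G
  have h2P : 2 * P ≠ 0 := by omega
  set θ : ℝ := (G z0) ^ ((1 : ℝ) / ((2 * P : ℕ) : ℝ)) with hθdef
  have hθ0 : 0 ≤ θ := Real.rpow_nonneg (hG0 _) _
  have hθP : θ ^ (2 * P) = G z0 := by
    rw [hθdef, one_div]
    exact Real.rpow_inv_natCast_pow (hG0 _) h2P
  have hmax : ∀ Z Z' : Finset ι, mean (fun b : ι → Bool => mean (fun b' : ι → Bool =>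
        RR B T hT m (rs Z b) (rs Z' b') ^ (2 * P))) ≤ θ ^ (2 * P) := by
    intro Z Z'
    rw [hθP]
    exact hz0 (Z, Z')
  have hSS := fun Z : Finset ι => SS_moment B T hT hm (fun τ hτ => (hfrob τ hτ).le) hP hθ0
    (fun Z Z' _ => hmax Z Z') Z
  have hfin := hmom θ hθ0 hSS z0.1 z0.2
  have hle : θ ≤ κ * √(1 + 4 * θ) := by
    have hκs : 0 ≤ κ * √(1 + 4 * θ) := mul_nonneg hκ0 (Real.sqrt_nonneg _)
    refine le_of_pow_le_pow_left₀ h2P hκs ?_
    rw [hθP]
    exact hfin
  have h8 : 8 * θ ≤ Real.exp (-1) := fixed_point hθ0 hκ0 hκ hle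
  -- the test function
  set F : (ι → Bool) → ℝ := fun b => (8 * mean (fun η : ι → Bool =>
    RR B T hT m (rs (univ.filter fun i => η i = true) b)
      (rs (univ.filter fun i => η i = false) b))) ^ (2 * P) with hF
  have hRRm : ∀ b : ι → Bool, 0 ≤ mean (fun η : ι → Bool =>
    RR B T hT m (rs (univ.filter fun i => η i = true) b)
      (rs (univ.filter fun i => η i = false) b)) := fun b => mean_nonneg fun η =>
        RR_nonneg hm _ _
  have hF0 : ∀ b, 0 ≤ F b := fun b => pow_nonneg (mul_nonneg (by norm_num) (hRRm b)) _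
  have hF1 : ∀ b ∈ ((univ : Finset (ι → Bool)).filter fun b =>
        ∃ τ ∈ T, 2 * ‖opT B τ (fun i => sg (b i))‖ ^ 2 ≤ m), 1 ≤ F b := by
    intro b hb
    obtain ⟨τ, hτ, hb⟩ := (mem_filter.mp hb).2
    refine one_le_pow₀ ?_
    have hd := decouple (opT B τ) (fun i => sg (b i))
    have hdiag : ∑ i, sg (b i) ^ 2 * ‖opT B τ (Pi.single i 1)‖ ^ 2 = m := by
      rw [← hfrob τ hτ]
      unfold frob
      exact Finset.sum_congr rfl fun i _ => by rw [sg_sq, one_mul]
    rw [hdiag] at hd
    have hcmp : -(m * mean (fun η : ι → Bool =>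
        RR B T hT m (rs (univ.filter fun i => η i = true) b)
          (rs (univ.filter fun i => η i = false) b))) ≤
        mean (fun η : ι → Bool => inner ℝ (opT B τ (fun i => if η i then sg (b i) else 0))
          (opT B τ (fun i => if η i then 0 else sg (b i)))) := by
      rw [← mean_mul_left, ← neg_one_mul, ← mean_mul_left]
      refine mean_mono fun η => ?_
      have e1 : (fun i => if η i then sg (b i) else 0)
          = rs (univ.filter fun i => η i = true) b := by
        funext i
        simp [rs]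
      have e2 : (fun i => if η i then 0 else sg (b i))
          = rs (univ.filter fun i => η i = false) b := by
        funext i
        cases h : η i <;> simp [rs, h]
      rw [e1, e2]
      have := le_RR (B := B) (hT := hT) hm hτ (rs (univ.filter fun i => η i = true) b)
        (rs (univ.filter fun i => η i = false) b)
      have h' : -|(inner ℝ (opT B τ (rs (univ.filter fun i => η i = true) b))
        (opT B τ (rs (univ.filter fun i => η i = false) b)) : ℝ)| ≤ _ := neg_abs_le _
      linarith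
    have h3 : m * mean (fun η : ι → Bool =>
        RR B T hT m (rs (univ.filter fun i => η i = true) b)
          (rs (univ.filter fun i => η i = false) b)) ≥ m / 8 := by
      linarith
    by_contra hc
    push Not at hc
    nlinarith
  have hcard := card_le_mean _ F hF0 hF1
  have hmeanF : mean F ≤ (8 * θ) ^ (2 * P) := by
    rw [hF, mul_pow]
    simp only [mul_pow]
    rw [mean_mul_left]
    refine mul_le_mul_of_nonneg_left ?_ (by positivity)
    calc mean (fun b : ι → Bool => (mean (fun η : ι → Bool =>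
          RR B T hT m (rs (univ.filter fun i => η i = true) b)
            (rs (univ.filter fun i => η i = false) b))) ^ (2 * P))
        ≤ mean (fun b : ι → Bool => mean (fun η : ι → Bool =>
          RR B T hT m (rs (univ.filter fun i => η i = true) b)
            (rs (univ.filter fun i => η i = false) b) ^ (2 * P))) :=
          mean_mono fun b => jensen_pow (2 * P) _ fun η => RR_nonneg hm _ _
      _ = mean (fun η : ι → Bool => mean (fun b : ι → Bool =>
          RR B T hT m (rs (univ.filter fun i => η i = true) b)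
            (rs (univ.filter fun i => η i = false) b) ^ (2 * P))) := mean_comm _
      _ ≤ mean (fun _ : ι → Bool => θ ^ (2 * P)) := by
          refine mean_mono fun η => ?_
          have hdis : Disjoint (univ.filter fun i => η i = true)
              (univ.filter fun i => η i = false) := by
            rw [Finset.disjoint_left]
            intro i h1 h2
            simp only [mem_filter, mem_univ, true_and] at h1 h2
            rw [h1] at h2
            exact absurd h2 (by decide)
          rw [mean_swap _ _ hdis (fun v v' => RR B T hT m v v' ^ (2 * P))]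
          exact hmax _ _
      _ = θ ^ (2 * P) := mean_const _
  have hfin2 : (8 * θ) ^ (2 * P) ≤ Real.exp (-(2 * P)) := by
    have : Real.exp (-(2 * P)) = Real.exp (-1) ^ (2 * P) := by
      rw [← Real.exp_nat_mul]
      congr 1
      push_cast
      ring
    rw [this]
    exact pow_le_pow_left₀ (by positivity) h8 _
  refine hcard.trans ?_
  have hc : (Fintype.card (ι → Bool) : ℝ) = 2 ^ Fintype.card ι := by
    rw [Fintype.card_fun, Fintype.card_bool]
    push_cast
    rfl
  rw [hc]
  exact mul_le_mul_of_nonneg_right (hmeanF.trans hfin2) (by positivity)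

end Pool.Agent.Lib.MP_938ce2_ag_h82
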