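import Mathlib

set_option autoImplicit false

namespace Pool.Agent.Lib.MP_938ce2_ag_h82

open Finset

private lemma sqrt_le_prod {x c y z : ℝ} (hc : 0 ≤ c) (hy : 0 ≤ y) (hz : 0 ≤ z)
    (h : x ≤ c ^ 2 * y * z) : √x ≤ c * √y * √z := by
  refine Real.sqrt_le_iff.2 ⟨by positivity, ?_⟩
  rw [mul_pow, mul_pow, Real.sq_sqrt hy, Real.sq_sqrt hz]
  exact h

private lemma sum_sqrt_two_pow {L N : ℕ} (hL : 2 ^ L ≤ 2 * N) :
    ∑ k ∈ range L, √((2 : ℝ) ^ k) ≤ (2 + √2) * √(N : ℝ) := by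
  have h2 : (√2 : ℝ) ^ 2 = 2 := Real.sq_sqrt (by norm_num)
  have hk : ∀ k : ℕ, √((2 : ℝ) ^ k) = (√2) ^ k := by
    intro k
    have h : ((√2 : ℝ) ^ k) ^ 2 = 2 ^ k := by rw [← pow_mul, mul_comm, pow_mul, h2]
    rw [← h, Real.sqrt_sq (by positivity)]
  have hs : ∑ k ∈ range L, √((2 : ℝ) ^ k) = ((√2) ^ L - 1) * (√2 + 1) := by
    have h := geom_sum_mul (√2 : ℝ) L
    calc ∑ k ∈ range L, √((2 : ℝ) ^ k) = ∑ k ∈ range L, (√2 : ℝ) ^ k :=
          Finset.sum_congr rfl fun k _ => hk k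
      _ = (∑ k ∈ range L, (√2 : ℝ) ^ k) * (√2 - 1) * (√2 + 1) := by
          rw [mul_assoc]
          have : ((√2 : ℝ) - 1) * (√2 + 1) = 1 := by nlinarith
          rw [this, mul_one]
      _ = _ := by rw [h]
  have hLr : (√2 : ℝ) ^ L ≤ √2 * √(N : ℝ) := by
    rw [← hk L, ← Real.sqrt_mul (by norm_num : (0 : ℝ) ≤ 2)]
    refine Real.sqrt_le_sqrt ?_
    exact_mod_cast hL
  rw [hs]
  have h0 : 0 ≤ (√2 : ℝ) := Real.sqrt_nonneg 2
  have hN0 : 0 ≤ √(N : ℝ) := Real.sqrt_nonneg _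
  nlinarith [mul_nonneg h0 hN0]

/-- the constants of the chain. Every link is at most
`9 * e * √A * (2 * √(2 ^ k) * √(P + 1) + √(3 * N * l))`, because `N / m ≤ 1` and
`⌈y⌉₊ ≤ y + 1`; `∑ k ∈ range L, √(2 ^ k) = (√(2 ^ L) - 1) / (√2 - 1) ≤ (2 + √2) * √N`; the base term is
at most `√(e * P * A * N)`; `18 * e * 2 * (2 + √2) + √e ≤ 336`, `18 * e * √3 ≤ 85`. -/
theorem kappa_le {N L P : ℕ} {m A β l : ℝ} (hN : 1 ≤ N) (hm : (N : ℝ) ≤ m) (hβ : 0 ≤ β)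
    (hA : 2 * Real.exp 1 * β ≤ A) (hl : 0 ≤ l) (hL : 2 ^ L ≤ 2 * N) :
    √(Real.exp 2 * (2 * P) * ((N : ℝ) ^ 2 * β) / m)
      + 2 * ∑ k ∈ range L,
          √(Real.exp 2 * (2 * ((P + ⌈3 / 4 * ((N : ℝ) / 2 ^ k) * l⌉₊ : ℕ) : ℝ))
            * (81 * A * N * 2 ^ (k + 1)) / m)
      ≤ √(A * N) * (336 * √((P : ℝ) + 1) + 85 * L * √l) := by
  have hN1 : (1 : ℝ) ≤ N := by exact_mod_cast hN
  have hN0 : (0 : ℝ) < N := by linarith
  have hm0 : 0 < m := by linarith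
  have hP0 : (0 : ℝ) ≤ P := Nat.cast_nonneg _
  have he1 : Real.exp 1 < 2.7182818286 := Real.exp_one_lt_d9
  have he0 : 2.7182818283 < Real.exp 1 := Real.exp_one_gt_d9
  have he2 : Real.exp 2 = Real.exp 1 ^ 2 := by rw [← Real.exp_nat_mul]; norm_num
  have he2' : Real.exp 2 ≤ 7.3891 := by rw [he2]; nlinarith
  have he20 : 0 < Real.exp 2 := Real.exp_pos _
  have hA0 : 0 ≤ A := by
    have : 0 ≤ 2 * Real.exp 1 * β := by positivity
    linarith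
  have hNm : (N : ℝ) / m ≤ 1 := by rw [div_le_one hm0]; exact hm
  have hNm0 : 0 ≤ (N : ℝ) / m := by positivity
  -- base term
  have hbase : √(Real.exp 2 * (2 * P) * ((N : ℝ) ^ 2 * β) / m)
      ≤ 1.65 * √((P : ℝ) + 1) * √(A * N) := by
    refine sqrt_le_prod (by norm_num) (by linarith) (by positivity) ?_
    have h1 : Real.exp 2 * (2 * P) * ((N : ℝ) ^ 2 * β) / m
        = Real.exp 1 * P * (2 * Real.exp 1 * β) * N * (N / m) := by
      rw [he2]; ring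
    rw [h1]
    have h2 : 0 ≤ Real.exp 1 * P * (2 * Real.exp 1 * β) * N := by positivity
    calc Real.exp 1 * P * (2 * Real.exp 1 * β) * N * (N / m)
        ≤ Real.exp 1 * P * (2 * Real.exp 1 * β) * N * 1 :=
          mul_le_mul_of_nonneg_left hNm h2
      _ = Real.exp 1 * P * N * (2 * Real.exp 1 * β) := by ring
      _ ≤ Real.exp 1 * P * N * A := mul_le_mul_of_nonneg_left hA (by positivity)
      _ = Real.exp 1 * (P * (A * N)) := by ring
      _ ≤ 2.7182818286 * (P * (A * N)) := by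
          refine mul_le_mul_of_nonneg_right he1.le (by positivity)
      _ ≤ 1.65 ^ 2 * (P + 1) * (A * N) := by
          have : 0 ≤ A * N := by positivity
          nlinarith [mul_nonneg hP0 this]
  -- links
  have hlink : ∀ k ∈ range L,
      √(Real.exp 2 * (2 * ((P + ⌈3 / 4 * ((N : ℝ) / 2 ^ k) * l⌉₊ : ℕ) : ℝ))
            * (81 * A * N * 2 ^ (k + 1)) / m)
        ≤ 48.93 * √((P : ℝ) + 1) * √A * √((2 : ℝ) ^ k) + 42.5 * √l * √(A * N) := by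
    intro k _
    have hc : ((⌈3 / 4 * ((N : ℝ) / 2 ^ k) * l⌉₊ : ℕ) : ℝ)
        ≤ 3 / 4 * ((N : ℝ) / 2 ^ k) * l + 1 :=
      (Nat.ceil_lt_add_one (by positivity)).le
    have h2k : (0 : ℝ) < 2 ^ k := by positivity
    have hpc : ((P + ⌈3 / 4 * ((N : ℝ) / 2 ^ k) * l⌉₊ : ℕ) : ℝ)
        ≤ (P + 1) + 3 / 4 * ((N : ℝ) / 2 ^ k) * l := by
      push_cast
      linarith
    have hx : Real.exp 2 * (2 * ((P + ⌈3 / 4 * ((N : ℝ) / 2 ^ k) * l⌉₊ : ℕ) : ℝ))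
            * (81 * A * N * 2 ^ (k + 1)) / m
        ≤ (48.93 * √((P : ℝ) + 1) * √A * √((2 : ℝ) ^ k)) ^ 2 + (42.5 * √l * √(A * N)) ^ 2 := by
      have h3 : Real.exp 2 * (2 * ((P + ⌈3 / 4 * ((N : ℝ) / 2 ^ k) * l⌉₊ : ℕ) : ℝ))
            * (81 * A * N * 2 ^ (k + 1)) / m
          = (Real.exp 2 * 324 * A * 2 ^ k) * (N / m)
            * ((P + ⌈3 / 4 * ((N : ℝ) / 2 ^ k) * l⌉₊ : ℕ) : ℝ) := by
        rw [pow_succ]; ring
      rw [h3]
      have h4 : (Real.exp 2 * 324 * A * 2 ^ k) * (N / m)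
          * ((P + ⌈3 / 4 * ((N : ℝ) / 2 ^ k) * l⌉₊ : ℕ) : ℝ)
          ≤ (Real.exp 2 * 324 * A * 2 ^ k) * 1
          * ((P + 1) + 3 / 4 * ((N : ℝ) / 2 ^ k) * l) := by
        refine mul_le_mul (mul_le_mul_of_nonneg_left hNm (by positivity)) hpc (by positivity)
          (by positivity)
      refine h4.trans ?_
      have h5 : (Real.exp 2 * 324 * A * 2 ^ k) * 1 * ((P + 1) + 3 / 4 * ((N : ℝ) / 2 ^ k) * l)
          = Real.exp 2 * (324 * (A * 2 ^ k * (P + 1)) + 243 * (A * N * l)) := by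
        field_simp
        ring
      rw [h5]
      rw [mul_pow, mul_pow, mul_pow, mul_pow, mul_pow, Real.sq_sqrt (by linarith : (0 : ℝ) ≤ (P : ℝ) + 1),
        Real.sq_sqrt hA0, Real.sq_sqrt h2k.le, Real.sq_sqrt hl,
        Real.sq_sqrt (by positivity : (0 : ℝ) ≤ A * N)]
      have h6 : 0 ≤ A * 2 ^ k * ((P : ℝ) + 1) := by positivity
      have h7 : 0 ≤ A * N * l := by positivity
      have h8 : Real.exp 2 * (324 * (A * 2 ^ k * (P + 1)) + 243 * (A * N * l))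
          ≤ 7.3891 * (324 * (A * 2 ^ k * (P + 1)) + 243 * (A * N * l)) :=
        mul_le_mul_of_nonneg_right he2' (by positivity)
      nlinarith
    refine Real.sqrt_le_iff.2 ⟨by positivity, hx.trans ?_⟩
    have h9 : 0 ≤ 48.93 * √((P : ℝ) + 1) * √A * √((2 : ℝ) ^ k) := by positivity
    have h10 : 0 ≤ 42.5 * √l * √(A * N) := by positivity
    nlinarith [mul_nonneg h9 h10]
  have hsum : ∑ k ∈ range L,
          √(Real.exp 2 * (2 * ((P + ⌈3 / 4 * ((N : ℝ) / 2 ^ k) * l⌉₊ : ℕ) : ℝ))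
            * (81 * A * N * 2 ^ (k + 1)) / m)
      ≤ 48.93 * √((P : ℝ) + 1) * √A * ((2 + √2) * √(N : ℝ)) + L * (42.5 * √l * √(A * N)) := by
    refine (Finset.sum_le_sum hlink).trans ?_
    rw [Finset.sum_add_distrib, Finset.sum_const, card_range, nsmul_eq_mul, ← Finset.mul_sum]
    refine add_le_add ?_ le_rfl
    exact mul_le_mul_of_nonneg_left (sum_sqrt_two_pow hL) (by positivity)
  have hAN : √(A * N) = √A * √(N : ℝ) := Real.sqrt_mul hA0 _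
  have hs2 : √(2 : ℝ) ≤ 1.41422 := by
    refine Real.sqrt_le_iff.2 ⟨by norm_num, by norm_num⟩
  have hY : 0 ≤ √((P : ℝ) + 1) * √(A * N) := by positivity
  calc √(Real.exp 2 * (2 * P) * ((N : ℝ) ^ 2 * β) / m)
      + 2 * ∑ k ∈ range L,
          √(Real.exp 2 * (2 * ((P + ⌈3 / 4 * ((N : ℝ) / 2 ^ k) * l⌉₊ : ℕ) : ℝ))
            * (81 * A * N * 2 ^ (k + 1)) / m)
      ≤ 1.65 * √((P : ℝ) + 1) * √(A * N)
        + 2 * (48.93 * √((P : ℝ) + 1) * √A * ((2 + √2) * √(N : ℝ))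
          + L * (42.5 * √l * √(A * N))) := by linarith
    _ = (1.65 + 97.86 * (2 + √2)) * (√((P : ℝ) + 1) * √(A * N))
        + 85 * L * √l * √(A * N) := by rw [hAN]; ring
    _ ≤ 336 * (√((P : ℝ) + 1) * √(A * N)) + 85 * L * √l * √(A * N) := by
        have : (1.65 + 97.86 * (2 + √2) : ℝ) ≤ 336 := by linarith
        exact add_le_add (mul_le_mul_of_nonneg_right this hY) le_rfl
    _ = √(A * N) * (336 * √((P : ℝ) + 1) + 85 * L * √l) := by ring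

end Pool.Agent.Lib.MP_938ce2_ag_h82
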