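import Mathlib
import Pool.Agent.Lib.MP_938ce2_ag_h82.R08
import Pool.Agent.Lib.MP_938ce2_ag_h82.R09b
import Pool.Agent.Lib.MP_938ce2_ag_h82.R09c
import Pool.Agent.Lib.MP_938ce2_ag_h82.R11
import Pool.Agent.Lib.MP_938ce2_ag_h82.R13
import Pool.Agent.Lib.MP_938ce2_ag_h82.R14
import Pool.Agent.Lib.MP_938ce2_ag_h82.R15a

set_option autoImplicit false
set_option linter.unusedSectionVars false

namespace Pool.Agent.Lib.MP_938ce2_ag_h82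

open Finset

variable {ι : Type} [Fintype ι] [DecidableEq ι] {X : Type} [Fintype X] [DecidableEq X] {H : Type}
  [NormedAddCommGroup H] [InnerProductSpace ℝ H]

private lemma opLe_opT {B : X → (ι → ℝ) →ₗ[ℝ] H} {β : ℝ} (hB : ∀ x, OpLe (B x) β) {N : ℕ}
    (τ : Fin N → X) : OpLe (opT B τ) ((N : ℝ) ^ 2 * β) := by
  intro v
  have h1 : opT B τ v = ∑ k, B (τ k) v := by
    unfold opT
    rw [LinearMap.sum_apply]
  rw [h1]
  have h2 : ‖∑ k, B (τ k) v‖ ≤ ∑ k, ‖B (τ k) v‖ := norm_sum_le _ _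
  have h3 : (∑ k, ‖B (τ k) v‖) ^ 2 ≤ (N : ℝ) * ∑ k, ‖B (τ k) v‖ ^ 2 := by
    have h := sq_sum_le_card_mul_sum_sq (s := (Finset.univ : Finset (Fin N)))
      (f := fun k => ‖B (τ k) v‖)
    simpa using h
  have h4 : ∑ k, ‖B (τ k) v‖ ^ 2 ≤ ∑ _k : Fin N, β * ∑ i, v i ^ 2 :=
    Finset.sum_le_sum fun k _ => hB (τ k) v
  have h5 : ∑ _k : Fin N, β * ∑ i, v i ^ 2 = (N : ℝ) * (β * ∑ i, v i ^ 2) := by
    rw [Finset.sum_const, Finset.card_univ, Fintype.card_fin, nsmul_eq_mul]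
  calc ‖∑ k, B (τ k) v‖ ^ 2 ≤ (∑ k, ‖B (τ k) v‖) ^ 2 :=
        pow_le_pow_left₀ (norm_nonneg _) h2 2
    _ ≤ (N : ℝ) * ∑ k, ‖B (τ k) v‖ ^ 2 := h3
    _ ≤ (N : ℝ) * ((N : ℝ) * (β * ∑ i, v i ^ 2)) := by
        rw [← h5]
        exact mul_le_mul_of_nonneg_left h4 (Nat.cast_nonneg _)
    _ = (N : ℝ) ^ 2 * β * ∑ i, v i ^ 2 := by ring

private lemma card_pow_le {c N P k : ℕ} :
    (((c + 1) ^ (N / 2 ^ k + N / 2 ^ (k + 1)) : ℕ) : ℝ)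
      ≤ Real.exp (2 * ((P + ⌈3 / 4 * ((N : ℝ) / 2 ^ k) * Real.log ((c : ℝ) + 1)⌉₊ : ℕ) : ℝ)) := by
  have hc : (0 : ℝ) < (c : ℝ) + 1 := by positivity
  have hl : 0 ≤ Real.log ((c : ℝ) + 1) := Real.log_nonneg (by linarith [Nat.cast_nonneg (α := ℝ) c])
  have h1 : (((c + 1) ^ (N / 2 ^ k + N / 2 ^ (k + 1)) : ℕ) : ℝ)
      = Real.exp (((N / 2 ^ k + N / 2 ^ (k + 1) : ℕ) : ℝ) * Real.log ((c : ℝ) + 1)) := by
    rw [Real.exp_nat_mul, Real.exp_log hc]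
    push_cast
    ring
  rw [h1]
  refine Real.exp_le_exp.2 ?_
  have h2 : ((N / 2 ^ k : ℕ) : ℝ) ≤ (N : ℝ) / 2 ^ k := by
    have := Nat.cast_div_le (α := ℝ) (m := N) (n := 2 ^ k)
    simpa using this
  have h3 : ((N / 2 ^ (k + 1) : ℕ) : ℝ) ≤ (N : ℝ) / 2 ^ k / 2 := by
    have := Nat.cast_div_le (α := ℝ) (m := N) (n := 2 ^ (k + 1))
    refine this.trans (le_of_eq ?_)
    push_cast
    rw [pow_succ]
    field_simp
  have h4 : ((N / 2 ^ k + N / 2 ^ (k + 1) : ℕ) : ℝ) * Real.log ((c : ℝ) + 1)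
      ≤ 2 * (3 / 4 * ((N : ℝ) / 2 ^ k) * Real.log ((c : ℝ) + 1)) := by
    push_cast
    have h5 : ((N / 2 ^ k : ℕ) : ℝ) + ((N / 2 ^ (k + 1) : ℕ) : ℝ) ≤ 3 / 2 * ((N : ℝ) / 2 ^ k) := by
      linarith
    have h6 := mul_le_mul_of_nonneg_right h5 hl
    linarith
  have h7 : 3 / 4 * ((N : ℝ) / 2 ^ k) * Real.log ((c : ℝ) + 1)
      ≤ ((⌈3 / 4 * ((N : ℝ) / 2 ^ k) * Real.log ((c : ℝ) + 1)⌉₊ : ℕ) : ℝ) := Nat.le_ceil _
  push_cast at h4 ⊢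
  have h8 : (0 : ℝ) ≤ P := Nat.cast_nonneg _
  linarith

/-- **Theorem C.** The number of sign vectors for which some quadratic form is at most half of its
mean. Assembly: `halving`, `patterns`, `reps` with `A = 2 e 2 ^ (t + 1) β`, `RR_moment` with
`r k = P + ⌈3 / 4 * (N / 2 ^ k) * log (card X + 1)⌉₊`, `K k = 81 A N 2 ^ (k + 1)`, `Kb = N ^ 2 β`,
`kappa_le`, `share_le` (the supremum over an empty `T` is excluded at the start). -/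
theorem theoremC (B : X → (ι → ℝ) →ₗ[ℝ] H) {β : ℝ} (hβ : 0 ≤ β) (hB : ∀ x, OpLe (B x) β) (t : ℕ)
    (ht : (Fintype.card ι : ℝ) ≤ Real.exp (2 ^ (t + 1))) {N : ℕ} (hN : 1 ≤ N)
    (T : Finset (Fin N → X)) {m : ℝ} (hm : (N : ℝ) ≤ m) (hfrob : ∀ τ ∈ T, frob (opT B τ) = m)
    {P : ℕ} (hP : 1 ≤ P) (L : ℕ) (hL1 : N < 2 ^ L) (hL2 : 2 ^ L ≤ 2 * N)
    (hκ : √(2 * Real.exp 1 * 2 ^ (t + 1) * β * N)
      * (336 * √((P : ℝ) + 1) + 85 * L * √(Real.log ((Fintype.card X : ℝ) + 1))) ≤ 1 / 32) :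
    (((univ : Finset (ι → Bool)).filter fun b =>
        ∃ τ ∈ T, 2 * ‖opT B τ (fun i => sg (b i))‖ ^ 2 ≤ m).card : ℝ)
      ≤ Real.exp (-(2 * P)) * 2 ^ Fintype.card ι := by
  classical
  rcases T.eq_empty_or_nonempty with hT0 | hT
  · subst hT0
    have h0 : ((univ : Finset (ι → Bool)).filter fun b =>
        ∃ τ ∈ (∅ : Finset (Fin N → X)), 2 * ‖opT B τ (fun i => sg (b i))‖ ^ 2 ≤ m) = ∅ := by
      refine Finset.filter_eq_empty_iff.2 fun b _ h => ?_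
      obtain ⟨τ, hτ, _⟩ := h
      exact absurd hτ (Finset.notMem_empty _)
    rw [h0, Finset.card_empty, Nat.cast_zero]
    positivity
  have hN1 : (1 : ℝ) ≤ N := by exact_mod_cast hN
  have hm0 : 0 < m := by linarith
  have hL0 : L ≠ 0 := by
    rintro rfl
    rw [pow_zero] at hL1
    omega
  obtain ⟨A, hAdef⟩ : ∃ A : ℝ, A = 2 * Real.exp 1 * 2 ^ (t + 1) * β := ⟨_, rfl⟩
  have he : 0 < Real.exp 1 := Real.exp_pos 1
  have hA : 0 ≤ A := by rw [hAdef]; positivity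
  have hA2 : 2 * Real.exp 1 * β ≤ A := by
    have h2 : (1 : ℝ) ≤ 2 ^ (t + 1) := one_le_pow₀ (by norm_num)
    have h3 : 0 ≤ 2 * Real.exp 1 * β := by positivity
    calc 2 * Real.exp 1 * β = 2 * Real.exp 1 * β * 1 := (mul_one _).symm
      _ ≤ 2 * Real.exp 1 * β * 2 ^ (t + 1) := mul_le_mul_of_nonneg_left h2 h3
      _ = A := by rw [hAdef]; ring
  obtain ⟨pat, hpat⟩ := patterns B hA (fun n w => by
    rw [hAdef]; exact halving B hβ hB t ht w) N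
  obtain ⟨π, h0, hπ, hLeq, hcard, hop⟩ := reps B hA pat hpat T L hL1 hL0
  set l : ℝ := Real.log ((Fintype.card X : ℝ) + 1) with hl
  have hl0 : 0 ≤ l := Real.log_nonneg (by
    have := Nat.cast_nonneg (α := ℝ) (Fintype.card X)
    linarith)
  have hmain := kappa_le (P := P) hN hm hβ hA2 hl0 hL2
  have hκ' : √(A * N) * (336 * √((P : ℝ) + 1) + 85 * L * √l) ≤ 1 / 32 := by
    rw [hAdef]; exact hκ
  have hbase0 : 0 ≤ √(Real.exp 2 * (2 * P) * ((N : ℝ) ^ 2 * β) / m) := Real.sqrt_nonneg _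
  have hsum0 : 0 ≤ ∑ k ∈ range L,
          √(Real.exp 2 * (2 * ((P + ⌈3 / 4 * ((N : ℝ) / 2 ^ k) * l⌉₊ : ℕ) : ℝ))
            * (81 * A * N * 2 ^ (k + 1)) / m) :=
    Finset.sum_nonneg fun _ _ => Real.sqrt_nonneg _
  refine share_le B T hT hm0 hfrob hP
    (κ := √(Real.exp 2 * (2 * P) * ((N : ℝ) ^ 2 * β) / m)
      + 2 * ∑ k ∈ range L,
          √(Real.exp 2 * (2 * ((P + ⌈3 / 4 * ((N : ℝ) / 2 ^ k) * l⌉₊ : ℕ) : ℝ))
            * (81 * A * N * 2 ^ (k + 1)) / m))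
    (by positivity) (hmain.trans hκ') ?_
  intro θ hθ hS Z Z'
  refine RR_moment B T hT hm0 hP hθ hS L π h0 hπ hLeq
    (fun k => P + ⌈3 / 4 * ((N : ℝ) / 2 ^ k) * l⌉₊) (fun k => Nat.le_add_right _ _) ?_
    (fun k => 81 * A * N * 2 ^ (k + 1)) (fun k => by positivity)
    (fun k _ τ hτ => hop k τ hτ) (by positivity) (fun τ _ => opLe_opT hB τ) Z Z'
  intro k _
  refine le_trans (by exact_mod_cast hcard k) (card_pow_le (P := P))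

end Pool.Agent.Lib.MP_938ce2_ag_h82
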