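import Mathlib
import Pool.Agent.Lib.MP_938ce2_ag_h82.Defs3

set_option autoImplicit false
set_option linter.unusedSectionVars false

namespace Pool.Agent.Lib.MP_938ce2_ag_h82

open Finset
open Pool.Agent.Lib.MP_938ce2_ag_h60 (CMType)
open Pool.Agent.Lib.MP_938ce2_ag_h65 (elem vec vec_odd elem_odd elem_smul sum_eq_sum_ref)

variable {Γ : Type} [Group Γ] [Fintype Γ] {X : Type} [MulAction Γ X] [Fintype X] [DecidableEq X]
  {c : Γ} {Φ₀ : Finset X}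

omit [Fintype Γ] [Fintype X] in
private lemma elem_smul_left (hcc : ∀ γ : Γ, c * γ = γ * c) (γ : Γ) (y x : X) :
    elem c (γ • y) x = elem c y (γ⁻¹ • x) := by
  unfold elem
  have h1 : (γ • y = x) ↔ (y = γ⁻¹ • x) := smul_eq_iff_eq_inv_smul γ
  have h2 : (c • γ • y = x) ↔ (c • y = γ⁻¹ • x) := by
    rw [smul_smul, hcc, mul_smul]
    exact smul_eq_iff_eq_inv_smul γ
  simp only [h1, h2]

/-- the squared norm of the image of a vector, by `elem c (γ • y) x = elem c y (γ⁻¹ • x)` and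
`γ ↦ γ⁻¹` -/
theorem norm_opT (hcc : ∀ γ : Γ, c * γ = γ * c) {n : ℕ} (τ : Fin n → X) (v : Φ₀ → ℝ) :
    ‖opT (opB c Φ₀) τ v‖ ^ 2
      = (Fintype.card Γ : ℝ)⁻¹ * ∑ γ : Γ, (∑ i : Φ₀, v i * (vec c τ (γ • (i : X)) : ℝ)) ^ 2 := by
  have h1 : ∀ γ : Γ, opT (opB c Φ₀) τ v γ =
      (√(Fintype.card Γ : ℝ))⁻¹ * ∑ i : Φ₀, v i * (vec c τ (γ⁻¹ • (i : X)) : ℝ) := by
    intro γ
    have h2 : opT (opB c Φ₀) τ v γ = ∑ k, opB c Φ₀ (τ k) v γ := by
      unfold opT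
      rw [LinearMap.sum_apply, WithLp.ofLp_sum, Finset.sum_apply]
    rw [h2]
    simp only [opB_apply, extV]
    rw [← Finset.mul_sum, Finset.sum_comm]
    congr 1
    refine Finset.sum_congr rfl fun i _ => ?_
    rw [← Finset.mul_sum]
    congr 1
    unfold vec
    push_cast
    refine Finset.sum_congr rfl fun k _ => ?_
    rw [elem_smul_left hcc]
  rw [EuclideanSpace.norm_sq_eq]
  have h3 : ∀ γ : Γ, ‖opT (opB c Φ₀) τ v γ‖ ^ 2 =
      (Fintype.card Γ : ℝ)⁻¹ * (∑ i : Φ₀, v i * (vec c τ (γ⁻¹ • (i : X)) : ℝ)) ^ 2 := by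
    intro γ
    rw [h1, Real.norm_eq_abs, sq_abs, mul_pow, inv_pow, Real.sq_sqrt (Nat.cast_nonneg _)]
  rw [Finset.sum_congr rfl fun γ _ => h3 γ, ← Finset.mul_sum]
  congr 1
  exact Equiv.sum_comp (Equiv.inv Γ)
    (fun γ : Γ => (∑ i : Φ₀, v i * (vec c τ (γ • (i : X)) : ℝ)) ^ 2)

omit [Fintype Γ] in
private lemma sum_even (hc2 : c * c = 1) (hΦ₀ : CMType c Φ₀) (f : X → ℝ)
    (hf : ∀ x, f (c • x) = f x) : ∑ x, f x = 2 * ∑ i : Φ₀, f i := by
  have h1 : ∑ x ∈ Φ₀ᶜ, f x = ∑ x ∈ Φ₀, f x := by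
    refine Finset.sum_nbij' (fun x => c • x) (fun x => c • x) ?_ ?_ ?_ ?_ ?_
    · intro x hx
      rw [Finset.mem_compl] at hx
      by_contra h
      exact hx ((hΦ₀ x).2 h)
    · intro x hx
      rw [Finset.mem_compl]
      exact (hΦ₀ x).1 hx
    · intro x _
      rw [smul_smul, hc2, one_smul]
    · intro x _
      rw [smul_smul, hc2, one_smul]
    · intro x _
      exact (hf x).symm
  rw [← Finset.sum_add_sum_compl Φ₀, h1, ← Finset.sum_coe_sort Φ₀ f]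
  ring

/-- the sum of the squares of an odd function over a CM type does not depend on the translate -/
theorem sum_sq_smul (hcc : ∀ γ : Γ, c * γ = γ * c) (hc2 : c * c = 1) (hΦ₀ : CMType c Φ₀) {n : ℕ}
    (τ : Fin n → X) (γ : Γ) :
    ∑ i : Φ₀, (vec c τ (γ • (i : X)) : ℝ) ^ 2 = mT c Φ₀ τ := by
  have h1 : ∀ x, (vec c τ (c • x) : ℝ) ^ 2 = (vec c τ x : ℝ) ^ 2 := by
    intro x
    rw [vec_odd hc2]
    push_cast
    ring
  have h2 := sum_even hc2 hΦ₀ (fun x => (vec c τ x : ℝ) ^ 2) h1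
  have h3 := sum_even hc2 hΦ₀ (fun x => (vec c τ (γ • x) : ℝ) ^ 2) (by
    intro x
    rw [smul_smul, ← hcc, mul_smul, h1])
  have h4 : ∑ x, (vec c τ (γ • x) : ℝ) ^ 2 = ∑ x, (vec c τ x : ℝ) ^ 2 :=
    Equiv.sum_comp (MulAction.toPerm γ) (fun x => (vec c τ x : ℝ) ^ 2)
  have h5 : (mT c Φ₀ τ : ℝ) = ∑ i : Φ₀, (vec c τ (i : X) : ℝ) ^ 2 := by
    unfold mT
    push_cast
    rw [Finset.sum_coe_sort Φ₀ (fun x => (vec c τ x : ℝ) ^ 2)]
    refine Finset.sum_congr rfl fun i _ => ?_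
    rw [Nat.cast_natAbs]
    push_cast
    exact sq_abs _
  rw [h5]
  linarith

/-- the sum of the squared norms of the images of the unit vectors -/
theorem frob_opT (hcc : ∀ γ : Γ, c * γ = γ * c) (hc2 : c * c = 1) (hΦ₀ : CMType c Φ₀) {n : ℕ}
    (τ : Fin n → X) : frob (opT (opB c Φ₀) τ) = mT c Φ₀ τ := by
  unfold frob
  have h1 : ∀ i : Φ₀, ‖opT (opB c Φ₀) τ (Pi.single i 1)‖ ^ 2 =
      (Fintype.card Γ : ℝ)⁻¹ * ∑ γ : Γ, (vec c τ (γ • (i : X)) : ℝ) ^ 2 := by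
    intro i
    rw [norm_opT hcc]
    congr 1
    refine Finset.sum_congr rfl fun γ _ => ?_
    congr 1
    rw [Finset.sum_eq_single i]
    · rw [Pi.single_eq_same, one_mul]
    · intro j _ hj
      rw [Pi.single_eq_of_ne hj, zero_mul]
    · intro h
      exact absurd (Finset.mem_univ _) h
  rw [Finset.sum_congr rfl fun i _ => h1 i, ← Finset.mul_sum, Finset.sum_comm,
    Finset.sum_congr rfl fun γ _ => sum_sq_smul hcc hc2 hΦ₀ τ γ, Finset.sum_const,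
    Finset.card_univ, nsmul_eq_mul, ← mul_assoc, inv_mul_cancel₀, one_mul]
  exact_mod_cast Fintype.card_ne_zero

/-- the sign vector of a CM type, by `sum_eq_sum_ref` -/
theorem norm_opT_type (hcc : ∀ γ : Γ, c * γ = γ * c) (hc2 : c * c = 1) (hΦ₀ : CMType c Φ₀)
    {Φ : Finset X} (hΦ : CMType c Φ) {n : ℕ} (τ : Fin n → X) :
    ‖opT (opB c Φ₀) τ (fun i => sg (decide ((i : X) ∈ Φ)))‖ ^ 2
      = (Fintype.card Γ : ℝ)⁻¹ * ∑ γ : Γ, ((∑ φ ∈ Φ, vec c τ (γ • φ) : ℤ) : ℝ) ^ 2 := by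
  rw [norm_opT hcc]
  congr 1
  refine Finset.sum_congr rfl fun γ _ => ?_
  congr 1
  have h1 := sum_eq_sum_ref hc2 hΦ₀ hΦ (fun x => vec c τ (γ • x)) (by
    intro x
    rw [smul_smul, ← hcc, mul_smul, vec_odd hc2])
  rw [h1]
  push_cast
  have h2 : ∑ x ∈ Φ₀ \ Φ, (vec c τ (γ • x) : ℝ) =
      ∑ x ∈ Φ₀, if x ∈ Φ then 0 else (vec c τ (γ • x) : ℝ) := by
    rw [← Finset.filter_notMem_eq_sdiff, Finset.sum_filter]
    refine Finset.sum_congr rfl fun x _ => ?_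
    by_cases h : x ∈ Φ <;> simp [h]
  rw [h2, Finset.mul_sum, ← Finset.sum_sub_distrib,
    Finset.sum_coe_sort Φ₀ (fun x => sg (decide (x ∈ Φ)) * (vec c τ (γ • x) : ℝ))]
  refine Finset.sum_congr rfl fun x _ => ?_
  by_cases h : x ∈ Φ
  · simp [h, sg]
  · simp only [h, sg, decide_false, Bool.false_eq_true, if_false]
    ring

end Pool.Agent.Lib.MP_938ce2_ag_h82
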