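import Mathlib
import Pool.Agent.Lib.MP_938ce2_ag_h82.Defs3

set_option autoImplicit false
set_option linter.unusedSectionVars false

namespace Pool.Agent.Lib.MP_938ce2_ag_h82

open Finset
open Pool.Agent.Lib.MP_938ce2_ag_h60 (CMType)
open Pool.Agent.Lib.MP_938ce2_ag_h65 (elem vec vec_odd elem_odd elem_smul sum_eq_sum_ref)

variable {Γ : Type} [Group Γ] [Fintype Γ] {X : Type} [MulAction Γ X] [Fintype X] [DecidableEq X]
  {c : Γ} {Φ₀ : Finset X}

omit [Fintype Γ] in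
private lemma sum_even' (hc2 : c * c = 1) (hΦ₀ : CMType c Φ₀) (f : X → ℝ)
    (hf : ∀ x, f (c • x) = f x) : ∑ x, f x = 2 * ∑ i : Φ₀, f i := by
  have h1 : ∑ x ∈ Φ₀ᶜ, f x = ∑ x ∈ Φ₀, f x := by
    refine Finset.sum_nbij' (fun x => c • x) (fun x => c • x) ?_ ?_ ?_ ?_ ?_
    · intro x hx
      rw [Finset.mem_compl] at hx
      by_contra h
      exact hx ((hΦ₀ x).2 h)
    · intro x hx
      rw [Finset.mem_compl]
      exact (hΦ₀ x).1 hx
    · intro x _
      rw [smul_smul, hc2, one_smul]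
    · intro x _
      rw [smul_smul, hc2, one_smul]
    · intro x _
      exact (hf x).symm
  rw [← Finset.sum_add_sum_compl Φ₀, h1, ← Finset.sum_coe_sort Φ₀ f]
  ring

/-- the sum of the squares of the odd extension -/
theorem sum_extV_sq (hc2 : c * c = 1) (hΦ₀ : CMType c Φ₀) (v : Φ₀ → ℝ) :
    ∑ y : X, extV c Φ₀ v y ^ 2 = 2 * ∑ i, v i ^ 2 := by
  have h1 : ∀ y, extV c Φ₀ v (c • y) = - extV c Φ₀ v y := by
    intro y
    unfold extV
    rw [← Finset.sum_neg_distrib]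
    refine Finset.sum_congr rfl fun i _ => ?_
    rw [elem_smul hc2]
    push_cast
    ring
  rw [sum_even' hc2 hΦ₀ (fun y => extV c Φ₀ v y ^ 2) (fun y => by
    rw [h1, neg_sq])]
  congr 1
  refine Finset.sum_congr rfl fun j _ => ?_
  congr 1
  unfold extV
  rw [Finset.sum_eq_single j]
  · have h2 : c • (j : X) ≠ j := by
      intro h
      exact (hΦ₀ (j : X)).1 j.2 (by rw [h]; exact j.2)
    simp [elem, h2]
  · intro i _ hij
    have h2 : (j : X) ≠ i := fun h => hij (Subtype.ext h.symm)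
    have h3 : c • (j : X) ≠ i := by
      intro h
      exact (hΦ₀ (j : X)).1 j.2 (by rw [h]; exact i.2)
    simp [elem, h2, h3]
  · intro h
    exact absurd (Finset.mem_univ _) h

/-- averaging over an orbit -/
theorem orbit_average (f : X → ℝ) (hf : ∀ y, 0 ≤ f y) (x : X) :
    ((MulAction.orbit Γ x).ncard : ℝ) * ∑ γ : Γ, f (γ • x) ≤ Fintype.card Γ * ∑ y : X, f y := by
  classical
  have h1 : (MulAction.orbit Γ x).ncard = (MulAction.orbit Γ x).toFinset.card :=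
    Set.ncard_eq_toFinset_card' _
  have h2 : ((MulAction.orbit Γ x).ncard : ℝ) * ∑ γ : Γ, f (γ • x) =
      ∑ z ∈ (MulAction.orbit Γ x).toFinset, ∑ γ : Γ, f (γ • z) := by
    rw [h1, ← nsmul_eq_mul, ← Finset.sum_const]
    refine Finset.sum_congr rfl fun z hz => ?_
    rw [Set.mem_toFinset, MulAction.mem_orbit_iff] at hz
    obtain ⟨δ, rfl⟩ := hz
    simp only [smul_smul]
    exact (Equiv.sum_comp (Equiv.mulRight δ) (fun γ : Γ => f (γ • x))).symm
  rw [h2, Finset.sum_comm]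
  calc ∑ γ : Γ, ∑ z ∈ (MulAction.orbit Γ x).toFinset, f (γ • z)
      ≤ ∑ _γ : Γ, ∑ y : X, f y := by
        refine Finset.sum_le_sum fun γ _ => ?_
        calc ∑ z ∈ (MulAction.orbit Γ x).toFinset, f (γ • z) ≤ ∑ z : X, f (γ • z) :=
              Finset.sum_le_sum_of_subset_of_nonneg (Finset.subset_univ _) fun y _ _ => hf _
          _ = ∑ y : X, f y := Equiv.sum_comp (MulAction.toPerm γ) f
    _ = _ := by rw [Finset.sum_const, Finset.card_univ, nsmul_eq_mul]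

/-- the maps are contractions with a factor which depends on the length of the orbits -/
theorem opB_le (hc2 : c * c = 1) (hΦ₀ : CMType c Φ₀) {h : ℕ} (hh : 1 ≤ h)
    (horb : ∀ x : X, 2 * h ≤ (MulAction.orbit Γ x).ncard) (x : X) :
    OpLe (opB c Φ₀ x) (1 / (h : ℝ)) := by
  intro v
  have h1 : ‖opB c Φ₀ x v‖ ^ 2 =
      (Fintype.card Γ : ℝ)⁻¹ * ∑ γ : Γ, extV c Φ₀ v (γ • x) ^ 2 := by
    rw [EuclideanSpace.norm_sq_eq, Finset.mul_sum]
    refine Finset.sum_congr rfl fun γ _ => ?_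
    rw [opB_apply, Real.norm_eq_abs, sq_abs, mul_pow, inv_pow, Real.sq_sqrt (Nat.cast_nonneg _)]
  have hc : (0 : ℝ) < Fintype.card Γ := by exact_mod_cast Fintype.card_pos
  have hh' : (0 : ℝ) < h := by exact_mod_cast hh
  have h2 := orbit_average (Γ := Γ) (fun y => extV c Φ₀ v y ^ 2) (fun y => sq_nonneg _) x
  rw [sum_extV_sq hc2 hΦ₀] at h2
  have h3 : (2 * h : ℝ) ≤ (MulAction.orbit Γ x).ncard := by exact_mod_cast horb x
  have h4 : 0 ≤ ∑ γ : Γ, extV c Φ₀ v (γ • x) ^ 2 := Finset.sum_nonneg fun γ _ => sq_nonneg _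
  have h5 : (2 * h : ℝ) * ∑ γ : Γ, extV c Φ₀ v (γ • x) ^ 2 ≤
      Fintype.card Γ * (2 * ∑ i, v i ^ 2) :=
    (mul_le_mul_of_nonneg_right h3 h4).trans h2
  rw [h1, inv_mul_le_iff₀ hc, one_div, ← mul_assoc, mul_comm _ ((h : ℝ)⁻¹), mul_assoc,
    le_inv_mul_iff₀ hh']
  linarith

end Pool.Agent.Lib.MP_938ce2_ag_h82
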