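import Mathlib
import Pool.Agent.Lib.MP_938ce2_ag_h82.Defs3

set_option autoImplicit false
set_option linter.unusedSectionVars false

namespace Pool.Agent.Lib.MP_938ce2_ag_h82

open Finset
open Pool.Agent.Lib.MP_938ce2_ag_h60 (CMType sum_type)
open Pool.Agent.Lib.MP_938ce2_ag_h65 (elem vec vec_odd elem_odd elem_smul)

variable {Γ : Type} [Group Γ] [Fintype Γ] {X : Type} [MulAction Γ X] [Fintype X] [DecidableEq X]
  {c : Γ} {Φ₀ : Finset X}

/-- one point contributes at most one to the sum over a CM type -/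
lemma sum_elem_natAbs_le (hΦ₀ : CMType c Φ₀) (y : X) :
    ∑ i ∈ Φ₀, (elem c y i).natAbs ≤ 1 := by
  have h1 : ∀ i ∈ Φ₀, (elem c y i).natAbs
      ≤ (if y = i then 1 else 0) + (if c • y = i then 1 else 0) := by
    intro i _
    unfold elem
    split_ifs <;> simp
  refine (Finset.sum_le_sum h1).trans ?_
  rw [Finset.sum_add_distrib, Finset.sum_ite_eq, Finset.sum_ite_eq]
  have h2 := hΦ₀ y
  by_cases hy : y ∈ Φ₀
  · have h3 := h2.mp hy
    simp [hy, h3]
  · simp only [hy, if_false, zero_add]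
    split_ifs <;> omega

/-- the length of the reduced tuple -/
theorem len_le (hc2 : c * c = 1) (hΦ₀ : CMType c Φ₀) {n : ℕ} (τ : Fin n → X) :
    ∑ i ∈ Φ₀, (vec c τ i).natAbs ≤ n := by
  have _ := hc2
  calc ∑ i ∈ Φ₀, (vec c τ i).natAbs
      ≤ ∑ i ∈ Φ₀, ∑ k : Fin n, (elem c (τ k) i).natAbs := by
        refine Finset.sum_le_sum fun i _ => ?_
        unfold vec
        exact Int.natAbs_sum_le _ _
    _ = ∑ k : Fin n, ∑ i ∈ Φ₀, (elem c (τ k) i).natAbs := Finset.sum_comm
    _ ≤ ∑ _k : Fin n, 1 := Finset.sum_le_sum fun k _ => sum_elem_natAbs_le hΦ₀ _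
    _ = n := by simp

theorem two_mul_len (hc2 : c * c = 1) (hΦ₀ : CMType c Φ₀) {n : ℕ} (τ : Fin n → X) :
    2 * ∑ i ∈ Φ₀, (vec c τ i).natAbs = ∑ x, (vec c τ x).natAbs := by
  have h := sum_type hc2 hΦ₀ (fun x => (vec c τ x).natAbs)
  have h1 : ∑ σ ∈ Φ₀, (vec c τ (c • σ)).natAbs = ∑ σ ∈ Φ₀, (vec c τ σ).natAbs :=
    Finset.sum_congr rfl fun σ _ => by rw [vec_odd hc2, Int.natAbs_neg]
  rw [← h, h1, two_mul]

/-- an odd function is the combination of its values over a CM type -/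
lemma odd_expand (hc2 : c * c = 1) (hΦ₀ : CMType c Φ₀) (v : X → ℤ)
    (hv : ∀ x, v (c • x) = - v x) (x : X) : ∑ i ∈ Φ₀, v i * elem c i x = v x := by
  have hcc : ∀ y : X, c • c • y = y := fun y => by rw [smul_smul, hc2, one_smul]
  by_cases hx : x ∈ Φ₀
  · rw [Finset.sum_eq_single x]
    · have h1 : c • x ≠ x := by
        intro h
        exact (hΦ₀ x).mp hx (h.symm ▸ hx)
      simp [elem, h1]
    · intro i hi hne
      have h1 : c • i ≠ x := by
        intro h
        exact (hΦ₀ i).mp hi (h.symm ▸ hx)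
      simp [elem, hne, h1]
    · intro h
      exact absurd hx h
  · have hcx : c • x ∈ Φ₀ := by
      by_contra h
      exact hx ((hΦ₀ x).mpr h)
    rw [Finset.sum_eq_single (c • x)]
    · have h1 : c • x ≠ x := by
        intro h
        exact hx (h ▸ hcx)
      rw [hv x]
      simp [elem, h1, hcc]
    · intro i hi hne
      have h1 : c • i ≠ x := by
        intro h
        apply hne
        rw [← h, hcc]
      have h2 : i ≠ x := by
        intro h
        exact hx (h ▸ hi)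
      simp [elem, h2, h1]
    · intro h
      exact absurd hcx h

/-- the reduced tuple has the same odd function. Index set: the sigma type of the
`Fin (vec c τ i).natAbs`, `i ∈ Φ₀`; entry `i` or `c • i` according to the sign of `vec c τ i`. -/
theorem exists_reduced (hc2 : c * c = 1) (hΦ₀ : CMType c Φ₀) {n N : ℕ} (τ : Fin n → X)
    (hN : ∑ i ∈ Φ₀, (vec c τ i).natAbs = N) : ∃ τ' : Fin N → X, vec c τ' = vec c τ := by
  classical
  have hcard : Fintype.card (Σ i : Φ₀, Fin (vec c τ (i : X)).natAbs) = N := by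
    rw [Fintype.card_sigma, ← hN, ← Finset.sum_coe_sort Φ₀ (fun i => (vec c τ i).natAbs)]
    exact Finset.sum_congr rfl fun i _ => Fintype.card_fin _
  obtain ⟨e⟩ : Nonempty (Fin N ≃ Σ i : Φ₀, Fin (vec c τ (i : X)).natAbs) := by
    refine Fintype.card_eq.mp ?_
    rw [hcard, Fintype.card_fin]
  refine ⟨fun k => if 0 ≤ vec c τ ((e k).1 : X) then ((e k).1 : X) else c • ((e k).1 : X), ?_⟩
  funext x
  have h1 : vec c (fun k => if 0 ≤ vec c τ ((e k).1 : X) then ((e k).1 : X)
      else c • ((e k).1 : X)) x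
      = ∑ p : (Σ i : Φ₀, Fin (vec c τ (i : X)).natAbs),
        elem c (if 0 ≤ vec c τ (p.1 : X) then (p.1 : X) else c • (p.1 : X)) x := by
    unfold vec
    exact Equiv.sum_comp e (fun p : (Σ i : Φ₀, Fin (vec c τ (i : X)).natAbs) =>
        elem c (if 0 ≤ vec c τ (p.1 : X) then (p.1 : X) else c • (p.1 : X)) x)
  rw [h1, Fintype.sum_sigma]
  have h2 : ∀ i : Φ₀, ∑ _j : Fin (vec c τ (i : X)).natAbs,
      elem c (if 0 ≤ vec c τ (i : X) then (i : X) else c • (i : X)) x
      = vec c τ (i : X) * elem c (i : X) x := by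
    intro i
    rw [Finset.sum_const, Finset.card_univ, Fintype.card_fin, nsmul_eq_mul]
    by_cases h : 0 ≤ vec c τ (i : X)
    · rw [if_pos h]
      have h3 : (((vec c τ (i : X)).natAbs : ℕ) : ℤ) = vec c τ (i : X) :=
        Int.natAbs_of_nonneg h
      rw [h3]
    · rw [if_neg h, elem_smul hc2]
      have h3 : (((vec c τ (i : X)).natAbs : ℕ) : ℤ) = - vec c τ (i : X) := by
        rw [Int.natCast_natAbs, abs_of_neg (not_le.mp h)]
      rw [h3]
      ring
  rw [Finset.sum_congr rfl fun i _ => h2 i]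
  rw [Finset.sum_coe_sort Φ₀ (fun i => vec c τ i * elem c i x)]
  exact odd_expand hc2 hΦ₀ (vec c τ) (fun x => vec_odd hc2 τ x) x

theorem len_le_mT {n : ℕ} (τ : Fin n → X) : ∑ i ∈ Φ₀, (vec c τ i).natAbs ≤ mT c Φ₀ τ := by
  unfold mT
  refine Finset.sum_le_sum fun i _ => ?_
  exact Nat.le_self_pow two_ne_zero _

theorem mT_le {n : ℕ} (τ : Fin n → X) : mT c Φ₀ τ ≤ (∑ i ∈ Φ₀, (vec c τ i).natAbs) ^ 2 := by
  unfold mT
  rw [sq (∑ i ∈ Φ₀, (vec c τ i).natAbs), Finset.sum_mul]
  refine Finset.sum_le_sum fun i hi => ?_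
  rw [sq]
  refine Nat.mul_le_mul_left _ ?_
  exact Finset.single_le_sum (f := fun i => (vec c τ i).natAbs) (fun _ _ => Nat.zero_le _) hi

end Pool.Agent.Lib.MP_938ce2_ag_h82
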