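import Mathlib
import Pool.Agent.Lib.MP_938ce2_ag_h82.Defs4
import Pool.Agent.Lib.MP_938ce2_ag_h82.R15b
import Pool.Agent.Lib.MP_938ce2_ag_h82.R16a
import Pool.Agent.Lib.MP_938ce2_ag_h82.R16b
import Pool.Agent.Lib.MP_938ce2_ag_h82.R17

set_option autoImplicit false

namespace Pool.Agent.Lib.MP_938ce2_ag_h82

open Finset
open Pool.Agent.Lib.MP_938ce2_ag_h60 (CMType card_cmType)
open Pool.Agent.Lib.MP_938ce2_ag_h65 (elem vec vec_odd elem_odd elem_smul)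

variable {Γ : Type} [Group Γ] [Fintype Γ] {X : Type} [MulAction Γ X] [Fintype X] [DecidableEq X]
  {c : Γ}

/-- one class of reduced tuples: `theoremC` for `opB c Φ₀`, `β = 1 / h`,
`L = Nat.log 2 N + 1`. -/
theorem class_le (hcc : ∀ γ : Γ, c * γ = γ * c) (hc2 : c * c = 1) {g h : ℕ}
    (hX : Fintype.card X = 2 * g) (hh : 1 ≤ h)
    (horb : ∀ x : X, 2 * h ≤ (MulAction.orbit Γ x).ncard) {Φ₀ : Finset X} (hΦ₀ : CMType c Φ₀)
    (t : ℕ) (ht : (g : ℝ) ≤ Real.exp (2 ^ (t + 1))) {P : ℕ} (hP : 1 ≤ P) {N m : ℕ} (hN : 1 ≤ N)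
    (hm : N ≤ m)
    (hκ : √(2 * Real.exp 1 * 2 ^ (t + 1) / h * N)
      * (336 * √((P : ℝ) + 1) + 85 * ((Nat.log 2 N : ℝ) + 1) * √(Real.log (2 * (g : ℝ) + 1)))
      ≤ 1 / 32) :
    (((univ : Finset (Φ₀ → Bool)).filter fun b =>
        ∃ τ : Fin N → X, mT c Φ₀ τ = m ∧
          2 * ‖opT (opB c Φ₀) τ (fun i => sg (b i))‖ ^ 2 ≤ m).card : ℝ)
      ≤ Real.exp (-(2 * P)) * 2 ^ g := by
  have hcard : Fintype.card Φ₀ = g := by
    have h1 := card_cmType hc2 hΦ₀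
    rw [Fintype.card_coe]
    omega
  have hcardX : ((Fintype.card X : ℕ) : ℝ) = 2 * (g : ℝ) := by
    rw [hX]; push_cast; ring
  have key := theoremC (opB c Φ₀) (β := 1 / (h : ℝ)) (by positivity)
    (fun x => opB_le hc2 hΦ₀ hh horb x) t (by rw [hcard]; exact ht) hN
    (univ.filter fun τ : Fin N → X => mT c Φ₀ τ = m) (m := (m : ℝ)) (by exact_mod_cast hm)
    (fun τ hτ => by rw [frob_opT hcc hc2 hΦ₀, (mem_filter.mp hτ).2]) hP (Nat.log 2 N + 1)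
    (Nat.lt_pow_succ_log_self (by norm_num) N)
    (by
      rw [pow_succ]
      have := Nat.pow_log_le_self 2 (x := N) (by omega)
      omega)
    (by
      rw [hcardX]
      have e1 : 2 * Real.exp 1 * 2 ^ (t + 1) * (1 / (h : ℝ)) * N
          = 2 * Real.exp 1 * 2 ^ (t + 1) / h * N := by ring
      rw [e1]
      push_cast
      exact hκ)
  rw [hcard] at key
  refine le_trans ?_ key
  have : ((univ : Finset (Φ₀ → Bool)).filter fun b =>
        ∃ τ : Fin N → X, mT c Φ₀ τ = m ∧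
          2 * ‖opT (opB c Φ₀) τ (fun i => sg (b i))‖ ^ 2 ≤ m).card
      ≤ ((univ : Finset (Φ₀ → Bool)).filter fun b =>
        ∃ τ ∈ univ.filter fun τ : Fin N → X => mT c Φ₀ τ = m,
          2 * ‖opT (opB c Φ₀) τ (fun i => sg (b i))‖ ^ 2 ≤ (m : ℝ)).card := by
    refine card_le_card fun b hb => ?_
    rw [mem_filter] at hb ⊢
    obtain ⟨h1, τ, h2, h3⟩ := hb
    exact ⟨h1, τ, mem_filter.mpr ⟨mem_univ _, h2⟩, h3⟩
  exact_mod_cast this

/-- the number of bad CM types: `Φ ↦ (i ↦ decide (i ∈ Φ))` is injective on CM types, every bad type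
is in one of the `n ^ 3` classes `1 ≤ N ≤ n`, `N ≤ m ≤ N ^ 2` of reduced tuples (`len_le`,
`exists_reduced`, `len_le_mT`, `mT_le`, `norm_opT_type`, `two_mul_len`). If there is no CM type the
set is empty. -/
theorem bad_le (hcc : ∀ γ : Γ, c * γ = γ * c) (hc2 : c * c = 1) {g h : ℕ}
    (hX : Fintype.card X = 2 * g) (hh : 1 ≤ h)
    (horb : ∀ x : X, 2 * h ≤ (MulAction.orbit Γ x).ncard)
    (t : ℕ) (ht : (g : ℝ) ≤ Real.exp (2 ^ (t + 1))) {P : ℕ} (hP : 1 ≤ P) (n : ℕ)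
    (hκ : √(2 * Real.exp 1 * 2 ^ (t + 1) / h * n)
      * (336 * √((P : ℝ) + 1) + 85 * ((Nat.log 2 n : ℝ) + 1) * √(Real.log (2 * (g : ℝ) + 1)))
      ≤ 1 / 32) :
    ((Bad c n : Set (Finset X)).ncard : ℝ) ≤ (n : ℝ) ^ 3 * Real.exp (-(2 * P)) * 2 ^ g := by
  classical
  rcases Set.eq_empty_or_nonempty (Bad c n : Set (Finset X)) with he | ⟨Φ₀, hΦ₀', -⟩
  · rw [he, Set.ncard_empty, Nat.cast_zero]
    positivity
  have hΦ₀ : CMType c Φ₀ := hΦ₀'
  let F : Finset X → (Φ₀ → Bool) := fun Φ i => decide ((i : X) ∈ Φ)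
  let S : ℕ → ℕ → Finset (Φ₀ → Bool) := fun N m =>
    (univ : Finset (Φ₀ → Bool)).filter fun b =>
        ∃ τ : Fin N → X, mT c Φ₀ τ = m ∧
          2 * ‖opT (opB c Φ₀) τ (fun i => sg (b i))‖ ^ 2 ≤ m
  let U : Finset (Φ₀ → Bool) := (Icc 1 n).biUnion fun N => (Icc N (N ^ 2)).biUnion fun m => S N m
  have hS : ∀ N ∈ Icc 1 n, ∀ m ∈ Icc N (N ^ 2),
      ((S N m).card : ℝ) ≤ Real.exp (-(2 * P)) * 2 ^ g := by
    intro N hN m hm
    rw [mem_Icc] at hN hm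
    refine class_le hcc hc2 hX hh horb hΦ₀ t ht hP hN.1 hm.1 (le_trans ?_ hκ)
    have hNn : (N : ℝ) ≤ n := by exact_mod_cast hN.2
    have hlog : ((Nat.log 2 N : ℕ) : ℝ) ≤ (Nat.log 2 n : ℕ) := by
      exact_mod_cast Nat.log_mono_right hN.2
    gcongr
  have hU : (U.card : ℝ) ≤ (n : ℝ) ^ 3 * Real.exp (-(2 * P)) * 2 ^ g := by
    calc (U.card : ℝ) ≤ ∑ N ∈ Icc 1 n, ∑ m ∈ Icc N (N ^ 2), ((S N m).card : ℝ) := by
          have h1 : U.card ≤ ∑ N ∈ Icc 1 n, ∑ m ∈ Icc N (N ^ 2), (S N m).card :=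
            card_biUnion_le.trans (sum_le_sum fun N _ => card_biUnion_le)
          exact_mod_cast h1
      _ ≤ ∑ N ∈ Icc 1 n, (n : ℝ) ^ 2 * (Real.exp (-(2 * P)) * 2 ^ g) := by
          refine sum_le_sum fun N hN => ?_
          calc ∑ m ∈ Icc N (N ^ 2), ((S N m).card : ℝ)
              ≤ ∑ m ∈ Icc N (N ^ 2), (Real.exp (-(2 * P)) * 2 ^ g) := sum_le_sum (hS N hN)
            _ = ((Icc N (N ^ 2)).card : ℝ) * (Real.exp (-(2 * P)) * 2 ^ g) := by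
                rw [sum_const, nsmul_eq_mul]
            _ ≤ (n : ℝ) ^ 2 * (Real.exp (-(2 * P)) * 2 ^ g) := by
                have h2 : (Icc N (N ^ 2)).card ≤ n ^ 2 := by
                  rw [mem_Icc] at hN
                  rw [Nat.card_Icc]
                  have h3 : N ^ 2 ≤ n ^ 2 := Nat.pow_le_pow_left hN.2 2
                  omega
                have h4 : ((Icc N (N ^ 2)).card : ℝ) ≤ (n : ℝ) ^ 2 := by exact_mod_cast h2
                exact mul_le_mul_of_nonneg_right h4 (by positivity)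
      _ = (n : ℝ) ^ 3 * Real.exp (-(2 * P)) * 2 ^ g := by
          rw [sum_const, nsmul_eq_mul, Nat.card_Icc, Nat.add_sub_cancel]
          ring
  refine le_trans ?_ hU
  have hinj : Set.InjOn F (Bad c n) := by
    intro Φ hΦ Ψ hΨ hFF
    have h1 : ∀ x ∈ Φ₀, (x ∈ Φ ↔ x ∈ Ψ) := by
      intro x hx
      have := congrFun hFF ⟨x, hx⟩
      simpa [F] using this
    ext x
    by_cases hx : x ∈ Φ₀
    · exact h1 x hx
    · have hcx : c • x ∈ Φ₀ := by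
        by_contra h2
        exact hx ((hΦ₀ x).mpr h2)
      rw [hΦ.1 x, hΨ.1 x, h1 _ hcx]
  have hmaps : ∀ Φ ∈ (Bad c n : Set (Finset X)), F Φ ∈ (U : Set (Φ₀ → Bool)) := by
    rintro Φ ⟨hΦ, τ, ⟨x, hx⟩, hτ⟩
    set N := ∑ i ∈ Φ₀, (vec c τ i).natAbs with hNdef
    obtain ⟨τ', hτ'⟩ := exists_reduced hc2 hΦ₀ τ (N := N) rfl
    have h2N := two_mul_len hc2 hΦ₀ τ
    have hN1 : 1 ≤ N := by
      by_contra h0
      have h0' : N = 0 := by omega
      rw [← hNdef, h0'] at h2N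
      have h3 : ∑ x, (vec c τ x).natAbs = 0 := by omega
      rw [sum_eq_zero_iff] at h3
      exact hx (Int.natAbs_eq_zero.mp (h3 x (mem_univ _)))
    have hNn : N ≤ n := len_le hc2 hΦ₀ τ
    have hNm : N ≤ mT c Φ₀ τ' := by
      have := len_le_mT (c := c) (Φ₀ := Φ₀) τ'
      rw [hτ'] at this
      exact this
    have hmN : mT c Φ₀ τ' ≤ N ^ 2 := by
      have := mT_le (c := c) (Φ₀ := Φ₀) τ'
      rw [hτ'] at this
      exact this
    simp only [U, coe_biUnion, Set.mem_iUnion, mem_coe, mem_Icc, exists_prop]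
    refine ⟨N, ⟨hN1, hNn⟩, mT c Φ₀ τ', ⟨hNm, hmN⟩, ?_⟩
    simp only [S, mem_filter, mem_univ, true_and]
    refine ⟨τ', rfl, ?_⟩
    have hn := norm_opT_type hcc hc2 hΦ₀ hΦ τ'
    simp only [F]
    rw [hn, hτ']
    have hG : (0 : ℝ) < Fintype.card Γ := by exact_mod_cast Fintype.card_pos
    have h4 : ((4 * ∑ γ : Γ, (∑ φ ∈ Φ, vec c τ (γ • φ)) ^ 2 : ℤ) : ℝ)
        ≤ (((Fintype.card Γ : ℤ) * ∑ x, |vec c τ x| : ℤ) : ℝ) := by exact_mod_cast hτ
    have h5 : (∑ x, |vec c τ x| : ℤ) = 2 * (N : ℤ) := by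
      have : ((2 * N : ℕ) : ℤ) = ((∑ x, (vec c τ x).natAbs : ℕ) : ℤ) := by exact_mod_cast h2N
      push_cast at this
      rw [this]
    rw [h5] at h4
    push_cast at h4 ⊢
    have h6 : (Fintype.card Γ : ℝ)⁻¹ * ∑ γ : Γ, (∑ φ ∈ Φ, (vec c τ (γ • φ) : ℝ)) ^ 2
        ≤ N / 2 := by
      rw [inv_mul_le_iff₀ hG]
      linarith
    have h7 : (N : ℝ) ≤ mT c Φ₀ τ' := by exact_mod_cast hNm
    linarith
  have := Set.ncard_le_ncard_of_injOn F hmaps hinj (Finset.finite_toSet U)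
  rw [Set.ncard_coe_finset] at this
  exact_mod_cast this

end Pool.Agent.Lib.MP_938ce2_ag_h82
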