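import Mathlib

set_option autoImplicit false

namespace Pool.Agent.Lib.MP_938ce2_ag_h82

private lemma r19_exp20 : Real.exp 20 ≤ 2 * 10 ^ 9 := by
  have h1 : Real.exp 1 ≤ 2.7182818286 := Real.exp_one_lt_d9.le
  have h2 : Real.exp 20 = Real.exp 1 ^ 20 := by
    rw [← Real.exp_nat_mul]
    norm_num
  rw [h2]
  calc Real.exp 1 ^ 20 ≤ (2.7182818286 : ℝ) ^ 20 :=
        pow_le_pow_left₀ (Real.exp_pos 1).le h1 20
    _ ≤ 2 * 10 ^ 9 := by norm_num

private lemma r19_log {g n : ℕ} (hn : 1 ≤ n) (hng : (n : ℝ) ≤ g) :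
    ((Nat.log 2 n : ℝ) + 1) * Real.log 2 ≤ Real.log (2 * (g : ℝ)) := by
  have hn' : (1 : ℝ) ≤ n := by exact_mod_cast hn
  have h1 : (2 : ℝ) ^ (Nat.log 2 n) ≤ n := by
    exact_mod_cast Nat.pow_log_le_self 2 (by omega : n ≠ 0)
  have h2 : Real.log ((2 : ℝ) ^ (Nat.log 2 n)) ≤ Real.log n :=
    Real.log_le_log (by positivity) h1
  rw [Real.log_pow] at h2
  have h3 : Real.log (2 * (n : ℝ)) = Real.log 2 + Real.log n :=
    Real.log_mul (by norm_num) (by positivity)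
  have h4 : Real.log (2 * (n : ℝ)) ≤ Real.log (2 * (g : ℝ)) :=
    Real.log_le_log (by positivity) (by linarith)
  nlinarith

private lemma r19_pow {L : ℝ} (hL : 20 ≤ L) : ∃ t : ℕ, L ≤ 2 ^ (t + 1) ∧ (2 : ℝ) ^ (t + 1) ≤ 2 * L := by
  classical
  have hex : ∃ s : ℕ, L ≤ 2 ^ s := by
    obtain ⟨s, hs⟩ := pow_unbounded_of_one_lt L (by norm_num : (1 : ℝ) < 2)
    exact ⟨s, hs.le⟩
  have h1 := Nat.find_spec hex
  have h2 : Nat.find hex ≠ 0 := by
    intro h0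
    rw [h0] at h1
    norm_num at h1
    linarith
  obtain ⟨t, ht⟩ := Nat.exists_eq_succ_of_ne_zero h2
  refine ⟨t, ?_, ?_⟩
  · rw [ht] at h1
    exact h1
  · have h3 : ¬ L ≤ 2 ^ t := by
      apply Nat.find_min hex
      rw [ht]
      exact Nat.lt_succ_self t
    push Not at h3
    rw [pow_succ]
    linarith

/-- the choice of the parameters. Write `Λ = log (2 g)`, `y = h / (n * Λ)`. First `Λ ≥ log 2` gives
`h ≥ 10 ^ 9`, so `Λ ≥ 20`; `y ≥ 10 ^ 10 * Λ ^ 3`. Take `t` with `Λ ≤ 2 ^ (t + 1) ≤ 2 * Λ` and `P + 1 = ⌊3 / 2 * y / 10 ^ 10⌋₊`.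
First half of `κ`: `√(4 * e / y) * 336 * √(P + 1) ≤ 336 * √(6 * e / 10 ^ 10) ≤ 1 / 64`. Second half: `n ≤ g`, so
`Nat.log 2 n + 1 ≤ log (2 n) / log 2 ≤ 3 / 2 * Λ`, and `log (2 g + 1) ≤ 1.1 * Λ`:
`√(4 * e / y) * 85 * 1.5 * Λ * √(1.1 * Λ) ≤ 85 * 1.5 * √(4.4 * e / 10 ^ 10) ≤ 1 / 64`. Last claim:
`n ^ 3 ≤ exp (3 * Λ)`, `3 * Λ - 2 * P ≤ 3 * Λ + 4 - 3 * y / 10 ^ 10 ≤ - y / 10 ^ 10`. -/
theorem params {g h n : ℕ} (hn : 1 ≤ n) (hh : 1 ≤ h) (hg : h ≤ g)
    (hc : (n : ℝ) * Real.log (2 * g) ^ 4 ≤ h / 10 ^ 10) :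
    ∃ t P : ℕ, (g : ℝ) ≤ Real.exp (2 ^ (t + 1)) ∧ 1 ≤ P ∧
      √(2 * Real.exp 1 * 2 ^ (t + 1) / h * n)
        * (336 * √((P : ℝ) + 1) + 85 * ((Nat.log 2 n : ℝ) + 1) * √(Real.log (2 * (g : ℝ) + 1)))
        ≤ 1 / 32 ∧
      (n : ℝ) ^ 3 * Real.exp (-(2 * P)) ≤ Real.exp (-((h : ℝ) / (10 ^ 10 * n * Real.log (2 * g)))) := by
  have hn' : (1 : ℝ) ≤ n := by exact_mod_cast hn
  have hh' : (1 : ℝ) ≤ h := by exact_mod_cast hh
  have hg' : (h : ℝ) ≤ g := by exact_mod_cast hg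
  have hg1 : (1 : ℝ) ≤ g := hh'.trans hg'
  have hlog2 : (0.69 : ℝ) ≤ Real.log 2 := by linarith [Real.log_two_gt_d9]
  have hlog2' : Real.log 2 ≤ 0.7 := by linarith [Real.log_two_lt_d9]
  have he : Real.exp 1 ≤ 2.7182818286 := Real.exp_one_lt_d9.le
  have he0 : 0 < Real.exp 1 := Real.exp_pos 1
  obtain ⟨L, hL⟩ : ∃ L, L = Real.log (2 * (g : ℝ)) := ⟨_, rfl⟩
  rw [← hL] at hc ⊢
  have h0 : (0.69 : ℝ) ≤ L := by
    have h2 : Real.log 2 ≤ Real.log (2 * (g : ℝ)) := Real.log_le_log (by norm_num) (by linarith)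
    rw [hL]
    linarith
  have hL4 : 0 ≤ L ^ 4 := by positivity
  have hc1 : L ^ 4 ≤ h / 10 ^ 10 := by nlinarith
  have hc2 : (n : ℝ) * L ^ 4 * 10 ^ 10 ≤ h := by
    rw [le_div_iff₀ (by norm_num)] at hc
    exact hc
  have h1 : (10 : ℝ) ^ 9 ≤ h := by
    have h2 : (0.69 : ℝ) ^ 4 ≤ L ^ 4 := pow_le_pow_left₀ (by norm_num) h0 4
    rw [le_div_iff₀ (by norm_num)] at hc1
    have h3 : (0.69 : ℝ) ^ 4 = 0.22667121 := by norm_num
    rw [h3] at h2
    linarith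
  have h20 : 20 ≤ L := by
    rw [hL, Real.le_log_iff_exp_le (by positivity)]
    refine r19_exp20.trans ?_
    linarith
  have hng : (n : ℝ) ≤ g := by
    have h2 : (1 : ℝ) ≤ L ^ 4 * 10 ^ 10 := by
      have h3 : (20 : ℝ) ^ 4 ≤ L ^ 4 := pow_le_pow_left₀ (by norm_num) h20 4
      norm_num at h3 ⊢
      linarith
    nlinarith
  have hLn := r19_log hn hng
  rw [← hL] at hLn
  have hLn2 : (Nat.log 2 n : ℝ) + 1 ≤ 1.5 * L := by
    have h2 : (0 : ℝ) ≤ (Nat.log 2 n : ℝ) + 1 := by positivity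
    nlinarith
  have hlg : Real.log (2 * (g : ℝ) + 1) ≤ 1.1 * L := by
    have h2 : Real.log (2 * (g : ℝ) + 1) ≤ Real.log (2 * (2 * (g : ℝ))) :=
      Real.log_le_log (by positivity) (by linarith)
    rw [Real.log_mul (by norm_num) (by positivity), ← hL] at h2
    linarith
  obtain ⟨t, ht1, ht2⟩ := r19_pow h20
  have hn0 : (0 : ℝ) < n := by linarith
  have hL0 : (0 : ℝ) < L := by linarith
  obtain ⟨y, hy⟩ : ∃ y, y = (h : ℝ) / (n * L) := ⟨_, rfl⟩
  have hy1 : 10 ^ 10 * L ^ 3 ≤ y := by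
    rw [hy, le_div_iff₀ (by positivity)]
    calc 10 ^ 10 * L ^ 3 * (n * L) = (n : ℝ) * L ^ 4 * 10 ^ 10 := by ring
      _ ≤ (h : ℝ) := hc2
  have hL3 : 400 * L ≤ L ^ 3 := by nlinarith [mul_pos hL0 hL0]
  have hy0 : 0 < y := by nlinarith
  have hyL : y * (n * L) = h := by
    rw [hy]
    field_simp
  obtain ⟨Q, hQ⟩ : ∃ Q, Q = ⌊3 / 2 * y / 10 ^ 10⌋₊ := ⟨_, rfl⟩
  have hQ1 : (Q : ℝ) ≤ 3 / 2 * y / 10 ^ 10 := by
    rw [hQ]
    exact Nat.floor_le (by positivity)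
  have hQ2 : 3 / 2 * y / 10 ^ 10 < (Q : ℝ) + 1 := by
    rw [hQ]
    exact Nat.lt_floor_add_one _
  have hy2 : 8000 ≤ y / 10 ^ 10 := by
    rw [le_div_iff₀ (by norm_num)]
    nlinarith
  have hQ3 : 3 ≤ Q := by
    have h2 : (3 : ℝ) ≤ Q := by
      have h3 : 3 / 2 * y / 10 ^ 10 = 3 / 2 * (y / 10 ^ 10) := by ring
      rw [h3] at hQ2
      linarith
    exact_mod_cast h2
  obtain ⟨P, rfl⟩ : ∃ P, Q = P + 1 := ⟨Q - 1, by omega⟩
  have hP1 : 1 ≤ P := by omega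
  push_cast at hQ1 hQ2
  refine ⟨t, P, ?_, hP1, ?_, ?_⟩
  · have h2 : 2 * (g : ℝ) = Real.exp L := by
      rw [hL, Real.exp_log (by positivity)]
    have h3 : Real.exp L ≤ Real.exp (2 ^ (t + 1)) := Real.exp_le_exp.mpr ht1
    linarith
  · -- the two halves of the constant
    have hS : √(2 * Real.exp 1 * 2 ^ (t + 1) / h * n) ≤ √(4 * Real.exp 1 / y) := by
      apply Real.sqrt_le_sqrt
      rw [← hyL, le_div_iff₀ hy0]
      have h3 : 2 * Real.exp 1 * 2 ^ (t + 1) / (y * (n * L)) * n * y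
          = 2 * Real.exp 1 * (2 ^ (t + 1) / L) := by
        field_simp
      rw [h3]
      have h4 : (2 : ℝ) ^ (t + 1) / L ≤ 2 := by
        rw [div_le_iff₀ hL0]
        exact ht2
      nlinarith
    have hA : √(4 * Real.exp 1 / y) * √((P : ℝ) + 1) ≤ 0.0000465 := by
      rw [← Real.sqrt_mul (by positivity)]
      apply Real.sqrt_le_iff.mpr
      refine ⟨by norm_num, ?_⟩
      calc 4 * Real.exp 1 / y * ((P : ℝ) + 1) ≤ 4 * Real.exp 1 / y * (3 / 2 * y / 10 ^ 10) := by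
            apply mul_le_mul_of_nonneg_left hQ1 (by positivity)
        _ = 6 * Real.exp 1 / 10 ^ 10 := by
            field_simp
            ring
        _ ≤ 0.0000465 ^ 2 := by
            rw [div_le_iff₀ (by norm_num)]
            norm_num
            linarith
    have hB : √(4 * Real.exp 1 / y) * (L * √(Real.log (2 * (g : ℝ) + 1))) ≤ 0.0001 := by
      have h2 : √(Real.log (2 * (g : ℝ) + 1)) ≤ √(1.1 * L) := Real.sqrt_le_sqrt hlg
      have h3 : L * √(1.1 * L) = √(L ^ 2 * (1.1 * L)) := by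
        rw [Real.sqrt_mul (sq_nonneg L), Real.sqrt_sq hL0.le]
      calc √(4 * Real.exp 1 / y) * (L * √(Real.log (2 * (g : ℝ) + 1)))
          ≤ √(4 * Real.exp 1 / y) * (L * √(1.1 * L)) := by gcongr
        _ = √(4 * Real.exp 1 / y * (L ^ 2 * (1.1 * L))) := by
            rw [h3, ← Real.sqrt_mul (by positivity)]
        _ ≤ 0.0001 := by
            apply Real.sqrt_le_iff.mpr
            refine ⟨by norm_num, ?_⟩
            have h4 : 4 * Real.exp 1 / y * (L ^ 2 * (1.1 * L)) = 4.4 * Real.exp 1 * (L ^ 3 / y) := by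
              field_simp
              ring
            rw [h4]
            have h5 : L ^ 3 / y ≤ 1 / 10 ^ 10 := by
              rw [div_le_div_iff₀ hy0 (by norm_num)]
              linarith
            have h6 : 4.4 * Real.exp 1 * (L ^ 3 / y) ≤ 4.4 * Real.exp 1 * (1 / 10 ^ 10) := by
              apply mul_le_mul_of_nonneg_left h5 (by positivity)
            norm_num at h6 ⊢
            linarith
    have hT0 : 0 ≤ √(Real.log (2 * (g : ℝ) + 1)) := Real.sqrt_nonneg _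
    have hS0 : 0 ≤ √(4 * Real.exp 1 / y) := Real.sqrt_nonneg _
    calc √(2 * Real.exp 1 * 2 ^ (t + 1) / h * n)
        * (336 * √((P : ℝ) + 1) + 85 * ((Nat.log 2 n : ℝ) + 1) * √(Real.log (2 * (g : ℝ) + 1)))
        ≤ √(4 * Real.exp 1 / y)
        * (336 * √((P : ℝ) + 1) + 85 * (1.5 * L) * √(Real.log (2 * (g : ℝ) + 1))) := by
          apply mul_le_mul hS _ (by positivity) hS0
          gcongr
      _ = 336 * (√(4 * Real.exp 1 / y) * √((P : ℝ) + 1))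
          + 127.5 * (√(4 * Real.exp 1 / y) * (L * √(Real.log (2 * (g : ℝ) + 1)))) := by ring
      _ ≤ 1 / 32 := by
          norm_num at hA hB ⊢
          linarith
  · have h2 : 2 * (g : ℝ) = Real.exp L := by
      rw [hL, Real.exp_log (by positivity)]
    have h3 : (n : ℝ) ≤ Real.exp L := by linarith
    have h4 : (n : ℝ) ^ 3 ≤ Real.exp (3 * L) := by
      have h5 : Real.exp (3 * L) = Real.exp L ^ 3 := by
        rw [← Real.exp_nat_mul]
        norm_num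
      rw [h5]
      exact pow_le_pow_left₀ hn0.le h3 3
    have h6 : (h : ℝ) / (10 ^ 10 * n * L) = y / 10 ^ 10 := by
      rw [hy]
      field_simp
    rw [h6]
    calc (n : ℝ) ^ 3 * Real.exp (-(2 * P)) ≤ Real.exp (3 * L) * Real.exp (-(2 * P)) := by
          apply mul_le_mul_of_nonneg_right h4 (Real.exp_pos _).le
      _ = Real.exp (3 * L + -(2 * P)) := (Real.exp_add _ _).symm
      _ ≤ Real.exp (-(y / 10 ^ 10)) := by
          apply Real.exp_le_exp.mpr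
          have h7 : 400 * L ≤ y / 10 ^ 10 := by
            rw [le_div_iff₀ (by norm_num)]
            linarith
          have h8 : 3 / 2 * y / 10 ^ 10 = 3 / 2 * (y / 10 ^ 10) := by ring
          rw [h8] at hQ2
          linarith

end Pool.Agent.Lib.MP_938ce2_ag_h82
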