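import Mathlib
import Pool.Agent.Lib.MP_938ce2_ag_h82.R18
import Pool.Agent.Lib.MP_938ce2_ag_h82.R19

set_option autoImplicit false

namespace Pool.Agent.Lib.MP_938ce2_ag_h82

open Finset
open Pool.Agent.Lib.MP_938ce2_ag_h60 (CMType)
open Pool.Agent.Lib.MP_938ce2_ag_h65 (elem vec GeneratedUpTo exists_vec_of_not_generated)

variable {Γ : Type} [Group Γ] [Fintype Γ] {X : Type} [MulAction Γ X] [Fintype X] [DecidableEq X]
  {c : Γ}

/-- **Theorem D.** `bad_le` with the parameters `params`. If `n = 0` or `X` is empty, then `Bad` is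
empty; otherwise `2 h ≤ 2 g` because an orbit has at most `2 g` elements; if `h = 0` then
`log (2 g) = 0`, impossible for `g ≥ 1`. -/
theorem theoremD (hcc : ∀ γ : Γ, c * γ = γ * c) (hc2 : c * c = 1) {g h n : ℕ}
    (hX : Fintype.card X = 2 * g) (horb : ∀ x : X, 2 * h ≤ (MulAction.orbit Γ x).ncard)
    (hc : (n : ℝ) * Real.log (2 * g) ^ 4 ≤ h / 10 ^ 10) :
    ((Bad c n : Set (Finset X)).ncard : ℝ)
      ≤ Real.exp (-((h : ℝ) / (10 ^ 10 * n * Real.log (2 * g)))) * 2 ^ g := by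
  have hRHS : 0 ≤ Real.exp (-((h : ℝ) / (10 ^ 10 * n * Real.log (2 * g)))) * 2 ^ g := by
    positivity
  have hempty : (Bad c n : Set (Finset X)) = ∅ → ((Bad c n : Set (Finset X)).ncard : ℝ)
      ≤ Real.exp (-((h : ℝ) / (10 ^ 10 * n * Real.log (2 * g)))) * 2 ^ g := by
    intro he
    rw [he, Set.ncard_empty, Nat.cast_zero]
    exact hRHS
  rcases Nat.eq_zero_or_pos n with hn | hn
  · apply hempty
    subst hn
    refine Set.eq_empty_iff_forall_notMem.2 ?_
    rintro Φ ⟨-, τ, ⟨x, hx⟩, -⟩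
    apply hx
    unfold vec
    simp
  rcases isEmpty_or_nonempty X with hXe | ⟨⟨x₀⟩⟩
  · apply hempty
    refine Set.eq_empty_iff_forall_notMem.2 ?_
    rintro Φ ⟨-, τ, ⟨x, hx⟩, -⟩
    exact hXe.elim x
  have hg : 1 ≤ g := by
    have : 0 < Fintype.card X := Fintype.card_pos_iff.2 ⟨x₀⟩
    omega
  have hhg : h ≤ g := by
    have h1 : (MulAction.orbit Γ x₀).ncard ≤ (Set.univ : Set X).ncard :=
      Set.ncard_le_ncard (Set.subset_univ _)
    rw [Set.ncard_univ, Nat.card_eq_fintype_card, hX] at h1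
    have h2 := horb x₀
    omega
  have hg1 : (1 : ℝ) ≤ g := by exact_mod_cast hg
  have hL : 0 < Real.log (2 * (g : ℝ)) := Real.log_pos (by linarith)
  have hh : 1 ≤ h := by
    by_contra hlt
    have h0 : h = 0 := by omega
    rw [h0, Nat.cast_zero, zero_div] at hc
    have hn' : (0 : ℝ) < n := by exact_mod_cast hn
    have : 0 < (n : ℝ) * Real.log (2 * g) ^ 4 := by positivity
    linarith
  obtain ⟨t, P, ht, hP, hκ, hfin⟩ := params (g := g) (h := h) (n := n) hn hh hhg hc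
  refine (bad_le hcc hc2 hX hh horb t ht hP n hκ).trans ?_
  exact mul_le_mul_of_nonneg_right hfin (by positivity)

/-- **Theorem 1.** With `n = 2 J` and `exists_vec_of_not_generated`. -/
theorem theorem1 (hcc : ∀ γ : Γ, c * γ = γ * c) (hc2 : c * c = 1) (hcx : ∀ x : X, c • x ≠ x)
    {g h J : ℕ} (hX : Fintype.card X = 2 * g)
    (horb : ∀ x : X, 2 * h ≤ (MulAction.orbit Γ x).ncard)
    (hc : (J : ℝ) * Real.log (2 * g) ^ 4 ≤ h / 10 ^ 11) :
    ({Φ : Finset X | CMType c Φ ∧ ¬ GeneratedUpTo Γ J Φ}.ncard : ℝ)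
      ≤ Real.exp (-((h : ℝ) / (10 ^ 11 * J * Real.log (2 * g)))) * 2 ^ g := by
  have hsub : {Φ : Finset X | CMType c Φ ∧ ¬ GeneratedUpTo Γ J Φ} ⊆ (Bad c (2 * J) : Set (Finset X)) := by
    rintro Φ ⟨hΦ, hbad⟩
    obtain ⟨τ, hx, hτ⟩ := exists_vec_of_not_generated hcc hc2 hcx hΦ hbad
    refine ⟨hΦ, τ, hx, ?_⟩
    have h0 : ∑ γ : Γ, (∑ φ ∈ Φ, vec c τ (γ • φ)) ^ 2 = 0 := by
      refine Finset.sum_eq_zero ?_
      intro γ _
      rw [hτ γ]
      norm_num
    rw [h0, mul_zero]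
    exact mul_nonneg (by positivity) (Finset.sum_nonneg fun x _ => abs_nonneg _)
  have h1 : ({Φ : Finset X | CMType c Φ ∧ ¬ GeneratedUpTo Γ J Φ}.ncard : ℝ)
      ≤ ((Bad c (2 * J) : Set (Finset X)).ncard : ℝ) := by
    exact_mod_cast Set.ncard_le_ncard hsub (Set.toFinite _)
  have hL : 0 ≤ Real.log (2 * (g : ℝ)) := by
    have := Real.log_natCast_nonneg (2 * g)
    push_cast at this
    exact this
  have hc' : ((2 * J : ℕ) : ℝ) * Real.log (2 * g) ^ 4 ≤ h / 10 ^ 10 := by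
    push_cast
    have hh : (0 : ℝ) ≤ h := Nat.cast_nonneg _
    have h2 : 2 * ((J : ℝ) * Real.log (2 * g) ^ 4) ≤ 2 * (h / 10 ^ 11) := by linarith
    have h3 : 2 * ((h : ℝ) / 10 ^ 11) ≤ h / 10 ^ 10 := by
      have : (h : ℝ) / 10 ^ 10 = 10 * (h / 10 ^ 11) := by ring
      rw [this]
      have : (0 : ℝ) ≤ h / 10 ^ 11 := by positivity
      linarith
    linarith
  refine h1.trans ((theoremD hcc hc2 hX horb hc').trans ?_)
  refine mul_le_mul_of_nonneg_right ?_ (by positivity)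
  rw [Real.exp_le_exp, neg_le_neg_iff]
  push_cast
  rcases Nat.eq_zero_or_pos J with hJ | hJ
  · subst hJ
    simp
  rcases hL.eq_or_lt with hL0 | hLpos
  · rw [← hL0]
    simp
  have hJ' : (0 : ℝ) < J := by exact_mod_cast hJ
  have hh : (0 : ℝ) ≤ h := Nat.cast_nonneg _
  refine div_le_div_of_nonneg_left hh (by positivity) ?_
  have h5 : 0 < (J : ℝ) * Real.log (2 * g) := mul_pos hJ' hLpos
  calc (10 : ℝ) ^ 10 * (2 * J) * Real.log (2 * g) = 2 * 10 ^ 10 * (J * Real.log (2 * g)) := by ring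
    _ ≤ 10 ^ 11 * (J * Real.log (2 * g)) := by
        apply mul_le_mul_of_nonneg_right _ h5.le
        norm_num
    _ = 10 ^ 11 * J * Real.log (2 * g) := by ring

end Pool.Agent.Lib.MP_938ce2_ag_h82
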