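import Mathlib
import Pool.Agent.Lib.MP_938ce2_ag_h82.R20
import Pool.Agent.Lib.MP_386e47_ag_h1.ConvMain

set_option autoImplicit false

namespace Pool.Agent.Lib.MP_938ce2_ag_h82

open Finset
open Pool.Agent.Lib.MP_938ce2_ag_h60 (CMType)
open Pool.Agent.Lib.MP_938ce2_ag_h65 (elem vec vec_odd card_supp_vec)
open Pool.Agent.Lib.MP_386e47_ag_h1 (ConiveauByDivisors exists_vec_of_bad card_types_bounded)

variable {Γ : Type} [Group Γ] [Fintype Γ] {X : Type} [MulAction Γ X] [Fintype X] [DecidableEq X]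
  {c : Γ}

/-- the CM types which are bad because of a short reduced tuple, by `card_types_bounded` with
`I = 2 * ℓ ^ 2` for each of the at most `(2 g) ^ (2 ℓ ^ 2)` tuples of length less than `2 ℓ ^ 2` -/
theorem short_le (hcc : ∀ γ : Γ, c * γ = γ * c) (hc2 : c * c = 1) {g h : ℕ} (ℓ : ℕ) (hg : 1 ≤ g)
    (hX : Fintype.card X = 2 * g) (horb : ∀ x : X, 2 * h ≤ (MulAction.orbit Γ x).ncard) :
    ({Φ : Finset X | CMType c Φ ∧ ∃ N < 2 * ℓ ^ 2, ∃ τ : Fin N → X,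
        2 * (ℓ + 2) ≤ ∑ x, (vec c τ x).natAbs ∧
          ∀ γ : Γ, |∑ φ ∈ Φ, vec c τ (γ • φ)| ≤ ℓ}.ncard : ℝ)
      ≤ (2 * (g : ℝ)) ^ (2 * ℓ ^ 2)
        * (1 - 1 / 2 ^ (ℓ + 1)) ^ ((h : ℝ) / ((ℓ + 2) * ℓ ^ 2)) * 2 ^ g := by
  classical
  set q : ℝ := (1 - 1 / 2 ^ (ℓ + 1)) ^ ((h : ℝ) / ((ℓ + 2) * ℓ ^ 2)) * 2 ^ g with hq
  have hβ : (0 : ℝ) < 1 - 1 / 2 ^ (ℓ + 1) := by
    rw [sub_pos, div_lt_one (by positivity)]
    exact one_lt_pow₀ (by norm_num) (by omega)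
  have hq0 : 0 ≤ q := mul_nonneg (Real.rpow_nonneg hβ.le _) (by positivity)
  let B : ((N : Fin (2 * ℓ ^ 2)) × (Fin N → X)) → Finset (Finset X) := fun p =>
    Finset.univ.filter fun Φ => CMType c Φ ∧ 2 * (ℓ + 2) ≤ ∑ x, (vec c p.2 x).natAbs ∧
      ∀ γ : Γ, |∑ φ ∈ Φ, vec c p.2 (γ • φ)| ≤ ℓ
  have h1 : {Φ : Finset X | CMType c Φ ∧ ∃ N < 2 * ℓ ^ 2, ∃ τ : Fin N → X,
        2 * (ℓ + 2) ≤ ∑ x, (vec c τ x).natAbs ∧
          ∀ γ : Γ, |∑ φ ∈ Φ, vec c τ (γ • φ)| ≤ ℓ}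
      ⊆ ((Finset.univ.biUnion B : Finset (Finset X)) : Set (Finset X)) := by
    rintro Φ ⟨hΦ, N, hN, τ, hs, ht⟩
    rw [Finset.mem_coe, Finset.mem_biUnion]
    exact ⟨⟨⟨N, hN⟩, τ⟩, Finset.mem_univ _,
      Finset.mem_filter.2 ⟨Finset.mem_univ _, hΦ, hs, ht⟩⟩
  have h2 : ({Φ : Finset X | CMType c Φ ∧ ∃ N < 2 * ℓ ^ 2, ∃ τ : Fin N → X,
        2 * (ℓ + 2) ≤ ∑ x, (vec c τ x).natAbs ∧
          ∀ γ : Γ, |∑ φ ∈ Φ, vec c τ (γ • φ)| ≤ ℓ}.ncard : ℝ)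
      ≤ ((Finset.univ.biUnion B).card : ℝ) := by
    have := Set.ncard_le_ncard h1 (Set.toFinite _)
    rw [Set.ncard_coe_finset] at this
    exact_mod_cast this
  have h3 : ∀ p, ((B p).card : ℝ) ≤ q := by
    rintro ⟨⟨N, hN⟩, τ⟩
    by_cases hs : 2 * (ℓ + 2) ≤ ∑ x, (vec c τ x).natAbs
    · have h4 := card_types_bounded (g := g) (h := h) (ℓ := ℓ) (I := 2 * ℓ ^ 2) hcc hc2 hX horb
        (vec c τ) (fun x => vec_odd hc2 τ x)
        ((card_supp_vec c τ Finset.univ).trans (by omega)) hs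
      have h5 : {Φ : Finset X | CMType c Φ ∧ ∀ γ : Γ, |∑ φ ∈ Φ, vec c τ (γ • φ)| ≤ ℓ}
          = ((B ⟨⟨N, hN⟩, τ⟩ : Finset (Finset X)) : Set (Finset X)) := by
        ext Φ
        simp only [B, Set.mem_ofPred_eq, Finset.coe_filter, Finset.mem_univ, true_and, hs]
      rw [h5, Set.ncard_coe_finset] at h4
      refine h4.trans (le_of_eq ?_)
      rw [hq]
      congr 2
      push_cast
      rcases Nat.eq_zero_or_pos ℓ with hl | hl
      · subst hl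
        simp
      · have : (0 : ℝ) < ℓ := by exact_mod_cast hl
        field_simp
    · have : B ⟨⟨N, hN⟩, τ⟩ = ∅ := by
        refine Finset.filter_eq_empty_iff.2 ?_
        intro Φ _ hcon
        exact hs hcon.2.1
      rw [this, Finset.card_empty, Nat.cast_zero]
      exact hq0
  have h6 : Fintype.card ((N : Fin (2 * ℓ ^ 2)) × (Fin N → X)) ≤ (2 * g) ^ (2 * ℓ ^ 2) := by
    rw [Fintype.card_sigma]
    simp only [Fintype.card_fun, Fintype.card_fin, hX]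
    rw [Fin.sum_univ_eq_sum_range (fun N => (2 * g) ^ N) (2 * ℓ ^ 2)]
    exact (Nat.geomSum_lt (by omega) (fun k hk => Finset.mem_range.1 hk)).le
  calc ({Φ : Finset X | CMType c Φ ∧ ∃ N < 2 * ℓ ^ 2, ∃ τ : Fin N → X,
        2 * (ℓ + 2) ≤ ∑ x, (vec c τ x).natAbs ∧
          ∀ γ : Γ, |∑ φ ∈ Φ, vec c τ (γ • φ)| ≤ ℓ}.ncard : ℝ)
      ≤ ((Finset.univ.biUnion B).card : ℝ) := h2
    _ ≤ ∑ p, ((B p).card : ℝ) := by exact_mod_cast Finset.card_biUnion_le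
    _ ≤ ∑ _p : ((N : Fin (2 * ℓ ^ 2)) × (Fin N → X)), q := Finset.sum_le_sum fun p _ => h3 p
    _ = (Fintype.card ((N : Fin (2 * ℓ ^ 2)) × (Fin N → X)) : ℝ) * q := by
        rw [Finset.sum_const, nsmul_eq_mul, Finset.card_univ]
    _ ≤ (2 * (g : ℝ)) ^ (2 * ℓ ^ 2) * q := by
        refine mul_le_mul_of_nonneg_right ?_ hq0
        exact_mod_cast h6
    _ = _ := by rw [hq]; ring

/-- **Theorem 2.** `exists_vec_of_bad` gives a tuple `τ` of length `ℓ + 2 K` whose reduced length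
`N = ½ ∑ |vec c τ x|` is at least `ℓ + 2`. If `N ≥ 2 ℓ ^ 2` (always for `ℓ ≤ 1`) then `Φ ∈ Bad c (ℓ + 2 K)`,
otherwise use `exists_reduced` and `short_le`. -/
theorem theorem2 (hcc : ∀ γ : Γ, c * γ = γ * c) (hc2 : c * c = 1)
    {g h : ℕ} (ℓ K : ℕ) (hX : Fintype.card X = 2 * g)
    (horb : ∀ x : X, 2 * h ≤ (MulAction.orbit Γ x).ncard)
    (hc : ((ℓ : ℝ) + 2 * K) * Real.log (2 * g) ^ 4 ≤ h / 10 ^ 10) :
    ({Φ : Finset X | CMType c Φ ∧ ¬ ConiveauByDivisors Γ c ℓ K Φ}.ncard : ℝ)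
      ≤ (Real.exp (-((h : ℝ) / (10 ^ 10 * (ℓ + 2 * K) * Real.log (2 * g))))
        + if ℓ ≤ 1 then 0 else (2 * (g : ℝ)) ^ (2 * ℓ ^ 2)
          * (1 - 1 / 2 ^ (ℓ + 1)) ^ ((h : ℝ) / ((ℓ + 2) * ℓ ^ 2))) * 2 ^ g := by
  classical
  set E : ℝ := Real.exp (-((h : ℝ) / (10 ^ 10 * (ℓ + 2 * K) * Real.log (2 * g)))) with hE
  set Q : ℝ := (2 * (g : ℝ)) ^ (2 * ℓ ^ 2)
          * (1 - 1 / 2 ^ (ℓ + 1)) ^ ((h : ℝ) / ((ℓ + 2) * ℓ ^ 2)) with hQ
  have hβ : (0 : ℝ) < 1 - 1 / 2 ^ (ℓ + 1) := by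
    rw [sub_pos, div_lt_one (by positivity)]
    exact one_lt_pow₀ (by norm_num) (by omega)
  have hE0 : 0 ≤ E := (Real.exp_pos _).le
  have hQ0 : 0 ≤ Q := mul_nonneg (by positivity) (Real.rpow_nonneg hβ.le _)
  have hif : 0 ≤ (if ℓ ≤ 1 then (0 : ℝ) else Q) := by split_ifs <;> simp [hQ0]
  set S : Set (Finset X) := {Φ : Finset X | CMType c Φ ∧ ¬ ConiveauByDivisors Γ c ℓ K Φ} with hS
  set T : Set (Finset X) := {Φ : Finset X | CMType c Φ ∧ ∃ N < 2 * ℓ ^ 2, ∃ τ : Fin N → X,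
        2 * (ℓ + 2) ≤ ∑ x, (vec c τ x).natAbs ∧
          ∀ γ : Γ, |∑ φ ∈ Φ, vec c τ (γ • φ)| ≤ ℓ} with hT
  have hD := theoremD (c := c) (g := g) (h := h) (n := ℓ + 2 * K) hcc hc2 hX horb
    (by push_cast; exact hc)
  push_cast at hD
  rw [← hE] at hD
  -- the dichotomy
  have key : ∀ Φ ∈ S, Φ ∈ (Bad c (ℓ + 2 * K) : Set (Finset X)) ∨ (2 ≤ ℓ ∧ Φ ∈ T) := by
    rintro Φ ⟨hΦ, hbad⟩
    obtain ⟨τ, hs, ht⟩ := exists_vec_of_bad hcc hc2 hΦ hbad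
    have hN := two_mul_len (n := ℓ + 2 * K) hc2 hΦ τ
    set N := ∑ i ∈ Φ, (vec c τ i).natAbs with hNdef
    by_cases hlong : 2 * ℓ ^ 2 ≤ N
    · left
      refine ⟨hΦ, τ, ?_, ?_⟩
      · by_contra hcon
        push Not at hcon
        simp only [hcon] at hs
        simp at hs
      · have h1 : ∑ γ : Γ, (∑ φ ∈ Φ, vec c τ (γ • φ)) ^ 2 ≤ ∑ _γ : Γ, ((ℓ : ℤ)) ^ 2 := by
          refine Finset.sum_le_sum ?_
          intro γ _
          exact sq_le_sq' (by have := (abs_le.1 (ht γ)).1; linarith) (abs_le.1 (ht γ)).2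
        rw [Finset.sum_const, Finset.card_univ, nsmul_eq_mul] at h1
        have h2 : ∑ x, |vec c τ x| = 2 * (N : ℤ) := by
          have h3 : ((∑ x, (vec c τ x).natAbs : ℕ) : ℤ) = ∑ x, |vec c τ x| := by
            push_cast
            rfl
          rw [← h3, ← hN]
          push_cast
          ring
        rw [h2]
        have h4 : (2 * (ℓ : ℤ) ^ 2) ≤ N := by exact_mod_cast hlong
        have h5 : (0 : ℤ) ≤ Fintype.card Γ := by positivity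
        calc 4 * ∑ γ : Γ, (∑ φ ∈ Φ, vec c τ (γ • φ)) ^ 2
            ≤ 4 * ((Fintype.card Γ : ℤ) * (ℓ : ℤ) ^ 2) := by linarith
          _ = (Fintype.card Γ : ℤ) * (2 * (2 * (ℓ : ℤ) ^ 2)) := by ring
          _ ≤ (Fintype.card Γ : ℤ) * (2 * (N : ℤ)) := by
              refine mul_le_mul_of_nonneg_left ?_ h5
              linarith
    · right
      push Not at hlong
      refine ⟨?_, hΦ, N, hlong, ?_⟩
      · by_contra hl
        have hl1 : ℓ ≤ 1 := by omega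
        have h6 : ℓ + 2 ≤ N := by omega
        have h7 : 2 * ℓ ^ 2 ≤ 2 := by
          have : ℓ ^ 2 ≤ 1 := by
            calc ℓ ^ 2 ≤ 1 ^ 2 := Nat.pow_le_pow_left hl1 2
              _ = 1 := by norm_num
          omega
        omega
      · obtain ⟨τ', hτ'⟩ := exists_reduced hc2 hΦ τ hNdef.symm
        refine ⟨τ', ?_, ?_⟩
        · rw [hτ']
          exact hs
        · rw [hτ']
          exact ht
  rcases S.eq_empty_or_nonempty with he | ⟨Φ₁, hΦ₁⟩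
  · rw [he, Set.ncard_empty, Nat.cast_zero]
    exact mul_nonneg (add_nonneg hE0 hif) (by positivity)
  have hg : 1 ≤ g := by
    obtain ⟨hΦ, hbad⟩ := hΦ₁
    obtain ⟨τ, hs, -⟩ := exists_vec_of_bad hcc hc2 hΦ hbad
    by_contra hlt
    have h0 : Fintype.card X = 0 := by omega
    rw [Fintype.card_eq_zero_iff] at h0
    rw [Finset.univ_eq_empty, Finset.sum_empty] at hs
    omega
  by_cases hl : ℓ ≤ 1
  · rw [if_pos hl, add_zero]
    refine le_trans ?_ hD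
    have hsub : S ⊆ (Bad c (ℓ + 2 * K) : Set (Finset X)) := by
      intro Φ hΦ
      rcases key Φ hΦ with h | ⟨h, -⟩
      · exact h
      · omega
    exact_mod_cast Set.ncard_le_ncard hsub (Set.toFinite _)
  · rw [if_neg hl]
    have hsub : S ⊆ (Bad c (ℓ + 2 * K) : Set (Finset X)) ∪ T := by
      intro Φ hΦ
      rcases key Φ hΦ with h | ⟨-, h⟩
      · exact Or.inl h
      · exact Or.inr h
    have h8 : (S.ncard : ℝ) ≤ ((Bad c (ℓ + 2 * K) : Set (Finset X)).ncard : ℝ) + (T.ncard : ℝ) := by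
      have h9 := Set.ncard_le_ncard hsub (Set.toFinite _)
      have h10 := Set.ncard_union_le (Bad c (ℓ + 2 * K) : Set (Finset X)) T
      exact_mod_cast h9.trans h10
    have h11 := short_le (c := c) (g := g) (h := h) hcc hc2 ℓ hg hX horb
    rw [← hQ] at h11
    calc (S.ncard : ℝ) ≤ ((Bad c (ℓ + 2 * K) : Set (Finset X)).ncard : ℝ) + (T.ncard : ℝ) := h8
      _ ≤ E * 2 ^ g + Q * 2 ^ g := add_le_add hD h11
      _ = (E + Q) * 2 ^ g := by ring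

end Pool.Agent.Lib.MP_938ce2_ag_h82
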